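import Mathlib

/-!
Models of ZF, and the two product principles CPQM and CPM evaluated in a model of ZF.
-/

namespace Pool.Agent.H.MP_07d118_lc

universe u

/-- A structure for the language of set theory: a type with one binary relation. -/
class SetStr (M : Type u) where
  E : M → M → Prop

/-- `x ∈ a` for elements of such a structure is the given relation. -/
instance {M : Type u} [SetStr M] : Membership M M := ⟨fun a x => SetStr.E x a⟩

/-- First-order formulas of the language of set theory, with de Bruijn indices. -/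
inductive Fml : Type
  | mem (i j : ℕ)
  | eq (i j : ℕ)
  | bot
  | imp (φ ψ : Fml)
  | all (φ : Fml)

/-- The assignment `x, v 0, v 1, ...`. -/
def cons {M : Type u} (x : M) (v : ℕ → M) : ℕ → M
  | 0 => x
  | n + 1 => v n

/-- Satisfaction of a formula in a structure under an assignment of its free variables. -/
def Sat {M : Type u} [SetStr M] : (ℕ → M) → Fml → Prop
  | v, .mem i j => v i ∈ v j
  | v, .eq i j => v i = v j
  | _, .bot => False
  | v, .imp φ ψ => Sat v φ → Sat v ψ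
  | v, .all φ => ∀ x : M, Sat (cons x v) φ

section Notions

variable {M : Type u} [SetStr M]

/-- `x` is the empty set. -/
def IsEmp (x : M) : Prop := ∀ y : M, ¬ y ∈ x

/-- `y = x ∪ {x}`. -/
def IsSucc (y x : M) : Prop := ∀ z : M, z ∈ y ↔ z ∈ x ∨ z = x

/-- `w` contains the empty set and is closed under successors. -/
def IsInd (w : M) : Prop := (∀ z : M, IsEmp z → z ∈ w) ∧ ∀ x y : M, x ∈ w → IsSucc y x → y ∈ w

/-- `w` is the set of natural numbers. -/
def IsOmega (w : M) : Prop := IsInd w ∧ ∀ w' : M, IsInd w' → ∀ x : M, x ∈ w → x ∈ w'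

end Notions

/-- The axioms of ZF: extensionality, foundation, pairing, union, power set, infinity, and the
schemata of separation and replacement for all first-order formulas (with parameters). -/
class ZF (M : Type u) [SetStr M] : Prop where
  ext : ∀ a b : M, (∀ x : M, x ∈ a ↔ x ∈ b) → a = b
  foundation : ∀ a : M, (∃ x : M, x ∈ a) → ∃ x : M, x ∈ a ∧ ∀ y : M, ¬ (y ∈ x ∧ y ∈ a)
  pairing : ∀ a b : M, ∃ c : M, ∀ x : M, x ∈ c ↔ x = a ∨ x = b
  union : ∀ a : M, ∃ b : M, ∀ x : M, x ∈ b ↔ ∃ y : M, y ∈ a ∧ x ∈ y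
  power : ∀ a : M, ∃ b : M, ∀ x : M, x ∈ b ↔ ∀ y : M, y ∈ x → y ∈ a
  infinity : ∃ a : M, (∃ z : M, IsEmp z ∧ z ∈ a) ∧ ∀ x : M, x ∈ a → ∃ y : M, IsSucc y x ∧ y ∈ a
  separation : ∀ (φ : Fml) (v : ℕ → M) (a : M),
    ∃ b : M, ∀ x : M, x ∈ b ↔ x ∈ a ∧ Sat (cons x v) φ
  replacement : ∀ (φ : Fml) (v : ℕ → M) (a : M),
    (∀ x : M, x ∈ a → ∃! y : M, Sat (cons y (cons x v)) φ) →
    ∃ b : M, ∀ y : M, y ∈ b ↔ ∃ x : M, x ∈ a ∧ Sat (cons y (cons x v)) φ

section Statement

variable {M : Type u} [SetStr M]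

/-- `z = {x, y}`. -/
def IsUPair (z x y : M) : Prop := ∀ w : M, w ∈ z ↔ w = x ∨ w = y

/-- `p` is the (Kuratowski) ordered pair `(x, y) = {{x}, {x, y}}`. -/
def IsOPair (p x y : M) : Prop := ∃ a b : M, IsUPair a x x ∧ IsUPair b x y ∧ IsUPair p a b

/-- `(x, y) ∈ f`. -/
def Rel (f x y : M) : Prop := ∃ p : M, IsOPair p x y ∧ p ∈ f

/-- `((x, y), z) ∈ f`. -/
def Rel3 (f x y z : M) : Prop := ∃ p : M, IsOPair p x y ∧ Rel f p z

/-- `f` is a function with domain `A`. -/
def IsFun (f A : M) : Prop :=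
  (∀ p : M, p ∈ f → ∃ x y : M, x ∈ A ∧ IsOPair p x y) ∧ ∀ x : M, x ∈ A → ∃! y : M, Rel f x y

/-- `f` is a function from `A × B` to `C`. -/
def IsFun3 (f A B C : M) : Prop :=
  (∀ p : M, p ∈ f → ∃ x y z q : M, x ∈ A ∧ y ∈ B ∧ z ∈ C ∧ IsOPair q x y ∧ IsOPair p q z) ∧
    ∀ x y : M, x ∈ A → y ∈ B → ∃! z : M, Rel3 f x y z

/-- `J` is countable: there is an injection of `J` into the set of natural numbers. -/
def IsCtbl (J : M) : Prop :=
  ∃ w f : M, IsOmega w ∧ IsFun f J ∧ (∀ j n : M, Rel f j n → n ∈ w) ∧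
    ∀ i j n : M, Rel f i n → Rel f j n → i = j

/-- The type of the elements of `a`. -/
abbrev El (a : M) : Type u := {x : M // x ∈ a}

/-- In `M`, `R` with the addition `A`, the multiplication `P` and the order `L` is a complete
ordered field: it is an ordered field, and every set `S ⊆ R` of the model which is nonempty and
bounded above has a least upper bound. -/
structure IsReals (R A P L : M) [Field (El R)] [LinearOrder (El R)]
    [IsStrictOrderedRing (El R)] : Prop where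
  addFun : IsFun3 A R R R
  mulFun : IsFun3 P R R R
  leSub : ∀ p : M, p ∈ L → ∃ x y : M, x ∈ R ∧ y ∈ R ∧ IsOPair p x y
  add : ∀ x y : El R, Rel3 A x.1 y.1 (x + y).1
  mul : ∀ x y : El R, Rel3 P x.1 y.1 (x * y).1
  le : ∀ x y : El R, Rel L x.1 y.1 ↔ x ≤ y
  sup : ∀ S : M, (∀ x : M, x ∈ S → x ∈ R) → (∃ x : M, x ∈ S) →
    (∃ b : El R, ∀ x : El R, x.1 ∈ S → x ≤ b) →
    ∃ b : El R, (∀ x : El R, x.1 ∈ S → x ≤ b) ∧ ∀ c : El R, (∀ x : El R, x.1 ∈ S → x ≤ c) → b ≤ c

/-- In `M`, `d` is a quasi-metric on `X` with values in `R`; `ρ` is the function which `d`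
codes. -/
structure IsQMet (R X d : M) [Field (El R)] [LinearOrder (El R)]
    (ρ : El X → El X → El R) : Prop where
  isFun : IsFun3 d X X R
  val : ∀ x y : El X, Rel3 d x.1 y.1 (ρ x y).1
  nonneg : ∀ x y : El X, 0 ≤ ρ x y
  self : ∀ x : El X, ρ x x = 0
  tri : ∀ x y z : El X, ρ x y ≤ ρ x z + ρ z y
  eq : ∀ x y : El X, ρ x y = 0 → x = y

/-- `T` consists of the subsets `U` of `X` such that every `x ∈ U` has an `ε > 0` with
`{y | ρ x y < ε} ⊆ U`. -/
def IsTopOf (R X T : M) [Field (El R)] [LinearOrder (El R)] (ρ : El X → El X → El R) : Prop :=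
  ∀ U : M, U ∈ T ↔ (∀ x : M, x ∈ U → x ∈ X) ∧
    ∀ x : El X, x.1 ∈ U → ∃ ε : El R, 0 < ε ∧ ∀ y : El X, ρ x y < ε → y.1 ∈ U

/-- In `M`, the space `(X, T)` is quasi-metrizable. -/
def QMetrizable (X T : M) : Prop :=
  ∃ (R A P L d : M) (_ : Field (El R)) (_ : LinearOrder (El R)) (_ : IsStrictOrderedRing (El R))
    (ρ : El X → El X → El R), IsReals R A P L ∧ IsQMet R X d ρ ∧ IsTopOf R X T ρ

/-- In `M`, the space `(X, T)` is metrizable. -/
def Metrizable (X T : M) : Prop :=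
  ∃ (R A P L d : M) (_ : Field (El R)) (_ : LinearOrder (El R)) (_ : IsStrictOrderedRing (El R))
    (ρ : El X → El X → El R), IsReals R A P L ∧ IsQMet R X d ρ ∧ (∀ x y : El X, ρ x y = ρ y x) ∧
      IsTopOf R X T ρ

/-- `T` is a topology on `X`. -/
structure IsTop (X T : M) : Prop where
  sub : ∀ U : M, U ∈ T → ∀ x : M, x ∈ U → x ∈ X
  univ : X ∈ T
  inter : ∀ U V W : M, U ∈ T → V ∈ T → (∀ x : M, x ∈ W ↔ x ∈ U ∧ x ∈ V) → W ∈ T
  union : ∀ S W : M, (∀ U : M, U ∈ S → U ∈ T) → (∀ x : M, x ∈ W ↔ ∃ U : M, U ∈ S ∧ x ∈ U) → W ∈ T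

/-- `Q` is the product of the sets `X(j)`, `j ∈ J`: the set of the functions `z` with domain `J`
and `z(j) ∈ X(j)` for all `j ∈ J`. -/
def IsProd (J X Q : M) : Prop :=
  ∀ z : M, z ∈ Q ↔ IsFun z J ∧ ∀ j x Y : M, Rel z j x → Rel X j Y → x ∈ Y

/-- `V` is the set of the `z ∈ Q` with `z(j) ∈ U`. -/
def IsCyl (Q j U V : M) : Prop := ∀ z : M, z ∈ V ↔ z ∈ Q ∧ ∃ x : M, Rel z j x ∧ x ∈ U

/-- `T` is a topology on `Q` which contains the sets `{z ∈ Q | z(j) ∈ U}`, `j ∈ J`, `U ∈ S(j)`. -/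
def HasCyls (J S Q T : M) : Prop :=
  IsTop Q T ∧ ∀ j U V O : M, j ∈ J → Rel S j O → U ∈ O → IsCyl Q j U V → V ∈ T

/-- `T` is the product topology (the coarsest topology containing those sets) on `Q`, where
`S(j)` is the topology of the factor with index `j`. -/
def IsProdTop (J S Q T : M) : Prop :=
  HasCyls J S Q T ∧ ∀ T' : M, HasCyls J S Q T' → ∀ U : M, U ∈ T → U ∈ T'

variable (M)

/-- CPQM in the model `M`: for every countable family `(X(j), S(j))`, `j ∈ J`, of
quasi-metrizable spaces the product space is quasi-metrizable. -/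
def CPQM : Prop :=
  ∀ J X S Q T : M, IsCtbl J → IsFun X J → IsFun S J →
    (∀ j Y O : M, j ∈ J → Rel X j Y → Rel S j O → QMetrizable Y O) →
    IsProd J X Q → IsProdTop J S Q T → QMetrizable Q T

/-- CPM in the model `M`: for every countable family `(X(j), S(j))`, `j ∈ J`, of metrizable
spaces the product space is metrizable. -/
def CPM : Prop :=
  ∀ J X S Q T : M, IsCtbl J → IsFun X J → IsFun S J →
    (∀ j Y O : M, j ∈ J → Rel X j Y → Rel S j O → Metrizable Y O) →
    IsProd J X Q → IsProdTop J S Q T → Metrizable Q T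

end Statement

end Pool.Agent.H.MP_07d118_lc
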