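import Pool.Agent.H.MP_07d118_lc.Real

/-!
From a sequence of relations to a quasi-metric (chains).
-/

set_option linter.unusedSectionVars false

namespace Pool.Agent.H.MP_07d118_lc

universe u

variable {M : Type u} [SetStr M] [ZF M]

/-- the chains without links -/
noncomputable def chZ (X R z : M) : M :=
  sep (prod (prod X X) R) (fun p => ∃ x : M, p = opair (opair x x) z)

/-- one more link -/
noncomputable def chG (X R A P q o : M) (V : M → M → M → Prop) (Z : M) : M :=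
  sep (prod (prod X X) R) (fun p => ∃ x y z r k : M, k ∈ (om : M) ∧ y ∈ X ∧
    opair (opair x y) r ∈ Z ∧ V k y z ∧ p = opair (opair x z) (op A r (pwM P q o k)))

/-- there is a chain with `n` links from `x` to `y` of length `r` -/
def ChM (X R A P q o z : M) (V : M → M → M → Prop) (n x y r : M) : Prop :=
  opair (opair x y) r ∈ iter (chG X R A P q o V) (chZ X R z) n

theorem chG_df' (X R A P q o : M) {V : M → M → M → Prop}
    (hV : Df (fun w : Fin 3 → M => V (w 0) (w 1) (w 2))) :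
    Df (fun w : Fin 2 → M => ∃ x y z r k : M, k ∈ (om : M) ∧ y ∈ X ∧
    opair (opair x y) r ∈ w 1 ∧ V k y z ∧ w 0 = opair (opair x z) (op A r (pwM P q o k))) := by
  apply_rules (transparency := .reducible) (maxDepth := 1000) [Df.not, Df.ex, Df.and, Df.mem, Df.eq, Df.comp3 hV, DfF.Opair,
    DfF.Op, DfF.PwM, DfF.var, DfF.const]

theorem chG_df (X R A P q o : M) {V : M → M → M → Prop}
    (hV : Df (fun w : Fin 3 → M => V (w 0) (w 1) (w 2))) :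
    DfF (fun w : Fin 1 → M => chG X R A P q o V (w 0)) := by
  refine DfF.Sep (P := fun p w => ∃ x y z r k : M, k ∈ (om : M) ∧ y ∈ X ∧
    opair (opair x y) r ∈ w 0 ∧ V k y z ∧ p = opair (opair x z) (op A r (pwM P q o k)))
    (DfF.const _) ?_
  exact chG_df' X R A P q o hV

theorem ChM_df (X R A P q o z : M) {V : M → M → M → Prop}
    (hV : Df (fun w : Fin 3 → M => V (w 0) (w 1) (w 2))) :
    Df (fun w : Fin 4 → M => ChM X R A P q o z V (w 0) (w 1) (w 2) (w 3)) := by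
  refine Df.mem (DfF.Opair (DfF.Opair (DfF.var _) (DfF.var _)) (DfF.var _)) ?_
  refine DfF.Iter (G := fun Z _ => chG X R A P q o V Z) ?_ (DfF.const _) (DfF.var _)
  exact (chG_df X R A P q o hV).wk fun _ => 0

section

variable {X R A P L T : M} [Field (El R)] [LinearOrder (El R)] [IsStrictOrderedRing (El R)]
variable {V : M → M → M → Prop}

/-- chains with the weights `q ^ k` -/
def Ch (X R A P : M) [Field (El R)] (V : M → M → M → Prop) (q : El R) (n x y r : M) : Prop :=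
  ChM X R A P q.1 (1 : El R).1 (0 : El R).1 V n x y r

theorem Ch_df {q : El R} (hV : Df (fun w : Fin 3 → M => V (w 0) (w 1) (w 2))) :
    Df (fun w : Fin 4 → M => Ch X R A P V q (w 0) (w 1) (w 2) (w 3)) := ChM_df _ _ _ _ _ _ _ hV

theorem chZ_mem {z : M} {x y r : M} :
    opair (opair x y) r ∈ chZ X R z ↔ (x ∈ X ∧ r ∈ R) ∧ x = y ∧ r = z := by
  unfold chZ
  rw [mem_sep (by apply_rules (transparency := .reducible) (maxDepth := 1000) [Df.not, Df.ex, Df.eq, DfF.Opair, DfF.var,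
    DfF.const])]
  rw [opair_mem_prod, opair_mem_prod]
  constructor
  · rintro ⟨⟨⟨h1, h2⟩, h3⟩, x', h⟩
    obtain ⟨h4, rfl⟩ := opair_inj.1 h
    obtain ⟨rfl, rfl⟩ := opair_inj.1 h4
    exact ⟨⟨h1, h3⟩, rfl, rfl⟩
  · rintro ⟨⟨h1, h2⟩, rfl, rfl⟩
    exact ⟨⟨⟨h1, h1⟩, h2⟩, x, rfl⟩

theorem chZ_sub {z : M} : chZ X R z ∈ pow (prod (prod X X) R) := by
  rw [mem_pow]
  intro p hp
  unfold chZ at hp
  rw [mem_sep (by apply_rules (transparency := .reducible) (maxDepth := 1000) [Df.not, Df.ex, Df.eq, DfF.Opair, DfF.var,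
    DfF.const])] at hp
  exact hp.1

theorem mem_chG (hV : Df (fun w : Fin 3 → M => V (w 0) (w 1) (w 2))) {q o Z p : M} :
    p ∈ chG X R A P q o V Z ↔ p ∈ prod (prod X X) R ∧ ∃ x y z r k : M, k ∈ (om : M) ∧ y ∈ X ∧
    opair (opair x y) r ∈ Z ∧ V k y z ∧ p = opair (opair x z) (op A r (pwM P q o k)) :=
  mem_sep ((chG_df' X R A P q o hV).fix (P := fun p v => ∃ x y z r k : M, k ∈ (om : M) ∧ y ∈ X ∧
    opair (opair x y) r ∈ v 0 ∧ V k y z ∧ p = opair (opair x z) (op A r (pwM P q o k)))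
    (fun _ => Z))

theorem chG_sub (hV : Df (fun w : Fin 3 → M => V (w 0) (w 1) (w 2))) {q o Z : M} :
    chG X R A P q o V Z ∈ pow (prod (prod X X) R) := by
  rw [mem_pow]
  intro p hp
  exact ((mem_chG hV).1 hp).1

theorem Ch.mem (hV : Df (fun w : Fin 3 → M => V (w 0) (w 1) (w 2))) {q : El R} {n x y r : M}
    (hn : n ∈ (om : M)) (h : Ch X R A P V q n x y r) : x ∈ X ∧ y ∈ X ∧ r ∈ R := by
  have h1 := iter_mem (chG_df X R A P q.1 (1 : El R).1 hV) (A := pow (prod (prod X X) R))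
    (a := chZ X R (0 : El R).1) chZ_sub (fun _ _ => chG_sub hV) n hn
  have h2 := mem_pow.1 h1 _ h
  rw [opair_mem_prod, opair_mem_prod] at h2
  exact ⟨h2.1.1, h2.1.2, h2.2⟩

theorem Ch.zero (hV : Df (fun w : Fin 3 → M => V (w 0) (w 1) (w 2))) {q : El R} {x y : El X}
    {r : El R} : Ch X R A P V q emp x.1 y.1 r.1 ↔ x = y ∧ r = 0 := by
  unfold Ch ChM
  rw [iter_zero (chG_df X R A P q.1 (1 : El R).1 hV) (A := pow (prod (prod X X) R))
    (a := chZ X R (0 : El R).1) chZ_sub (fun _ _ => chG_sub hV), chZ_mem]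
  constructor
  · rintro ⟨_, h1, h2⟩
    exact ⟨Subtype.ext h1, Subtype.ext h2⟩
  · rintro ⟨rfl, rfl⟩
    exact ⟨⟨x.2, Subtype.property _⟩, rfl, rfl⟩

theorem Ch.suc (hR : IsReals R A P L) (hV : Df (fun w : Fin 3 → M => V (w 0) (w 1) (w 2)))
    {q : El R} {n : El (om : M)} {x z : El X} {t : El R} :
    Ch X R A P V q (suc n.1) x.1 z.1 t.1 ↔ ∃ (y : El X) (r : El R) (k : El (om : M)),
      Ch X R A P V q n.1 x.1 y.1 r.1 ∧ V k.1 y.1 z.1 ∧ t = r + pw hR q k := by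
  have e : iter (chG X R A P q.1 (1 : El R).1 V) (chZ X R (0 : El R).1) (MP_07d118_lc.suc n.1) =
      chG X R A P q.1 (1 : El R).1 V
        (iter (chG X R A P q.1 (1 : El R).1 V) (chZ X R (0 : El R).1) n.1) :=
    iter_suc (chG_df X R A P q.1 (1 : El R).1 hV) (A := pow (prod (prod X X) R))
    (a := chZ X R (0 : El R).1) chZ_sub (fun _ _ => chG_sub hV) n.2
  unfold Ch ChM
  rw [e, mem_chG hV]
  constructor
  · rintro ⟨-, x', y, z', r, k, hk, hy, h1, h2, h3⟩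
    obtain ⟨h4, h5⟩ := opair_inj.1 h3
    obtain ⟨rfl, rfl⟩ := opair_inj.1 h4
    have hr : r ∈ R := (Ch.mem (X := X) (R := R) (A := A) (P := P) (q := q) hV n.2 h1).2.2
    refine ⟨⟨y, hy⟩, ⟨r, hr⟩, ⟨k, hk⟩, h1, h2, ?_⟩
    apply Subtype.ext
    rw [h5]
    exact hR.op_add ⟨r, hr⟩ (pw hR q ⟨k, hk⟩)
  · rintro ⟨y, r, k, h1, h2, h3⟩
    refine ⟨?_, x.1, y.1, z.1, r.1, k.1, k.2, y.2, h1, h2, ?_⟩
    · rw [opair_mem_prod, opair_mem_prod]
      exact ⟨⟨x.2, z.2⟩, t.2⟩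
    · rw [h3, ← hR.op_add]
      rfl

theorem ch_one (hR : IsReals R A P L) (hV : Df (fun w : Fin 3 → M => V (w 0) (w 1) (w 2)))
    {q : El R} {k : El (om : M)} {x y : El X} (h : V k.1 x.1 y.1) :
    Ch X R A P V q (suc emp) x.1 y.1 (pw hR q k).1 := by
  have h0 : Ch X R A P V q emp x.1 x.1 (0 : El R).1 := (Ch.zero hV).2 ⟨rfl, rfl⟩
  exact (Ch.suc hR hV (n := zN)).2 ⟨x, 0, k, h0, h, (zero_add _).symm⟩

theorem ch_nonneg (hR : IsReals R A P L) (hV : Df (fun w : Fin 3 → M => V (w 0) (w 1) (w 2)))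
    {q : El R} (hq : 0 < q) : ∀ n : M, n ∈ (om : M) → ∀ x y r : M, Ch X R A P V q n x y r →
      Rel L (0 : El R).1 r ∧ (¬ n = emp → ltM L (0 : El R).1 r) := by
  refine nat_ind ?_ ?_ ?_
  · apply_rules (transparency := .reducible) (maxDepth := 1000) [Df.not, Df.all, Df.imp, Df.and, Df.comp4 (Ch_df hV),
      Df.rel, Df.ltM, Df.eq, DfF.var, DfF.const]
  · intro x y r h
    obtain ⟨hx, hy, hr⟩ := Ch.mem hV emp_mem_om h
    have h1 := (Ch.zero hV (x := ⟨x, hx⟩) (y := ⟨y, hy⟩) (r := ⟨r, hr⟩)).1 h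
    have h2 := h1.2
    refine ⟨?_, fun h => absurd rfl h⟩
    exact (hR.le 0 ⟨r, hr⟩).2 (by rw [h2])
  · intro n hn ih x z t h
    obtain ⟨hx, hz, ht⟩ := Ch.mem hV (suc_mem_om hn) h
    obtain ⟨y, r, k, h1, h2, h3⟩ := (Ch.suc hR hV (n := ⟨n, hn⟩) (x := ⟨x, hx⟩) (z := ⟨z, hz⟩)
      (t := ⟨t, ht⟩)).1 h
    have h4 := (hR.le 0 r).1 (ih _ _ _ h1).1
    have h5 := pw_pos hR hq k
    have h6 : (0 : El R) < ⟨t, ht⟩ := by
      rw [h3]
      linarith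
    exact ⟨(hR.le 0 ⟨t, ht⟩).2 h6.le, fun _ => (hR.lt_iff 0 ⟨t, ht⟩).2 h6⟩

theorem ch_concat (hR : IsReals R A P L) (hV : Df (fun w : Fin 3 → M => V (w 0) (w 1) (w 2)))
    {q : El R} : ∀ m : M, m ∈ (om : M) → ∀ y z s : M, Ch X R A P V q m y z s →
      ∀ x r n : M, n ∈ (om : M) → Ch X R A P V q n x y r →
        ∃ l : M, l ∈ (om : M) ∧ Ch X R A P V q l x z (op A r s) := by
  refine nat_ind ?_ ?_ ?_
  · apply_rules (transparency := .reducible) (maxDepth := 1000) [Df.not, Df.all, Df.imp, Df.ex, Df.and, Df.mem,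
      Df.comp4 (Ch_df hV), DfF.Op, DfF.var, DfF.const]
  · intro y z s h x r n hn h'
    obtain ⟨hy, hz, hs⟩ := Ch.mem hV emp_mem_om h
    obtain ⟨hx, _, hr⟩ := Ch.mem hV hn h'
    obtain ⟨h1, h2⟩ := (Ch.zero hV (x := ⟨y, hy⟩) (y := ⟨z, hz⟩) (r := ⟨s, hs⟩)).1 h
    refine ⟨n, hn, ?_⟩
    have e1 : y = z := congrArg Subtype.val h1
    have e2 : op A r s = r := by
      have := hR.op_add ⟨r, hr⟩ ⟨s, hs⟩
      rw [h2, add_zero] at this
      rw [show s = (0 : El R).1 from congrArg Subtype.val h2]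
      exact this
    rw [e2, ← e1]
    exact h'
  · intro m hm ih y z s h x r n hn h'
    obtain ⟨hy, hz, hs⟩ := Ch.mem hV (suc_mem_om hm) h
    obtain ⟨hx, _, hr⟩ := Ch.mem hV hn h'
    obtain ⟨y', s', k, h1, h2, h3⟩ := (Ch.suc hR hV (n := ⟨m, hm⟩) (x := ⟨y, hy⟩) (z := ⟨z, hz⟩)
      (t := ⟨s, hs⟩)).1 h
    obtain ⟨l, hl, h4⟩ := ih _ _ _ h1 x r n hn h'
    refine ⟨suc l, suc_mem_om hl, ?_⟩
    have e1 := hR.op_add ⟨r, hr⟩ s'
    have e2 := hR.op_add ⟨r, hr⟩ ⟨s, hs⟩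
    rw [h3] at e2
    have e3 : op A r s = (⟨r, hr⟩ + (s' + pw hR q k) : El R).1 := by
      rw [← e2, ← h3]
    rw [e3]
    have e1' : op A r s'.1 = (⟨r, hr⟩ + s' : El R).1 := e1
    rw [e1'] at h4
    refine (Ch.suc hR hV (n := ⟨l, hl⟩) (x := ⟨x, hx⟩) (z := ⟨z, hz⟩)).2 ⟨y', _, k, h4, h2, ?_⟩
    ring

theorem ch_symm (hR : IsReals R A P L) (hV : Df (fun w : Fin 3 → M => V (w 0) (w 1) (w 2)))
    {q : El R} (hs : ∀ n x y : M, n ∈ (om : M) → x ∈ X → y ∈ X → V n x y → V n y x) :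
    ∀ n : M, n ∈ (om : M) → ∀ x y r : M, Ch X R A P V q n x y r →
        ∃ l : M, l ∈ (om : M) ∧ Ch X R A P V q l y x r := by
  refine nat_ind ?_ ?_ ?_
  · apply_rules (transparency := .reducible) (maxDepth := 1000) [Df.not, Df.all, Df.imp, Df.ex, Df.and, Df.mem,
      Df.comp4 (Ch_df hV), DfF.Op, DfF.var, DfF.const]
  · intro x y r h
    obtain ⟨hx, hy, hr⟩ := Ch.mem hV emp_mem_om h
    obtain ⟨h1, h2⟩ := (Ch.zero hV (x := ⟨x, hx⟩) (y := ⟨y, hy⟩) (r := ⟨r, hr⟩)).1 h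
    exact ⟨emp, emp_mem_om, (Ch.zero hV (x := ⟨y, hy⟩) (y := ⟨x, hx⟩) (r := ⟨r, hr⟩)).2
      ⟨h1.symm, h2⟩⟩
  · intro n hn ih x z t h
    obtain ⟨hx, hz, ht⟩ := Ch.mem hV (suc_mem_om hn) h
    obtain ⟨y, r, k, h1, h2, h3⟩ := (Ch.suc hR hV (n := ⟨n, hn⟩) (x := ⟨x, hx⟩) (z := ⟨z, hz⟩)
      (t := ⟨t, ht⟩)).1 h
    obtain ⟨l, hl, h4⟩ := ih _ _ _ h1
    have h5 := ch_one hR hV (q := q) (k := k) (x := ⟨z, hz⟩) (y := y)
      (hs _ _ _ k.2 y.2 hz h2)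
    obtain ⟨l', hl', h6⟩ := ch_concat hR hV l hl _ _ _ h4 _ _ _ (suc_mem_om emp_mem_om) h5
    refine ⟨l', hl', ?_⟩
    rw [hR.op_add] at h6
    have e : t = (pw hR q k + r : El R).1 := by
      rw [add_comm, ← h3]
    rw [e]
    exact h6

theorem ch_dec (hR : IsReals R A P L) (hV : Df (fun w : Fin 3 → M => V (w 0) (w 1) (w 2)))
    {q : El R} : ∀ n : M, n ∈ (om : M) → ∀ x y r : M, Ch X R A P V q n x y r →
      ∀ b : M, b ∈ R → Rel L (0 : El R).1 b → ltM L b r →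
        ∃ u v s t k n1 n2 : M, n1 ∈ n ∧ n2 ∈ n ∧ k ∈ (om : M) ∧ Ch X R A P V q n1 x u s ∧
          Ch X R A P V q n2 v y t ∧ V k u v ∧ Rel L s b ∧
          ltM L b (op A s (pwM P q.1 (1 : El R).1 k)) ∧
          op A (op A s (pwM P q.1 (1 : El R).1 k)) t = r := by
  refine nat_ind ?_ ?_ ?_
  · apply_rules (transparency := .reducible) (maxDepth := 1000) [Df.not, Df.all, Df.imp, Df.ex, Df.and, Df.mem, Df.eq,
      Df.rel, Df.ltM, Df.comp3 hV, Df.comp4 (Ch_df hV), DfF.Op, DfF.PwM, DfF.var, DfF.const]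
  · intro x y r h b hb hb0 hbr
    obtain ⟨hx, hy, hr⟩ := Ch.mem hV emp_mem_om h
    obtain ⟨h1, h2⟩ := (Ch.zero hV (x := ⟨x, hx⟩) (y := ⟨y, hy⟩) (r := ⟨r, hr⟩)).1 h
    have h3 := (hR.le 0 ⟨b, hb⟩).1 hb0
    have h4 := (hR.lt_iff ⟨b, hb⟩ ⟨r, hr⟩).1 hbr
    rw [h2] at h4
    exact absurd h4 (not_lt.2 h3)
  · intro n hn ih x z t h b hb hb0 hbr
    obtain ⟨hx, hz, ht⟩ := Ch.mem hV (suc_mem_om hn) h
    obtain ⟨y, r, k, h1, h2, h3⟩ := (Ch.suc hR hV (n := ⟨n, hn⟩) (x := ⟨x, hx⟩) (z := ⟨z, hz⟩)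
      (t := ⟨t, ht⟩)).1 h
    have h4 := (hR.lt_iff ⟨b, hb⟩ ⟨t, ht⟩).1 hbr
    rcases le_or_gt r ⟨b, hb⟩ with h5 | h5
    · refine ⟨y.1, z, r.1, (0 : El R).1, k.1, n, emp, lt_suc n, ?_, k.2, h1, ?_, h2, ?_, ?_, ?_⟩
      · exact lt_suc_iff.2 (zero_le' hn)
      · exact (Ch.zero hV (x := ⟨z, hz⟩) (y := ⟨z, hz⟩) (r := 0)).2 ⟨rfl, rfl⟩
      · exact (hR.le r ⟨b, hb⟩).2 h5
      · have e : op A r.1 (pwM P q.1 (1 : El R).1 k.1) = t := by
          rw [show t = (r + pw hR q k : El R).1 by rw [← h3], ← hR.op_add]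
          rfl
        rw [e]
        exact hbr
      · have e : op A r.1 (pwM P q.1 (1 : El R).1 k.1) = (r + pw hR q k : El R).1 := by
          rw [← hR.op_add]
          rfl
        rw [e, hR.op_add, add_zero, ← h3]
    · obtain ⟨u, v, s, t', k', n1, n2, g1, g2, g3, g4, g5, g6, g7, g8, g9⟩ :=
        ih _ _ _ h1 b hb hb0 ((hR.lt_iff ⟨b, hb⟩ r).2 h5)
      obtain ⟨hv, _, ht'⟩ := Ch.mem hV (om_mem hn g2) g5
      obtain ⟨_, _, hs⟩ := Ch.mem hV (om_mem hn g1) g4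
      refine ⟨u, v, s, (⟨t', ht'⟩ + pw hR q k : El R).1, k', n1, suc n2,
        mem_suc.2 (Or.inl g1), lt_suc_iff.2 (suc_le hn g2), g3, g4, ?_, g6, g7, g8, ?_⟩
      · exact (Ch.suc hR hV (n := ⟨n2, om_mem hn g2⟩) (x := ⟨v, hv⟩) (z := ⟨z, hz⟩)).2
          ⟨y, ⟨t', ht'⟩, k, g5, h2, rfl⟩
      · have e : op A s (pwM P q.1 (1 : El R).1 k') = ((⟨s, hs⟩ + pw hR q ⟨k', g3⟩ : El R)).1 :=
          hR.op_add ⟨s, hs⟩ (pw hR q ⟨k', g3⟩)
        rw [e] at g9 ⊢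
        have e2 : (⟨s, hs⟩ + pw hR q ⟨k', g3⟩ + ⟨t', ht'⟩ : El R).1 = r.1 := by
          rw [← hR.op_add]
          exact g9
        rw [hR.op_add, ← add_assoc, Subtype.ext e2, ← h3]

theorem ch_main (hR : IsReals R A P L) (h : QF X T V) {q : El R} (hq : q = 3 / 4) :
    ∀ n : M, n ∈ (om : M) → ∀ n' : M, Le n' n → ∀ x y r k : M, k ∈ (om : M) →
      Ch X R A P V q n' x y r → ltM L r (pwM P q.1 (1 : El R).1 (suc k)) → V k x y := by
  have hq0 : 0 < q := by rw [hq]; positivity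
  have hq1 : q < 1 := by
    rw [hq]
    norm_num
  refine nat_ind ?_ ?_ ?_
  · apply_rules (transparency := .reducible) (maxDepth := 1000) [Df.not, Df.all, Df.imp, Df.ex, Df.and, Df.mem, Df.eq,
      Df.rel, Df.ltM, Df.le, Df.comp3 h.df, Df.comp4 (Ch_df h.df), DfF.Op, DfF.PwM, DfF.Suc,
      DfF.var, DfF.const]
  · intro n' hn' x y r k hk hc hlt
    rcases hn' with hn' | rfl
    · exact (not_mem_emp _ hn').elim
    · obtain ⟨hx, hy, hr⟩ := Ch.mem h.df emp_mem_om hc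
      obtain ⟨h1, -⟩ := (Ch.zero h.df (x := ⟨x, hx⟩) (y := ⟨y, hy⟩) (r := ⟨r, hr⟩)).1 hc
      rw [show x = y from congrArg Subtype.val h1]
      exact h.refl _ _ hk hy
  · intro n hn ih n' hn' x y r k hk hc hlt
    rcases hn' with hn' | rfl
    · exact ih n' (lt_suc_iff.1 hn') x y r k hk hc hlt
    obtain ⟨hx, hy, hr⟩ := Ch.mem h.df (suc_mem_om hn) hc
    have hr0 := (hR.lt_iff 0 ⟨r, hr⟩).1
      ((ch_nonneg hR h.df hq0 _ (suc_mem_om hn) _ _ _ hc).2 (suc_ne_emp n))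
    have hlt' : (⟨r, hr⟩ : El R) < pw hR q (sN ⟨k, hk⟩) := (hR.lt_iff _ _).1 hlt
    let b : El R := ⟨r, hr⟩ / 2
    have hb : b = ⟨r, hr⟩ / 2 := rfl
    obtain ⟨u, v, s, t, l, n1, n2, g1, g2, g3, g4, g5, g6, g7, g8, g9⟩ :=
      ch_dec hR h.df _ (suc_mem_om hn) _ _ _ hc b.1 b.2 ((hR.le 0 b).2 (by rw [hb]; linarith))
        ((hR.lt_iff b ⟨r, hr⟩).2 (by rw [hb]; linarith))
    have hn1 := om_mem (suc_mem_om hn) g1
    have hn2 := om_mem (suc_mem_om hn) g2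
    obtain ⟨-, hu, hs⟩ := Ch.mem h.df hn1 g4
    obtain ⟨hv, -, ht⟩ := Ch.mem h.df hn2 g5
    have e : op A s (pwM P q.1 (1 : El R).1 l) = ((⟨s, hs⟩ + pw hR q ⟨l, g3⟩ : El R)).1 :=
      hR.op_add ⟨s, hs⟩ (pw hR q ⟨l, g3⟩)
    rw [e] at g8 g9
    have g9' : (⟨s, hs⟩ + pw hR q ⟨l, g3⟩ + ⟨t, ht⟩ : El R) = ⟨r, hr⟩ := by
      apply Subtype.ext
      rw [← hR.op_add]
      exact g9
    have g8' : b < (⟨s, hs⟩ + pw hR q ⟨l, g3⟩ : El R) := (hR.lt_iff _ _).1 g8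
    have g7' : (⟨s, hs⟩ : El R) ≤ b := (hR.le ⟨s, hs⟩ b).1 g7
    have hs0 := (hR.le 0 ⟨s, hs⟩).1 (ch_nonneg hR h.df hq0 _ hn1 _ _ _ g4).1
    have ht0 := (hR.le 0 ⟨t, ht⟩).1 (ch_nonneg hR h.df hq0 _ hn2 _ _ _ g5).1
    -- the level `k + 2`
    let K : El (om : M) := sN (sN ⟨k, hk⟩)
    have eK : pw hR q (sN K) = q * (q * pw hR q (sN ⟨k, hk⟩)) := by
      rw [pw_suc, pw_suc]
    have hhalf : pw hR q (sN ⟨k, hk⟩) / 2 ≤ pw hR q (sN K) := by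
      rw [eK, hq]
      have := pw_pos hR hq0 (sN ⟨k, hk⟩)
      rw [hq] at this
      linarith
    have v1 : V K.1 x u := ih n1 (lt_suc_iff.1 g1) x u s K.1 K.2 g4
      ((hR.lt_iff ⟨s, hs⟩ (pw hR q (sN K))).2 (by rw [hb] at g7'; linarith))
    have v2 : V K.1 v y := ih n2 (lt_suc_iff.1 g2) v y t K.1 K.2 g5
      ((hR.lt_iff ⟨t, ht⟩ (pw hR q (sN K))).2 (by rw [hb] at g8'; linarith))
    have v3 : V K.1 u v := by
      refine h.mono g3 hu hv ?_ g6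
      rcases le_total' K.2 g3 with h1 | h1
      · exact h1
      · rcases h1 with h1 | h1
        · exfalso
          have h2 : Le l (suc k) := lt_suc_iff.1 h1
          have h3 := pw_le hR hq0 hq1 (m := ⟨l, g3⟩) (n := sN ⟨k, hk⟩) h2
          linarith
        · exact Or.inr h1.symm
    have hk1 : suc k ∈ (om : M) := suc_mem_om hk
    have w1 : V (suc k) x v := h.comp (suc k) x u v hk1 hx hu hv v1 v3
    have w2 : V (suc k) v y := h.mono K.2 hv hy (le_suc _) v2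
    exact h.comp k x v y hk hx hv hy w1 w2

end

end Pool.Agent.H.MP_07d118_lc
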