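import Pool.Agent.H.MP_07d118_lc.Prod

/-!
The coding space: a quasi-metrizable space `Y`, defined from a metrizable space `X` and a
quasi-metric of `X`, such that every quasi-metric of `Y` yields a metric of `X`.
-/

set_option linter.unusedSectionVars false

namespace Pool.Agent.H.MP_07d118_lc

universe u

variable {M : Type u} [SetStr M] [ZF M]

theorem om_cases : ∀ c : M, c ∈ (om : M) → c = emp ∨ ∃ i : M, i ∈ (om : M) ∧ c = suc i := by
  refine nat_ind ?_ ?_ ?_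
  · apply_rules (transparency := .reducible) (maxDepth := 1000) [Df.not, Df.or, Df.ex, Df.and,
      Df.mem, Df.eq, DfF.Suc, DfF.var, DfF.const]
  · exact Or.inl rfl
  · intro n hn _
    exact Or.inr ⟨n, hn, rfl⟩

theorem om_cases3 {c : M} (hc : c ∈ (om : M)) : c = emp ∨ c = suc emp ∨
    ∃ i : M, i ∈ (om : M) ∧ c = suc (suc i) := by
  rcases om_cases c hc with h | ⟨i, hi, rfl⟩
  · exact Or.inl h
  · rcases om_cases i hi with rfl | ⟨k, hk, rfl⟩
    · exact Or.inr (Or.inl rfl)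
    · exact Or.inr (Or.inr ⟨k, hk, rfl⟩)

/-- a point of the coding space -/
noncomputable def pt (x n c : M) : M := opair (opair x n) c

theorem pt_inj {x n c x' n' c' : M} : pt x n c = pt x' n' c' ↔ x = x' ∧ n = n' ∧ c = c' := by
  unfold pt
  rw [opair_inj, opair_inj, and_assoc]

theorem DfF.Pt {n : ℕ} {F G H : (Fin n → M) → M} (hF : DfF F) (hG : DfF G) (hH : DfF H) :
    DfF (fun v => pt (F v) (G v) (H v)) := DfF.Opair (DfF.Opair hF hG) hH

/-- the coding space -/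
noncomputable def cY (X : M) : M := prod (prod X om) om

theorem pt_mem {X x n c : M} : pt x n c ∈ cY X ↔ x ∈ X ∧ n ∈ (om : M) ∧ c ∈ (om : M) := by
  unfold pt cY
  rw [opair_mem_prod, opair_mem_prod, and_assoc]

theorem mem_cY {X a : M} (ha : a ∈ cY X) : ∃ x n c : M, x ∈ X ∧ n ∈ (om : M) ∧ c ∈ (om : M) ∧
    a = pt x n c := by
  unfold cY at ha
  obtain ⟨p, hp, c, hc, rfl⟩ := mem_prod.1 ha
  obtain ⟨x, hx, n, hn, rfl⟩ := mem_prod.1 hp
  exact ⟨x, n, c, hx, hn, hc, rfl⟩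

/-- the relation which defines the neighbourhoods of the top points -/
def HH (X : M) (V : M → M → M → Prop) (x n y k i : M) : Prop :=
  V n x y ∨ (∀ l : M, l ∈ (om : M) → ∃ z : M, z ∈ X ∧ V l y z ∧ V k x z) ∨
    ¬ ∃ z : M, z ∈ X ∧ V i y z ∧ V k x z

/-- open sets of the coding space -/
def cOpen (X : M) (V : M → M → M → Prop) (U : M) : Prop :=
  (∀ y k : M, y ∈ X → k ∈ (om : M) → pt y k (suc emp) ∈ U →
    ∃ l : M, l ∈ (om : M) ∧ ∀ i : M, i ∈ (om : M) → Le l i → pt y k (suc (suc i)) ∈ U) ∧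
  (∀ x n : M, x ∈ X → n ∈ (om : M) → pt x n emp ∈ U →
    ∃ m : M, m ∈ (om : M) ∧ ∀ y k : M, y ∈ X → k ∈ (om : M) → Le m k →
      pt y k (suc emp) ∈ U ∧ ∀ i : M, i ∈ (om : M) → HH X V x n y k i → pt y k (suc (suc i)) ∈ U)

/-- the topology of the coding space -/
noncomputable def cT (X : M) (V : M → M → M → Prop) : M := sep (pow (cY X)) (cOpen X V)

theorem cOpen_df {V : M → M → M → M → Prop} {X : M → M}
    (hX : DfF (fun w : Fin 1 → M => X (w 0)))
    (hV : Df (fun w : Fin 4 → M => V (w 0) (w 1) (w 2) (w 3))) :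
    Df (fun w : Fin 2 → M => cOpen (X (w 1)) (V (w 1)) (w 0)) := by
  unfold cOpen HH
  apply_rules (transparency := .reducible) (maxDepth := 1000) [Df.not, Df.all, Df.imp, Df.ex,
    Df.and, Df.or, Df.mem, Df.eq, Df.le, Df.comp4 hV, DfF.Pt, DfF.Suc, DfF.comp1 hX, DfF.var,
    DfF.const]

theorem cT_df {V : M → M → M → M → Prop} {X : M → M}
    (hX : DfF (fun w : Fin 1 → M => X (w 0)))
    (hV : Df (fun w : Fin 4 → M => V (w 0) (w 1) (w 2) (w 3))) :
    DfF (fun w : Fin 1 → M => cT (X (w 0)) (V (w 0))) := by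
  refine DfF.Sep (P := fun U w => cOpen (X (w 0)) (V (w 0)) U) ?_ ?_
  · unfold cY
    apply_rules [DfF.Pow, DfF.Prod, DfF.comp1 hX, DfF.var, DfF.const]
  · exact cOpen_df hX hV

theorem cY_df {X : M → M} (hX : DfF (fun w : Fin 1 → M => X (w 0))) :
    DfF (fun w : Fin 1 → M => cY (X (w 0))) := by
  unfold cY
  apply_rules [DfF.Pow, DfF.Prod, DfF.comp1 hX, DfF.var, DfF.const]

theorem mem_cT {X : M} {V : M → M → M → Prop}
    (hV : Df (fun w : Fin 3 → M => V (w 0) (w 1) (w 2))) {U : M} :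
    U ∈ cT X V ↔ Sub U (cY X) ∧ cOpen X V U := by
  have := (cOpen_df (X := fun _ => X) (V := fun _ => V) (DfF.const _)
    (Df.comp3 hV (DfF.var _) (DfF.var _) (DfF.var _))).fix (P := fun U _ => cOpen X V U)
    (fun _ => emp)
  unfold cT
  rw [mem_sep this, mem_pow]

/-- two sequences of relations which induce the same topology -/
theorem QF.compare {X T : M} {V D : M → M → M → Prop} (hV : QF X T V) (hD : QF X T D) {x m : M}
    (hx : x ∈ X) (hm : m ∈ (om : M)) : ∃ k : M, k ∈ (om : M) ∧ ∀ y : M, y ∈ X → V k x y →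
      D m x y := by
  obtain ⟨O, hO, hxO, h⟩ := hD.interior hm hx
  obtain ⟨k, hk, h2⟩ := ((hV.top O).1 hO).2 x hxO
  exact ⟨k, hk, fun y hy hxy => h y (h2 y hy hxy)⟩

section claimA

variable {X T : M} {V D : M → M → M → Prop}

/-- the sets `T_m` -/
def Tm (X : M) (V D : M → M → M → Prop) (m x n : M) : Prop :=
  ∃ l : M, l ∈ m ∧ (∀ y : M, y ∈ X → D l x y → V n x y) ∧ ∀ y : M, y ∈ X → V m x y → D (suc l) x y

theorem Tm.mono (hV : QF X T V) {m m' x n : M} (hm' : m' ∈ (om : M)) (hx : x ∈ X)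
    (hmm : Le m m') (h : Tm X V D m x n) : Tm X V D m' x n := by
  obtain ⟨l, hl, h1, h2⟩ := h
  refine ⟨l, ?_, h1, fun y hy hy2 => h2 y hy (hV.mono hm' hx hy hmm hy2)⟩
  rcases hmm with h | rfl
  · exact lt_trans' hm' h hl
  · exact hl

theorem Tm.ex (hV : QF X T V) (hD : QF X T D) {x n : M} (hx : x ∈ X) (hn : n ∈ (om : M)) :
    ∃ m : M, m ∈ (om : M) ∧ Tm X V D m x n := by
  obtain ⟨l, hl, h1⟩ := hD.compare hV hx hn
  obtain ⟨k, hk, h2⟩ := hV.compare hD hx (suc_mem_om hl)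
  obtain ⟨m, hm, hlm, hkm⟩ := exists_max (suc_mem_om hl) hk
  exact ⟨m, hm, l, lt_of_suc_le hm hlm, h1, fun y hy hy2 => h2 y hy (hV.mono hm hx hy hkm hy2)⟩

/-- the relations on the coding space, without the one with the number 0 -/
def W' (X : M) (V D : M → M → M → Prop) (m a b : M) : Prop :=
  a = b ∨
  (∃ x n : M, a = pt x n emp ∧ x ∈ X ∧ n ∈ (om : M) ∧ (¬ Tm X V D m x n ∨
    ∃ y k : M, y ∈ X ∧ k ∈ (om : M) ∧ Le m k ∧ (b = pt y k (suc emp) ∨
      ∃ i : M, i ∈ (om : M) ∧ HH X V x n y k i ∧ b = pt y k (suc (suc i))))) ∨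
  (∃ y k i : M, y ∈ X ∧ k ∈ (om : M) ∧ i ∈ (om : M) ∧ a = pt y k (suc emp) ∧
    b = pt y k (suc (suc i)) ∧ Le m i ∧ ∀ z : M, z ∈ X → V i y z → D m y z)

theorem W'_df (X : M) (hV : Df (fun w : Fin 3 → M => V (w 0) (w 1) (w 2)))
    (hD : Df (fun w : Fin 3 → M => D (w 0) (w 1) (w 2))) :
    Df (fun w : Fin 3 → M => W' X V D (w 0) (w 1) (w 2)) := by
  unfold W' HH Tm
  apply_rules (transparency := .reducible) (maxDepth := 1000) [Df.not, Df.all, Df.imp, Df.ex,
    Df.and, Df.or, Df.mem, Df.eq, Df.le, Df.comp3 hV, Df.comp3 hD, DfF.Pt, DfF.Suc, DfF.var,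
    DfF.const]

theorem emp_ne_suc (x : M) : (emp : M) ≠ suc x := fun h => suc_ne_emp x h.symm

theorem W'_I {m y k i b : M} (h : W' X V D m (pt y k (suc (suc i))) b) :
    pt y k (suc (suc i)) = b := by
  rcases h with h | ⟨x, n, h, -⟩ | ⟨y', k', i', -, -, -, h, -⟩
  · exact h
  · exact absurd (pt_inj.1 h).2.2 (suc_ne_emp _)
  · have e := (pt_inj.1 h).2.2
    -- suc (suc i) = suc emp
    have h1 : suc i ∈ suc (emp : M) := e ▸ lt_suc _
    rcases mem_suc.1 h1 with h2 | h2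
    · exact (not_mem_emp _ h2).elim
    · exact absurd h2 (suc_ne_emp _)

theorem suc_suc_ne {i : M} : suc (suc i) ≠ suc (emp : M) := by
  intro e
  have h1 : suc i ∈ suc (emp : M) := e ▸ lt_suc _
  rcases mem_suc.1 h1 with h2 | h2
  · exact (not_mem_emp _ h2).elim
  · exact absurd h2 (suc_ne_emp _)

theorem W'_trans (hV : QF X T V) (hD : QF X T D)
    (hs : ∀ n x y : M, n ∈ (om : M) → x ∈ X → y ∈ X → D n x y → D n y x) {m a b c : M}
    (hm : m ∈ (om : M)) (h1 : W' X V D m a b) (h2 : W' X V D m b c) : W' X V D m a c := by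
  rcases h1 with rfl | ⟨x, n, rfl, hx, hn, h | ⟨y, k, hy, hk, hmk, rfl | ⟨i, hi, hH, rfl⟩⟩⟩ |
    ⟨y, k, i, hy, hk, hi, rfl, rfl, hmi, h⟩
  · exact h2
  · exact Or.inr (Or.inl ⟨x, n, rfl, hx, hn, Or.inl h⟩)
  · by_cases hT : Tm X V D m x n
    · rcases h2 with rfl | ⟨x', n', h, -⟩ | ⟨y', k', i, hy', hk', hi, h, rfl, hmi, h'⟩
      · exact Or.inr (Or.inl ⟨x, n, rfl, hx, hn, Or.inr ⟨y, k, hy, hk, hmk, Or.inl rfl⟩⟩)
      · exact absurd (pt_inj.1 h).2.2 (suc_ne_emp _)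
      · obtain ⟨rfl, rfl, -⟩ := pt_inj.1 h
        refine Or.inr (Or.inl ⟨x, n, rfl, hx, hn, Or.inr ⟨y, k, hy, hk, hmk,
          Or.inr ⟨i, hi, ?_, rfl⟩⟩⟩)
        by_cases hxy : V n x y
        · exact Or.inl hxy
        · refine Or.inr (Or.inr ?_)
          rintro ⟨z, hz, h3, h4⟩
          obtain ⟨l, hl, h5, h6⟩ := hT
          have hlo : l ∈ (om : M) := om_mem hm hl
          have h7 : D (suc l) x z := h6 z hz (hV.mono hk hx hz hmk h4)
          have h8 : D m y z := h' z hz h3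
          have h9 : D (suc l) y z := hD.mono hm hy hz (suc_le hm hl) h8
          have h10 : D (suc l) z y := hs _ _ _ (suc_mem_om hlo) hy hz h9
          exact hxy (h5 y hy (hD.comp l x z y hlo hx hz hy h7 h10))
    · exact Or.inr (Or.inl ⟨x, n, rfl, hx, hn, Or.inl hT⟩)
  · have := W'_I h2
    subst this
    exact Or.inr (Or.inl ⟨x, n, rfl, hx, hn, Or.inr ⟨y, k, hy, hk, hmk, Or.inr ⟨i, hi, hH, rfl⟩⟩⟩)
  · have := W'_I h2
    subst this
    exact Or.inr (Or.inr ⟨y, k, i, hy, hk, hi, rfl, rfl, hmi, h⟩)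

theorem W'_anti (hV : QF X T V) (hD : QF X T D) {m a b : M}
    (hm : m ∈ (om : M)) (h1 : W' X V D (suc m) a b) : W' X V D m a b := by
  rcases h1 with rfl | ⟨x, n, rfl, hx, hn, h | ⟨y, k, hy, hk, hmk, h⟩⟩ |
    ⟨y, k, i, hy, hk, hi, rfl, rfl, hmi, h⟩
  · exact Or.inl rfl
  · refine Or.inr (Or.inl ⟨x, n, rfl, hx, hn, Or.inl fun h' => h ?_⟩)
    exact h'.mono hV (suc_mem_om hm) hx (le_suc m)
  · exact Or.inr (Or.inl ⟨x, n, rfl, hx, hn, Or.inr ⟨y, k, hy, hk, (le_suc m).trans hk hmk, h⟩⟩)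
  · refine Or.inr (Or.inr ⟨y, k, i, hy, hk, hi, rfl, rfl, (le_suc m).trans hi hmi, ?_⟩)
    exact fun z hz h' => hD.mono (suc_mem_om hm) hy hz (le_suc m) (h z hz h')

theorem claimA (hV : QF X T V) (hD : QF X T D)
    (hs : ∀ n x y : M, n ∈ (om : M) → x ∈ X → y ∈ X → D n x y → D n y x) :
    QF (cY X) (cT X V) (fun m a b => m = emp ∨ W' X V D m a b) := by
  refine ⟨?_, ?_, ?_, ?_, ?_, ?_⟩
  · exact Df.or (Df.eq (DfF.var _) (DfF.const _)) (W'_df X hV.df hD.df)
  · intro a b _ _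
    exact Or.inl rfl
  · intro n a _ _
    exact Or.inr (Or.inl rfl)
  · intro m a b c hm _ _ _ h1 h2
    right
    rcases h1 with h1 | h1
    · exact absurd h1 (suc_ne_emp m)
    rcases h2 with h2 | h2
    · exact absurd h2 (suc_ne_emp m)
    exact W'_anti hV hD hm (W'_trans hV hD hs (suc_mem_om hm) h1 h2)
  · intro a b ha hb h
    obtain ⟨x, n, c, hx, hn, hc, rfl⟩ := mem_cY ha
    obtain ⟨x', n', c', hx', hn', hc', rfl⟩ := mem_cY hb
    have h' : ∀ m : M, m ∈ (om : M) → ¬ m = emp → W' X V D m (pt x n c) (pt x' n' c') := by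
      intro m hm hm0
      rcases h m hm with h1 | h1
      · exact absurd h1 hm0
      · exact h1
    rcases om_cases3 hc with rfl | rfl | ⟨i, hi, rfl⟩
    · obtain ⟨m, hm, hT⟩ := Tm.ex hV hD hx hn
      obtain ⟨k, hk, hmk, hnk⟩ := exists_max hm (suc_mem_om hn')
      have hT' := hT.mono hV hk hx hmk
      have hk0 : ¬ k = emp := by
        rintro rfl
        rcases hnk with h1 | h1
        · exact not_mem_emp _ h1
        · exact suc_ne_emp _ h1
      rcases h' k hk hk0 with h1 | ⟨x1, n1, h1, -, -, h2 | ⟨y, l, -, hl, hkl, h2⟩⟩ |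
        ⟨y, l, i, -, -, -, h1, -⟩
      · exact h1
      · obtain ⟨rfl, rfl, -⟩ := pt_inj.1 h1
        exact absurd hT' h2
      · exfalso
        have hl' : n' = l := by
          rcases h2 with h2 | ⟨i, -, -, h2⟩
          · exact (pt_inj.1 h2).2.1
          · exact (pt_inj.1 h2).2.1
        subst hl'
        have h3 : Le (suc n') n' := hnk.trans hl hkl
        exact not_lt_of_le hl h3 (lt_suc n')
      · exact absurd (pt_inj.1 h1).2.2 (emp_ne_suc _)
    · -- middle points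
      rcases h' (suc c') (suc_mem_om hc') (suc_ne_emp _) with h1 | ⟨x1, n1, h1, -⟩ |
        ⟨y, l, i, -, -, hi, h1, h2, h3, -⟩
      · exact h1
      · exact absurd (pt_inj.1 h1).2.2 (suc_ne_emp _)
      · exfalso
        have h4 := (pt_inj.1 h2).2.2
        have h5 : Le (suc (suc (suc i))) i := by rw [← h4]; exact h3
        have h6 : suc (suc i) ∈ i := lt_of_suc_le hi h5
        exact not_lt_of_le (suc_mem_om (suc_mem_om hi)) ((le_suc i).trans
          (suc_mem_om (suc_mem_om hi)) (le_suc _)) h6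
    · exact W'_I (h' (suc emp) (suc_mem_om emp_mem_om) (suc_ne_emp _))
  · intro U
    rw [mem_cT hV.df]
    refine and_congr_right fun hU => ?_
    constructor
    · rintro ⟨h1, h2⟩ a ha
      obtain ⟨x, n, c, hx, hn, hc, rfl⟩ := mem_cY (hU a ha)
      rcases om_cases3 hc with rfl | rfl | ⟨i, hi, rfl⟩
      · obtain ⟨m, hm, hT⟩ := Tm.ex hV hD hx hn
        obtain ⟨m', hm', h3⟩ := h2 x n hx hn ha
        obtain ⟨k, hk, hmk, hm'k⟩ := exists_max hm hm'
        refine ⟨suc k, suc_mem_om hk, fun b _ hb => ?_⟩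
        have hT' := hT.mono hV (suc_mem_om hk) hx (hmk.trans (suc_mem_om hk) (le_suc k))
        rcases hb with hb | rfl | ⟨x1, n1, hb, -, -, h4 | ⟨y, l, hy, hl, hkl, h4⟩⟩ |
          ⟨y, l, i, -, -, -, hb, -⟩
        · exact absurd hb (suc_ne_emp _)
        · exact ha
        · obtain ⟨rfl, rfl, -⟩ := pt_inj.1 hb
          exact absurd hT' h4
        · obtain ⟨rfl, rfl, -⟩ := pt_inj.1 hb
          have h5 := h3 y l hy hl (hm'k.trans hl ((le_suc k).trans hl hkl))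
          rcases h4 with rfl | ⟨i, hi, hH, rfl⟩
          · exact h5.1
          · exact h5.2 i hi hH
        · exact absurd (pt_inj.1 hb).2.2 (emp_ne_suc _)
      · obtain ⟨k, hk, h3⟩ := h1 x n hx hn ha
        refine ⟨suc k, suc_mem_om hk, fun b _ hb => ?_⟩
        rcases hb with hb | rfl | ⟨x1, n1, hb, -⟩ | ⟨y, l, i, -, -, hi, hb, rfl, hki, -⟩
        · exact absurd hb (suc_ne_emp _)
        · exact ha
        · exact absurd (pt_inj.1 hb).2.2 (suc_ne_emp _)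
        · obtain ⟨rfl, rfl, -⟩ := pt_inj.1 hb
          exact h3 i hi ((le_suc k).trans hi hki)
      · refine ⟨suc emp, suc_mem_om emp_mem_om, fun b _ hb => ?_⟩
        rcases hb with hb | hb
        · exact absurd hb (suc_ne_emp _)
        · rw [← W'_I hb]
          exact ha
    · intro h
      refine ⟨fun y k hy hk hyk => ?_, fun x n hx hn hxn => ?_⟩
      · obtain ⟨m, hm, h1⟩ := h _ hyk
        obtain ⟨l, hl, h2⟩ := hV.compare hD hy hm
        obtain ⟨l', hl', hll, hml⟩ := exists_max hl hm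
        refine ⟨l', hl', fun i hi hli => ?_⟩
        refine h1 _ (pt_mem.2 ⟨hy, hk, suc_mem_om (suc_mem_om hi)⟩) (Or.inr (Or.inr (Or.inr
          ⟨y, k, i, hy, hk, hi, rfl, rfl, hml.trans hi hli, fun z hz hz2 => h2 z hz ?_⟩)))
        exact hV.mono hi hy hz (hll.trans hi hli) hz2
      · obtain ⟨m, hm, h1⟩ := h _ hxn
        refine ⟨m, hm, fun y k hy hk hmk => ⟨?_, fun i hi hH => ?_⟩⟩
        · exact h1 _ (pt_mem.2 ⟨hy, hk, suc_mem_om emp_mem_om⟩) (Or.inr (Or.inr (Or.inl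
            ⟨x, n, rfl, hx, hn, Or.inr ⟨y, k, hy, hk, hmk, Or.inl rfl⟩⟩)))
        · exact h1 _ (pt_mem.2 ⟨hy, hk, suc_mem_om (suc_mem_om hi)⟩) (Or.inr (Or.inr (Or.inl
            ⟨x, n, rfl, hx, hn, Or.inr ⟨y, k, hy, hk, hmk, Or.inr ⟨i, hi, hH, rfl⟩⟩⟩)))

end claimA

end Pool.Agent.H.MP_07d118_lc
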