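import Pool.Agent.H.MP_07d118_lc.Base

/-!
Relations which are first-order definable with parameters, and their closure properties.
-/

set_option linter.unusedSectionVars false

namespace Pool.Agent.H.MP_07d118_lc

universe u

variable {M : Type u} [SetStr M]

/-- The assignment `v 0, ..., v (n-1), p 0, p 1, ...`. -/
def app : (n : ℕ) → (Fin n → M) → (ℕ → M) → ℕ → M
  | 0, _, p => p
  | n + 1, v, p => cons (v 0) (app n (fun i => v i.succ) p)

theorem app_lt : ∀ (n : ℕ) (v : Fin n → M) (p : ℕ → M) (i : ℕ) (h : i < n),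
    app n v p i = v ⟨i, h⟩
  | 0, _, _, _, h => absurd h (by omega)
  | n + 1, v, p, 0, _ => rfl
  | n + 1, v, p, i + 1, h => by
      show app n (fun i => v i.succ) p i = _
      rw [app_lt n _ p i (by omega)]
      rfl

theorem app_ge : ∀ (n : ℕ) (v : Fin n → M) (p : ℕ → M) (i : ℕ), app n v p (n + i) = p i
  | 0, _, _, i => by simp [app]
  | n + 1, v, p, i => by
      have : n + 1 + i = (n + i) + 1 := by omega
      rw [this]
      show app n (fun i => v i.succ) p (n + i) = _
      exact app_ge n _ p i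

/-- renaming under a quantifier -/
def up (ρ : ℕ → ℕ) : ℕ → ℕ
  | 0 => 0
  | n + 1 => ρ n + 1

/-- renaming of the free variables -/
def Fml.ren : (ℕ → ℕ) → Fml → Fml
  | ρ, .mem i j => .mem (ρ i) (ρ j)
  | ρ, .eq i j => .eq (ρ i) (ρ j)
  | _, .bot => .bot
  | ρ, .imp φ ψ => .imp (φ.ren ρ) (ψ.ren ρ)
  | ρ, .all φ => .all (φ.ren (up ρ))

theorem cons_up (x : M) (v : ℕ → M) (ρ : ℕ → ℕ) :
    (fun i => cons x v (up ρ i)) = cons x (fun i => v (ρ i)) := by
  funext i
  cases i <;> rfl

theorem sat_ren : ∀ (φ : Fml) (ρ : ℕ → ℕ) (v : ℕ → M),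
    Sat v (φ.ren ρ) ↔ Sat (fun i => v (ρ i)) φ
  | .mem i j, ρ, v => Iff.rfl
  | .eq i j, ρ, v => Iff.rfl
  | .bot, ρ, v => Iff.rfl
  | .imp φ ψ, ρ, v => by
      show (Sat v (φ.ren ρ) → Sat v (ψ.ren ρ)) ↔ (_ → _)
      rw [sat_ren φ, sat_ren ψ]
  | .all φ, ρ, v => by
      show (∀ x, Sat (cons x v) (φ.ren (up ρ))) ↔ (∀ x, Sat (cons x _) φ)
      refine forall_congr' fun x => ?_
      rw [sat_ren φ, cons_up]

/-- `P` is definable with parameters. -/
def Df {n : ℕ} (P : (Fin n → M) → Prop) : Prop :=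
  ∃ (φ : Fml) (p : ℕ → M), ∀ v, P v ↔ Sat (app n v p) φ

/-- `F` is definable with parameters. -/
structure DfF {n : ℕ} (F : (Fin n → M) → M) : Prop where
  out : Df (fun w : Fin (n + 1) → M => w 0 = F (fun i => w i.succ))

variable {n k : ℕ}

theorem Df.congr {P Q : (Fin n → M) → Prop} (h : Df P) (e : ∀ v, Q v ↔ P v) : Df Q := by
  obtain ⟨φ, p, hp⟩ := h
  exact ⟨φ, p, fun v => (e v).trans (hp v)⟩

theorem Df.reindex {P : (Fin k → M) → Prop} (h : Df P) (ρ : Fin k → Fin n) :
    Df (fun w : Fin n → M => P (fun i => w (ρ i))) := by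
  obtain ⟨φ, p, hp⟩ := h
  let σ : ℕ → ℕ := fun i => if h : i < k then (ρ ⟨i, h⟩ : ℕ) else n + (i - k)
  refine ⟨φ.ren σ, p, fun v => ?_⟩
  beta_reduce
  rw [hp, sat_ren]
  have : (fun i => app n v p (σ i)) = app k (fun i => v (ρ i)) p := by
    funext i
    by_cases h : i < k
    · simp only [σ, h, dif_pos]
      rw [app_lt n v p _ (ρ ⟨i, h⟩).2, app_lt k _ p i h]
    · simp only [σ, h, dif_neg, not_false_eq_true]
      rw [app_ge]
      conv_rhs => rw [show i = k + (i - k) by omega]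
      rw [app_ge]
  rw [this]

theorem Df.both {P Q : (Fin n → M) → Prop} (hP : Df P) (hQ : Df Q) :
    ∃ (φ ψ : Fml) (p : ℕ → M), (∀ v, P v ↔ Sat (app n v p) φ) ∧ ∀ v, Q v ↔ Sat (app n v p) ψ := by
  obtain ⟨φ, p, hp⟩ := hP
  obtain ⟨ψ, q, hq⟩ := hQ
  let r : ℕ → M := fun i => if i % 2 = 0 then p (i / 2) else q (i / 2)
  let σ : ℕ → ℕ := fun i => if i < n then i else n + 2 * (i - n)
  let τ : ℕ → ℕ := fun i => if i < n then i else n + (2 * (i - n) + 1)
  refine ⟨φ.ren σ, ψ.ren τ, r, fun v => ?_, fun v => ?_⟩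
  · rw [hp, sat_ren]
    have : (fun i => app n v r (σ i)) = app n v p := by
      funext i
      by_cases h : i < n
      · simp only [σ, h, if_true]
        rw [app_lt n v _ _ h, app_lt n v _ _ h]
      · simp only [σ, h, if_false]
        rw [app_ge]
        conv_rhs => rw [show i = n + (i - n) by omega]
        rw [app_ge]
        simp only [r]
        rw [if_pos (by omega), Nat.mul_div_cancel_left _ (by norm_num)]
    rw [this]
  · rw [hq, sat_ren]
    have : (fun i => app n v r (τ i)) = app n v q := by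
      funext i
      by_cases h : i < n
      · simp only [τ, h, if_true]
        rw [app_lt n v _ _ h, app_lt n v _ _ h]
      · simp only [τ, h, if_false]
        rw [app_ge]
        conv_rhs => rw [show i = n + (i - n) by omega]
        rw [app_ge]
        simp only [r]
        rw [if_neg (by omega)]
        congr 1
        omega
    rw [this]

theorem Df.imp {P Q : (Fin n → M) → Prop} (hP : Df P) (hQ : Df Q) : Df (fun v => P v → Q v) := by
  obtain ⟨φ, ψ, p, h1, h2⟩ := hP.both hQ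
  refine ⟨.imp φ ψ, p, fun v => ?_⟩
  show (P v → Q v) ↔ (_ → _)
  rw [h1, h2]

theorem Df.not {P : (Fin n → M) → Prop} (hP : Df P) : Df (fun v => ¬ P v) := by
  obtain ⟨φ, p, hp⟩ := hP
  refine ⟨.imp φ .bot, p, fun v => ?_⟩
  show ¬ P v ↔ (_ → False)
  rw [hp]

theorem Df.and {P Q : (Fin n → M) → Prop} (hP : Df P) (hQ : Df Q) : Df (fun v => P v ∧ Q v) :=
  (hP.imp hQ.not).not.congr fun v => by tauto

theorem Df.or {P Q : (Fin n → M) → Prop} (hP : Df P) (hQ : Df Q) : Df (fun v => P v ∨ Q v) :=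
  (hP.not.imp hQ).congr fun v => by tauto

theorem Df.iff {P Q : (Fin n → M) → Prop} (hP : Df P) (hQ : Df Q) : Df (fun v => P v ↔ Q v) :=
  ((hP.imp hQ).and (hQ.imp hP)).congr fun v => by tauto

theorem Df.all {P : M → (Fin n → M) → Prop}
    (h : Df (fun w : Fin (n + 1) → M => P (w 0) (fun i => w i.succ))) :
    Df (fun v => ∀ x, P x v) := by
  obtain ⟨φ, p, hp⟩ := h
  refine ⟨.all φ, p, fun v => ?_⟩
  show _ ↔ ∀ x, _
  refine forall_congr' fun x => ?_
  exact hp (Fin.cons x v)

theorem Df.ex {P : M → (Fin n → M) → Prop}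
    (h : Df (fun w : Fin (n + 1) → M => P (w 0) (fun i => w i.succ))) :
    Df (fun v => ∃ x, P x v) :=
  (Df.not (Df.all (P := fun x v => ¬ P x v) h.not)).congr fun v => by simp

/-- the relation `R` with the arguments given by definable functions -/
theorem Df.sub {P : M → (Fin n → M) → Prop}
    (h : Df (fun w : Fin (n + 1) → M => P (w 0) (fun i => w i.succ)))
    {F : (Fin n → M) → M} (hF : DfF F) : Df (fun v => P (F v) v) :=
  (Df.ex (P := fun x v => x = F v ∧ P x v) (Df.and hF.out h)).congr fun v => by simp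

section nonempty

variable [Nonempty M]

theorem DfF.var (i : Fin n) : DfF (fun v : Fin n → M => v i) := by
  refine ⟨⟨.eq 0 (i.1 + 1), fun _ => Classical.arbitrary M, fun v => ?_⟩⟩
  show _ ↔ app (n + 1) v _ 0 = app (n + 1) v _ (i.1 + 1)
  rw [app_lt _ _ _ _ (by omega), app_lt _ _ _ _ (by omega)]
  rfl

theorem Df.eq0 (i j : Fin n) : Df (fun v : Fin n → M => v i = v j) := by
  refine ⟨.eq i.1 j.1, fun _ => Classical.arbitrary M, fun v => ?_⟩
  show _ ↔ app n v _ i.1 = app n v _ j.1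
  rw [app_lt _ _ _ _ i.2, app_lt _ _ _ _ j.2]

theorem Df.mem0 (i j : Fin n) : Df (fun v : Fin n → M => v i ∈ v j) := by
  refine ⟨.mem i.1 j.1, fun _ => Classical.arbitrary M, fun v => ?_⟩
  show _ ↔ app n v _ i.1 ∈ app n v _ j.1
  rw [app_lt _ _ _ _ i.2, app_lt _ _ _ _ j.2]

theorem DfF.const (a : M) : DfF (fun _ : Fin n → M => a) := by
  refine ⟨⟨.eq 0 (n + 1), fun _ => a, fun v => ?_⟩⟩
  show _ ↔ app (n + 1) v _ 0 = app (n + 1) v _ (n + 1)
  have := app_ge (n + 1) v (fun _ => a) 0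
  simp only [add_zero] at this
  rw [app_lt _ _ _ _ (by omega), this]
  rfl

/-- `F v` evaluated in a larger context -/
theorem DfF.wk {F : (Fin n → M) → M} (hF : DfF F) (ρ : Fin n → Fin k) :
    DfF (fun w : Fin k → M => F (fun i => w (ρ i))) := by
  have := Df.reindex hF.out
    (fun i : Fin (n + 1) => Fin.cases (0 : Fin (k + 1)) (fun j => (ρ j).succ) i)
  exact ⟨this⟩

theorem Df.comp1 {P : M → Prop} (h : Df (fun w : Fin 1 → M => P (w 0)))
    {F : (Fin n → M) → M} (hF : DfF F) : Df (fun v => P (F v)) :=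
  Df.sub (P := fun x _ => P x) (h.reindex (fun _ => 0)) hF

theorem Df.comp2 {P : M → M → Prop} (h : Df (fun w : Fin 2 → M => P (w 0) (w 1)))
    {F G : (Fin n → M) → M} (hF : DfF F) (hG : DfF G) : Df (fun v => P (F v) (G v)) := by
  refine Df.sub (P := fun x v => P x (G v)) ?_ hF
  refine Df.sub (P := fun y w => P (w 0) y) ?_ (hG.wk Fin.succ)
  exact h.reindex ![1, 0]

theorem Df.comp3 {P : M → M → M → Prop} (h : Df (fun w : Fin 3 → M => P (w 0) (w 1) (w 2)))
    {F G H : (Fin n → M) → M} (hF : DfF F) (hG : DfF G) (hH : DfF H) :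
    Df (fun v => P (F v) (G v) (H v)) := by
  refine Df.sub (P := fun x v => P x (G v) (H v)) ?_ hF
  refine Df.sub (P := fun y w => P (w 0) y (H fun i => w i.succ)) ?_ (hG.wk Fin.succ)
  refine Df.sub (P := fun z w => P (w 1) (w 0) z) ?_ (hH.wk (fun i => i.succ.succ))
  exact h.reindex ![2, 1, 0]

theorem Df.comp4 {P : M → M → M → M → Prop}
    (h : Df (fun w : Fin 4 → M => P (w 0) (w 1) (w 2) (w 3)))
    {F G H K : (Fin n → M) → M} (hF : DfF F) (hG : DfF G) (hH : DfF H) (hK : DfF K) :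
    Df (fun v => P (F v) (G v) (H v) (K v)) := by
  refine Df.sub (P := fun x v => P x (G v) (H v) (K v)) ?_ hF
  refine Df.sub (P := fun y w => P (w 0) y (H fun i => w i.succ) (K fun i => w i.succ)) ?_
    (hG.wk Fin.succ)
  refine Df.sub (P := fun z w => P (w 1) (w 0) z (K fun i => w i.succ.succ)) ?_
    (hH.wk (fun i => i.succ.succ))
  refine Df.sub (P := fun z w => P (w 2) (w 1) (w 0) z) ?_
    (hK.wk (fun i => i.succ.succ.succ))
  exact h.reindex ![3, 2, 1, 0]

theorem Df.comp5 {P : M → M → M → M → M → Prop}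
    (h : Df (fun w : Fin 5 → M => P (w 0) (w 1) (w 2) (w 3) (w 4)))
    {F G H K L : (Fin n → M) → M} (hF : DfF F) (hG : DfF G) (hH : DfF H) (hK : DfF K)
    (hL : DfF L) :
    Df (fun v => P (F v) (G v) (H v) (K v) (L v)) := by
  refine Df.sub (P := fun x v => P x (G v) (H v) (K v) (L v)) ?_ hF
  refine Df.sub (P := fun y w => P (w 0) y (H fun i => w i.succ) (K fun i => w i.succ)
    (L fun i => w i.succ)) ?_ (hG.wk Fin.succ)
  refine Df.sub (P := fun z w => P (w 1) (w 0) z (K fun i => w i.succ.succ)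
    (L fun i => w i.succ.succ)) ?_ (hH.wk (fun i => i.succ.succ))
  refine Df.sub (P := fun z w => P (w 2) (w 1) (w 0) z (L fun i => w i.succ.succ.succ)) ?_
    (hK.wk (fun i => i.succ.succ.succ))
  refine Df.sub (P := fun z w => P (w 3) (w 2) (w 1) (w 0) z) ?_
    (hL.wk (fun i => i.succ.succ.succ.succ))
  exact h.reindex ![4, 3, 2, 1, 0]

theorem Df.mem {F G : (Fin n → M) → M} (hF : DfF F) (hG : DfF G) : Df (fun v => F v ∈ G v) :=
  Df.comp2 (P := fun x y => x ∈ y) (Df.mem0 0 1) hF hG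

theorem Df.eq {F G : (Fin n → M) → M} (hF : DfF F) (hG : DfF G) : Df (fun v => F v = G v) :=
  Df.comp2 (P := fun x y => x = y) (Df.eq0 0 1) hF hG

theorem Df.prop (p : Prop) : Df (fun _ : Fin n → M => p) := by
  by_cases h : p
  · exact (Df.eq (DfF.const (Classical.arbitrary M)) (DfF.const (Classical.arbitrary M))).congr
      (by simp [h])
  · exact (Df.eq (DfF.const (Classical.arbitrary M))
      (DfF.const (Classical.arbitrary M))).not.congr (by simp [h])

theorem DfF.comp1 {F : M → M} (h : DfF (fun w : Fin 1 → M => F (w 0)))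
    {G : (Fin n → M) → M} (hG : DfF G) : DfF (fun v => F (G v)) := by
  exact ⟨Df.comp2 (P := fun x y => x = F y) h.out (DfF.var 0) (hG.wk Fin.succ)⟩

theorem DfF.comp2 {F : M → M → M} (h : DfF (fun w : Fin 2 → M => F (w 0) (w 1)))
    {G H : (Fin n → M) → M} (hG : DfF G) (hH : DfF H) : DfF (fun v => F (G v) (H v)) := by
  exact ⟨Df.comp3 (P := fun x y z => x = F y z) h.out (DfF.var 0) (hG.wk Fin.succ)
    (hH.wk Fin.succ)⟩

theorem DfF.comp3 {F : M → M → M → M} (h : DfF (fun w : Fin 3 → M => F (w 0) (w 1) (w 2)))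
    {G H K : (Fin n → M) → M} (hG : DfF G) (hH : DfF H) (hK : DfF K) :
    DfF (fun v => F (G v) (H v) (K v)) := by
  exact ⟨Df.comp4 (P := fun x y z w => x = F y z w) h.out (DfF.var 0) (hG.wk Fin.succ)
    (hH.wk Fin.succ) (hK.wk Fin.succ)⟩

/-- The unique element with the property `P` (any element if there is none). -/
noncomputable def iota (P : M → Prop) : M := by
  classical
  exact if h : ∃! x, P x then h.choose else Classical.arbitrary M

theorem iota_spec {P : M → Prop} (h : ∃! x, P x) : P (iota P) := by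
  unfold iota
  rw [dif_pos h]
  exact h.choose_spec.1

theorem iota_eq {P : M → Prop} (h : ∃! x, P x) {a : M} (ha : P a) : iota P = a :=
  h.unique (iota_spec h) ha

theorem iota_neg {P : M → Prop} (h : ¬ ∃! x, P x) : iota P = Classical.arbitrary M := by
  unfold iota
  rw [dif_neg h]

theorem DfF.Iota {P : M → (Fin n → M) → Prop}
    (h : Df (fun w : Fin (n + 1) → M => P (w 0) (fun i => w i.succ))) :
    DfF (fun v => iota (fun x => P x v)) := by
  refine ⟨?_⟩
  have hu : Df (fun v : Fin n → M => ∃! x, P x v) := by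
    refine Df.ex (P := fun x v => P x v ∧ ∀ y, P y v → y = x) (Df.and h ?_)
    refine Df.all (P := fun y w => P y (fun i => w (Fin.succ i)) → y = w 0) (Df.imp ?_ ?_)
    · exact h.reindex (fun i => Fin.cases 0 (fun j => j.succ.succ) i)
    · exact Df.eq (DfF.var 0) (DfF.var 1)
  refine Df.congr (P := fun w : Fin (n + 1) → M =>
      ((∃! x, P x (fun i => w i.succ)) ∧ P (w 0) (fun i => w i.succ)) ∨
      ((¬ ∃! x, P x (fun i => w i.succ)) ∧ w 0 = Classical.arbitrary M))
      (Df.or (Df.and (hu.reindex _) h) (Df.and (hu.reindex _).not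
        (Df.eq (DfF.var 0) (DfF.const _)))) ?_
  intro w
  by_cases hx : ∃! x, P x (fun i => w i.succ)
  · constructor
    · intro h0
      left
      exact ⟨hx, by rw [h0]; exact iota_spec hx⟩
    · rintro (⟨-, h1⟩ | ⟨h1, -⟩)
      · exact (iota_eq hx h1).symm
      · exact absurd hx h1
  · beta_reduce
    rw [iota_neg hx]
    constructor
    · intro h0
      exact Or.inr ⟨hx, h0⟩
    · rintro (⟨h1, -⟩ | ⟨-, h1⟩)
      · exact absurd h1 hx
      · exact h1

/-- the last arguments of a definable relation may be fixed -/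
theorem Df.fix {P : M → (Fin n → M) → Prop}
    (h : Df (fun w : Fin (n + 1) → M => P (w 0) (fun i => w i.succ))) (v : Fin n → M) :
    Df (fun w : Fin 1 → M => P (w 0) v) := by
  obtain ⟨φ, p, hp⟩ := h
  exact ⟨φ, app n v p, fun w => hp (Fin.cons (w 0) v)⟩

end nonempty

end Pool.Agent.H.MP_07d118_lc
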