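import Pool.Agent.H.MP_07d118_lc.Coding

/-!
A metric of `X` from a quasi-metric of `X` and a quasi-metric of the coding space.
-/

set_option linter.unusedSectionVars false

namespace Pool.Agent.H.MP_07d118_lc

universe u

variable {M : Type u} [SetStr M] [ZF M]

section claimB

variable {X T : M} {V W D : M → M → M → Prop}

/-- the canonical sets `T'_m` -/
def Tp (X : M) (V W : M → M → M → Prop) (m x n : M) : Prop :=
  ∀ y k : M, y ∈ X → k ∈ (om : M) → Le m k → ∀ i : M, i ∈ (om : M) →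
    W m (pt y k (suc emp)) (pt y k (suc (suc i))) → HH X V x n y k i

/-- the canonical sets `T''_m` -/
def Ts (X : M) (V W : M → M → M → Prop) (m x n : M) : Prop :=
  Tp X V W m x n ∧ ∀ y : M, y ∈ X → ¬ V n x y →
    ∃ k : M, k ∈ (om : M) ∧ ¬ ∃ z : M, z ∈ X ∧ V k y z ∧ V m x z

/-- the neighbourhoods obtained from the quasi-metric of the coding space -/
def GG (V W : M → M → M → Prop) (m y z : M) : Prop :=
  ∃ i : M, i ∈ (om : M) ∧ W m (pt y m (suc emp)) (pt y m (suc (suc i))) ∧ V i y z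

/-- the decreasing sequence of neighbourhoods -/
def gg (V W : M → M → M → Prop) (m y z : M) : Prop :=
  V m y z ∧ ∀ l : M, l ∈ (om : M) → Le l m → GG V W l y z

/-- Frink's condition -/
def Good (X : M) (V W : M → M → M → Prop) (x n m : M) : Prop :=
  ∀ y : M, y ∈ X → (∃ z : M, z ∈ X ∧ gg V W m x z ∧ gg V W m y z) →
    ∀ z : M, z ∈ X → gg V W m y z → gg V W n x z

/-- the next index -/
noncomputable def nxt (X : M) (V W : M → M → M → Prop) (x n : M) : M :=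
  iota (fun m => (m ∈ (om : M) ∧ n ∈ m ∧ Good X V W x n m) ∧
    ∀ l : M, l ∈ m → ¬ (l ∈ (om : M) ∧ n ∈ l ∧ Good X V W x n l))

/-- the indices of Frink's neighbourhoods -/
noncomputable def ix (X : M) (V W : M → M → M → Prop) (x i : M) : M :=
  iter (fun n => nxt X V W x n) emp i

/-- the relations which induce a metric -/
def EE (X : M) (V W : M → M → M → Prop) (i x y : M) : Prop :=
  i = emp ∨ ∃ z : M, z ∈ X ∧ gg V W (ix X V W z i) z x ∧ gg V W (ix X V W z i) z y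

theorem EE_df {X : M → M} {V W : M → M → M → M → Prop}
    (hX : DfF (fun w : Fin 1 → M => X (w 0)))
    (hV : Df (fun w : Fin 4 → M => V (w 0) (w 1) (w 2) (w 3)))
    (hW : Df (fun w : Fin 4 → M => W (w 0) (w 1) (w 2) (w 3))) :
    Df (fun w : Fin 4 → M => EE (X (w 0)) (V (w 0)) (W (w 0)) (w 1) (w 2) (w 3)) := by
  have hg : Df (fun w : Fin 4 → M => gg (V (w 0)) (W (w 0)) (w 1) (w 2) (w 3)) := by
    unfold gg GG
    apply_rules (transparency := .reducible) (maxDepth := 1000) [Df.not, Df.all, Df.imp, Df.ex,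
      Df.and, Df.or, Df.mem, Df.eq, Df.le, Df.comp4 hV, Df.comp4 hW, DfF.Pt, DfF.Suc,
      DfF.comp1 hX, DfF.var, DfF.const]
  have hgood : Df (fun w : Fin 4 → M => Good (X (w 0)) (V (w 0)) (W (w 0)) (w 1) (w 2) (w 3)) := by
    unfold Good
    apply_rules (transparency := .reducible) (maxDepth := 1000) [Df.not, Df.all, Df.imp, Df.ex,
      Df.and, Df.or, Df.mem, Df.eq, Df.le,
      Df.comp4 (P := fun j => gg (V j) (W j)) hg, DfF.Pt, DfF.Suc,
      DfF.comp1 hX, DfF.var, DfF.const]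
  have hnxt : DfF (fun w : Fin 3 → M => nxt (X (w 0)) (V (w 0)) (W (w 0)) (w 1) (w 2)) := by
    refine DfF.Iota (P := fun m w => (m ∈ (om : M) ∧ w 2 ∈ m ∧
      Good (X (w 0)) (V (w 0)) (W (w 0)) (w 1) (w 2) m) ∧
      ∀ l : M, l ∈ m → ¬ (l ∈ (om : M) ∧ w 2 ∈ l ∧
        Good (X (w 0)) (V (w 0)) (W (w 0)) (w 1) (w 2) l)) ?_
    apply_rules (transparency := .reducible) (maxDepth := 1000) [Df.not, Df.all, Df.imp, Df.ex,
      Df.and, Df.or, Df.mem, Df.eq, Df.le,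
      Df.comp4 (P := fun j => Good (X j) (V j) (W j)) hgood, DfF.Pt, DfF.Suc,
      DfF.comp1 hX, DfF.var, DfF.const]
  have hix : DfF (fun w : Fin 3 → M => ix (X (w 0)) (V (w 0)) (W (w 0)) (w 1) (w 2)) := by
    refine DfF.Iter (G := fun n w => nxt (X (w 0)) (V (w 0)) (W (w 0)) (w 1) n) ?_
      (DfF.const _) (DfF.var _)
    exact DfF.comp3 (F := fun j => nxt (X j) (V j) (W j)) hnxt (DfF.var _) (DfF.var _) (DfF.var _)
  unfold EE
  apply_rules (transparency := .reducible) (maxDepth := 1000) [Df.not, Df.all, Df.imp, Df.ex,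
    Df.and, Df.or, Df.mem, Df.eq, Df.le,
    Df.comp4 (P := fun j => gg (V j) (W j)) hg,
    DfF.comp3 (F := fun j => ix (X j) (V j) (W j)) hix, DfF.Pt, DfF.Suc,
    DfF.comp1 hX, DfF.var, DfF.const]

/-- the definability of the notions for fixed `X`, `V`, `W` -/
theorem gg_df (hV : Df (fun w : Fin 3 → M => V (w 0) (w 1) (w 2)))
    (hW : Df (fun w : Fin 3 → M => W (w 0) (w 1) (w 2))) :
    Df (fun w : Fin 3 → M => gg V W (w 0) (w 1) (w 2)) := by
  unfold gg GG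
  apply_rules (transparency := .reducible) (maxDepth := 1000) [Df.not, Df.all, Df.imp, Df.ex,
      Df.and, Df.or, Df.mem, Df.eq, Df.le, Df.comp3 hV, Df.comp3 hW, DfF.Pt, DfF.Suc,
      DfF.var, DfF.const]

theorem Good_df (hV : Df (fun w : Fin 3 → M => V (w 0) (w 1) (w 2)))
    (hW : Df (fun w : Fin 3 → M => W (w 0) (w 1) (w 2))) :
    Df (fun w : Fin 3 → M => Good X V W (w 0) (w 1) (w 2)) := by
  unfold Good
  apply_rules (transparency := .reducible) (maxDepth := 1000) [Df.not, Df.all, Df.imp, Df.ex,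
      Df.and, Df.or, Df.mem, Df.eq, Df.le, Df.comp3 (gg_df hV hW), DfF.Pt, DfF.Suc,
      DfF.var, DfF.const]

theorem nxt_df (hV : Df (fun w : Fin 3 → M => V (w 0) (w 1) (w 2)))
    (hW : Df (fun w : Fin 3 → M => W (w 0) (w 1) (w 2))) (x : M) :
    DfF (fun w : Fin 1 → M => nxt X V W x (w 0)) := by
  refine DfF.Iota (P := fun m w => (m ∈ (om : M) ∧ w 0 ∈ m ∧ Good X V W x (w 0) m) ∧
      ∀ l : M, l ∈ m → ¬ (l ∈ (om : M) ∧ w 0 ∈ l ∧ Good X V W x (w 0) l)) ?_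
  apply_rules (transparency := .reducible) (maxDepth := 1000) [Df.not, Df.all, Df.imp, Df.ex,
      Df.and, Df.or, Df.mem, Df.eq, Df.le, Df.comp3 (Good_df hV hW), DfF.Pt, DfF.Suc,
      DfF.var, DfF.const]

theorem Tp.ex (hV : QF X T V) (hW : QF (cY X) (cT X V) W) {x n : M} (hx : x ∈ X) (hn : n ∈ (om : M)) :
    ∃ m : M, m ∈ (om : M) ∧ Tp X V W m x n := by
  have hdH : Df (fun w : Fin 3 → M => HH X V x n (w 0) (w 1) (w 2)) := by
    unfold HH
    apply_rules (transparency := .reducible) (maxDepth := 1000) [Df.not, Df.all, Df.imp, Df.ex,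
      Df.and, Df.or, Df.mem, Df.eq, Df.le, Df.comp3 hV.df, DfF.Pt, DfF.Suc,
      DfF.var, DfF.const]
  have hdU : Df (fun w : Fin 1 → M => w 0 = pt x n emp ∨ (∃ y k : M, w 0 = pt y k (suc emp)) ∨
      ∃ y k i : M, HH X V x n y k i ∧ w 0 = pt y k (suc (suc i))) := by
    apply_rules (transparency := .reducible) (maxDepth := 1000) [Df.not, Df.all, Df.imp, Df.ex,
      Df.and, Df.or, Df.mem, Df.eq, Df.le, Df.comp3 hdH, DfF.Pt, DfF.Suc,
      DfF.var, DfF.const]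
  let U : M := sep (cY X) (fun a => a = pt x n emp ∨ (∃ y k : M, a = pt y k (suc emp)) ∨
      ∃ y k i : M, HH X V x n y k i ∧ a = pt y k (suc (suc i)))
  have mU : ∀ a : M, a ∈ U ↔ a ∈ cY X ∧ (a = pt x n emp ∨ (∃ y k : M, a = pt y k (suc emp)) ∨
      ∃ y k i : M, HH X V x n y k i ∧ a = pt y k (suc (suc i))) := fun a => mem_sep hdU
  have hUT : U ∈ cT X V := by
    rw [mem_cT hV.df]
    refine ⟨fun a ha => ((mU a).1 ha).1, ?_, ?_⟩
    · intro y k hy hk _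
      by_cases h : ∃ l : M, l ∈ (om : M) ∧ ¬ ∃ z : M, z ∈ X ∧ V l y z ∧ V k x z
      · obtain ⟨l, hl, h1⟩ := h
        refine ⟨l, hl, fun i hi hli => (mU _).2 ⟨pt_mem.2 ⟨hy, hk, suc_mem_om (suc_mem_om hi)⟩,
          Or.inr (Or.inr ⟨y, k, i, Or.inr (Or.inr ?_), rfl⟩)⟩⟩
        rintro ⟨z, hz, h2, h3⟩
        exact h1 ⟨z, hz, hV.mono hi hy hz hli h2, h3⟩
      · push Not at h
        refine ⟨emp, emp_mem_om, fun i hi _ => (mU _).2 ⟨pt_mem.2
          ⟨hy, hk, suc_mem_om (suc_mem_om hi)⟩, Or.inr (Or.inr ⟨y, k, i, Or.inr (Or.inl ?_),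
            rfl⟩)⟩⟩
        intro l hl
        exact h l hl
    · intro x' n' hx' hn' h
      have h1 := ((mU _).1 h).2
      rcases h1 with h1 | ⟨y, k, h1⟩ | ⟨y, k, i, _, h1⟩
      · obtain ⟨rfl, rfl, -⟩ := pt_inj.1 h1
        refine ⟨emp, emp_mem_om, fun y k hy hk _ => ⟨(mU _).2 ⟨pt_mem.2
          ⟨hy, hk, suc_mem_om emp_mem_om⟩, Or.inr (Or.inl ⟨y, k, rfl⟩)⟩, fun i hi hH => (mU _).2
          ⟨pt_mem.2 ⟨hy, hk, suc_mem_om (suc_mem_om hi)⟩, Or.inr (Or.inr ⟨y, k, i, hH, rfl⟩)⟩⟩⟩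
      · exact absurd (pt_inj.1 h1).2.2 (emp_ne_suc _)
      · exact absurd (pt_inj.1 h1).2.2 (emp_ne_suc _)
  have hptY : pt x n emp ∈ cY X := pt_mem.2 ⟨hx, hn, emp_mem_om⟩
  obtain ⟨m1, hm1, h1⟩ := ((hW.top U).1 hUT).2 _ ((mU _).2 ⟨hptY, Or.inl rfl⟩)
  obtain ⟨O, hO, hxO, hO2⟩ := hW.interior (suc_mem_om hm1) hptY
  obtain ⟨m2, hm2, h2⟩ := ((mem_cT hV.df).1 hO).2.2 x n hx hn hxO
  obtain ⟨m, hm, hm1m, hm2m⟩ := exists_max (suc_mem_om hm1) hm2
  refine ⟨m, hm, fun y k hy hk hmk i hi hWi => ?_⟩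
  have hPY : pt y k (suc emp) ∈ cY X := pt_mem.2 ⟨hy, hk, suc_mem_om emp_mem_om⟩
  have hIY : pt y k (suc (suc i)) ∈ cY X := pt_mem.2 ⟨hy, hk, suc_mem_om (suc_mem_om hi)⟩
  have h3 : W (suc m1) (pt x n emp) (pt y k (suc emp)) :=
    hO2 _ (h2 y k hy hk (hm2m.trans hk hmk)).1
  have h4 : W (suc m1) (pt y k (suc emp)) (pt y k (suc (suc i))) :=
    hW.mono hm hPY hIY hm1m hWi
  have h5 := h1 _ hIY (hW.comp m1 _ _ _ hm1 hptY hPY hIY h3 h4)
  rcases ((mU _).1 h5).2 with h6 | ⟨y', k', h6⟩ | ⟨y', k', i', hH, h6⟩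
  · exact absurd (pt_inj.1 h6).2.2 (suc_ne_emp _)
  · exact absurd (pt_inj.1 h6).2.2 suc_suc_ne
  · obtain ⟨rfl, rfl, h7⟩ := pt_inj.1 h6
    have h8 : i = i' := suc_inj hi (suc_inj (suc_mem_om hi) h7)
    rw [h8]
    exact hH

theorem Tp.mono (hW : QF (cY X) (cT X V) W) {m m' x n : M} (hm' : m' ∈ (om : M))
    (hmm : Le m m') (h : Tp X V W m x n) : Tp X V W m' x n := by
  intro y k hy hk hmk i hi hWi
  refine h y k hy hk (hmm.trans hk hmk) i hi ?_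
  exact hW.mono hm' (pt_mem.2 ⟨hy, hk, suc_mem_om emp_mem_om⟩)
    (pt_mem.2 ⟨hy, hk, suc_mem_om (suc_mem_om hi)⟩) hmm hWi

theorem Ts.mono (hV : QF X T V) (hW : QF (cY X) (cT X V) W) {m m' x n : M} (hx : x ∈ X)
    (hm' : m' ∈ (om : M)) (hmm : Le m m') (h : Ts X V W m x n) : Ts X V W m' x n := by
  refine ⟨h.1.mono hW hm' hmm, fun y hy hxy => ?_⟩
  obtain ⟨k, hk, h1⟩ := h.2 y hy hxy
  refine ⟨k, hk, ?_⟩
  rintro ⟨z, hz, h2, h3⟩
  exact h1 ⟨z, hz, h2, hV.mono hm' hx hz hmm h3⟩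

theorem Ts.ex (hV : QF X T V) (hD : QF X T D)
    (hs : ∀ n x y : M, n ∈ (om : M) → x ∈ X → y ∈ X → D n x y → D n y x)
    (hW : QF (cY X) (cT X V) W) {x n : M} (hx : x ∈ X) (hn : n ∈ (om : M)) :
    ∃ m : M, m ∈ (om : M) ∧ Ts X V W m x n := by
  obtain ⟨m1, hm1, h1⟩ := Tp.ex hV hW hx hn
  obtain ⟨l, hl, h2⟩ := hD.compare hV hx hn
  obtain ⟨m2, hm2, h3⟩ := hV.compare hD hx (suc_mem_om hl)
  obtain ⟨m, hm, h4, h5⟩ := exists_max hm1 hm2
  refine ⟨m, hm, h1.mono hW hm h4, fun y hy hxy => ?_⟩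
  obtain ⟨k, hk, h6⟩ := hV.compare hD hy (suc_mem_om hl)
  refine ⟨k, hk, ?_⟩
  rintro ⟨z, hz, h7, h8⟩
  have h9 := h6 z hz h7
  have h10 := h3 z hz (hV.mono hm hx hz h5 h8)
  exact hxy (h2 y hy (hD.comp l x z y hl hx hz hy h10 (hs _ _ _ (suc_mem_om hl) hy hz h9)))

/-- the main point: the neighbourhoods are disjoint -/
theorem gg_disj (hV : QF X T V) (hW : QF (cY X) (cT X V) W) {m m' x n y : M} (hx : x ∈ X)
    (hy : y ∈ X) (hm' : m' ∈ (om : M)) (hmm : Le m m') (h : Ts X V W m x n)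
    (hxy : ¬ V n x y) : ¬ ∃ z : M, z ∈ X ∧ gg V W m' x z ∧ gg V W m' y z := by
  have h' := h.mono hV hW hx hm' hmm
  rintro ⟨z, hz, h1, h2⟩
  obtain ⟨i, hi, h3, h4⟩ := h2.2 m' hm' (Le.refl m')
  rcases h'.1 y m' hy hm' (Le.refl m') i hi h3 with h5 | h5 | h5
  · exact hxy h5
  · obtain ⟨k, hk, h6⟩ := h'.2 y hy hxy
    exact h6 (h5 k hk)
  · exact h5 ⟨z, hz, h4, h1.1⟩

theorem exists_K (hV : QF X T V) (hW : QF (cY X) (cT X V) W) {m y : M} (hy : y ∈ X)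
    (hm : m ∈ (om : M)) : ∃ i : M, i ∈ (om : M) ∧
      W m (pt y m (suc emp)) (pt y m (suc (suc i))) := by
  have hP : pt y m (suc emp) ∈ cY X := pt_mem.2 ⟨hy, hm, suc_mem_om emp_mem_om⟩
  obtain ⟨O, hO, hyO, hO2⟩ := hW.interior hm hP
  obtain ⟨i, hi, h1⟩ := ((mem_cT hV.df).1 hO).2.1 y m hy hm hyO
  exact ⟨i, hi, hO2 _ (h1 i hi (Le.refl i))⟩

theorem gg_nbhd (hV : QF X T V) (hW : QF (cY X) (cT X V) W) {y : M} (hy : y ∈ X) :
    ∀ m : M, m ∈ (om : M) → ∃ k : M, k ∈ (om : M) ∧ ∀ z : M, z ∈ X → V k y z →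
      gg V W m y z := by
  have key : ∀ m : M, m ∈ (om : M) → ∃ k : M, k ∈ (om : M) ∧ ∀ z : M, z ∈ X → V k y z →
      ∀ l : M, l ∈ (om : M) → Le l m → GG V W l y z := by
    refine nat_ind ?_ ?_ ?_
    · unfold GG
      apply_rules (transparency := .reducible) (maxDepth := 1000) [Df.not, Df.all, Df.imp, Df.ex,
        Df.and, Df.or, Df.mem, Df.eq, Df.le, Df.comp3 hV.df, Df.comp3 hW.df, DfF.Pt, DfF.Suc,
        DfF.var, DfF.const]
    · obtain ⟨i, hi, h1⟩ := exists_K hV hW hy emp_mem_om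
      refine ⟨i, hi, fun z _ hz l _ hle => ?_⟩
      rcases hle with h | rfl
      · exact (not_mem_emp _ h).elim
      · exact ⟨i, hi, h1, hz⟩
    · intro m hm ih
      obtain ⟨k, hk, h1⟩ := ih
      obtain ⟨i, hi, h2⟩ := exists_K hV hW hy (suc_mem_om hm)
      obtain ⟨k', hk', h3, h4⟩ := exists_max hk hi
      refine ⟨k', hk', fun z hz hyz l hl hle => ?_⟩
      rcases hle with h | rfl
      · exact h1 z hz (hV.mono hk' hy hz h3 hyz) l hl (lt_suc_iff.1 h)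
      · exact ⟨i, hi, h2, hV.mono hk' hy hz h4 hyz⟩
  intro m hm
  obtain ⟨k, hk, h1⟩ := key m hm
  obtain ⟨k', hk', h3, h4⟩ := exists_max hk hm
  exact ⟨k', hk', fun z hz hyz => ⟨hV.mono hk' hy hz h4 hyz, h1 z hz
    (hV.mono hk' hy hz h3 hyz)⟩⟩

theorem gg_refl (hV : QF X T V) (hW : QF (cY X) (cT X V) W) {m y : M} (hy : y ∈ X)
    (hm : m ∈ (om : M)) : gg V W m y y := by
  obtain ⟨k, hk, h1⟩ := gg_nbhd hV hW hy m hm
  exact h1 y hy (hV.refl k y hk hy)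

theorem gg_anti (hV : QF X T V) {m m' y z : M} (hy : y ∈ X) (hz : z ∈ X) (hm' : m' ∈ (om : M))
    (hmm : Le m m') (h : gg V W m' y z) : gg V W m y z :=
  ⟨hV.mono hm' hy hz hmm h.1, fun l hl hle => h.2 l hl (hle.trans hm' hmm)⟩

theorem exists_good (hV : QF X T V) (hD : QF X T D)
    (hs : ∀ n x y : M, n ∈ (om : M) → x ∈ X → y ∈ X → D n x y → D n y x)
    (hW : QF (cY X) (cT X V) W) {x n : M} (hx : x ∈ X) (hn : n ∈ (om : M)) :
    ∃ m0 : M, m0 ∈ (om : M) ∧ ∀ m : M, m ∈ (om : M) → Le m0 m → Good X V W x n m := by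
  obtain ⟨k, hk, h1⟩ := gg_nbhd hV hW hx n hn
  obtain ⟨m1, hm1, h2⟩ := Ts.ex hV hD hs hW hx (suc_mem_om hk)
  obtain ⟨m0, hm0, h3, h4⟩ := exists_max hm1 (suc_mem_om hk)
  refine ⟨m0, hm0, fun m hm hle y hy hyz z hz hgz => ?_⟩
  have h5 : V (suc k) x y := by
    by_contra hcon
    exact gg_disj hV hW hx hy hm (h3.trans hm hle) h2 hcon hyz
  have h6 : V (suc k) y z := hV.mono hm hy hz (h4.trans hm hle) hgz.1
  exact h1 z hz (hV.comp k x y z hk hx hy hz h5 h6)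

theorem nxt_spec (hV : QF X T V) (hD : QF X T D)
    (hs : ∀ n x y : M, n ∈ (om : M) → x ∈ X → y ∈ X → D n x y → D n y x)
    (hW : QF (cY X) (cT X V) W) {x n : M} (hx : x ∈ X) (hn : n ∈ (om : M)) :
    nxt X V W x n ∈ (om : M) ∧ n ∈ nxt X V W x n ∧ Good X V W x n (nxt X V W x n) := by
  obtain ⟨m0, hm0, h1⟩ := exists_good hV hD hs hW hx hn
  obtain ⟨m, hm, h2, h3⟩ := exists_max hm0 (suc_mem_om hn)
  have hd : Df (fun w : Fin 1 → M => w 0 ∈ (om : M) ∧ n ∈ w 0 ∧ Good X V W x n (w 0)) := by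
    apply_rules (transparency := .reducible) (maxDepth := 1000) [Df.not, Df.all, Df.imp, Df.ex,
      Df.and, Df.or, Df.mem, Df.eq, Df.le, Df.comp3 (Good_df hV.df hW.df), DfF.var, DfF.const]
  obtain ⟨p, hp, h4, h5⟩ := nat_least (P := fun m => m ∈ (om : M) ∧ n ∈ m ∧ Good X V W x n m) hd
    ⟨m, hm, hm, lt_of_suc_le hm h3, h1 m hm h2⟩
  have hu : ∃! m : M, (m ∈ (om : M) ∧ n ∈ m ∧ Good X V W x n m) ∧
      ∀ l : M, l ∈ m → ¬ (l ∈ (om : M) ∧ n ∈ l ∧ Good X V W x n l) := by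
    refine ⟨p, ⟨h4, h5⟩, ?_⟩
    rintro p' ⟨h6, h7⟩
    rcases trich0 p hp p' h6.1 with h | h | h
    · exact absurd h6 (h5 p' h)
    · exact h
    · exact absurd h4 (h7 p h)
  have := (iota_spec hu).1
  exact this

theorem ix_facts (hV : QF X T V) (hD : QF X T D)
    (hs : ∀ n x y : M, n ∈ (om : M) → x ∈ X → y ∈ X → D n x y → D n y x)
    (hW : QF (cY X) (cT X V) W) {x : M} (hx : x ∈ X) :
    (∀ i : M, i ∈ (om : M) → ix X V W x i ∈ (om : M)) ∧
    ∀ i : M, i ∈ (om : M) → ix X V W x (suc i) = nxt X V W x (ix X V W x i) := by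
  have hn := nxt_df (X := X) hV.df hW.df x
  have hm : ∀ n : M, n ∈ (om : M) → nxt X V W x n ∈ (om : M) := fun n hn' =>
    (nxt_spec hV hD hs hW hx hn').1
  exact ⟨iter_mem hn emp_mem_om hm, fun i hi => iter_suc hn emp_mem_om hm hi⟩

theorem ix_df (hV : Df (fun w : Fin 3 → M => V (w 0) (w 1) (w 2)))
    (hW : Df (fun w : Fin 3 → M => W (w 0) (w 1) (w 2))) (x : M) :
    DfF (fun w : Fin 1 → M => ix X V W x (w 0)) := by
  refine DfF.Iter (G := fun n _ => nxt X V W x n) ((nxt_df hV hW x).wk fun _ => 0)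
    (DfF.const _) (DfF.var _)

theorem le_ix (hV : QF X T V) (hD : QF X T D)
    (hs : ∀ n x y : M, n ∈ (om : M) → x ∈ X → y ∈ X → D n x y → D n y x)
    (hW : QF (cY X) (cT X V) W) {x : M} (hx : x ∈ X) :
    ∀ i : M, i ∈ (om : M) → Le i (ix X V W x i) := by
  obtain ⟨h1, h2⟩ := ix_facts hV hD hs hW hx
  have hixd := ix_df (X := X) hV.df hW.df x
  refine nat_ind ?_ ?_ ?_
  · exact Df.le (DfF.var _) hixd
  · exact zero_le' (h1 _ emp_mem_om)
  · intro i hi ih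
    have h3 := nxt_spec hV hD hs hW hx (h1 i hi)
    rw [h2 i hi]
    refine suc_le h3.1 ?_
    rcases ih with h4 | h4
    · exact lt_trans' h3.1 h3.2.1 h4
    · exact (congrArg (fun t => t ∈ nxt X V W x (ix X V W x i)) h4).mpr h3.2.1

/-- the stars of the points with respect to the covers form a neighbourhood base -/
theorem star_small (hV : QF X T V) (hD : QF X T D)
    (hs : ∀ n x y : M, n ∈ (om : M) → x ∈ X → y ∈ X → D n x y → D n y x)
    (hW : QF (cY X) (cT X V) W) {x k : M} (hx : x ∈ X) (hk : k ∈ (om : M)) :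
    ∃ i : M, i ∈ (om : M) ∧ ∀ y : M, y ∈ X → EE X V W i x y → V k x y := by
  obtain ⟨m0, hm0, h1⟩ := exists_good hV hD hs hW hx hk
  refine ⟨suc m0, suc_mem_om hm0, fun y hy h => ?_⟩
  rcases h with h | ⟨z, hz, h2, h3⟩
  · exact absurd h (suc_ne_emp _)
  · have h4 := (ix_facts hV hD hs hW hz).1 _ (suc_mem_om hm0)
    have h5 := le_ix hV hD hs hW hz _ (suc_mem_om hm0)
    have h6 := h1 _ h4 ((le_suc m0).trans h4 h5) z hz ⟨x, hx, gg_refl hV hW hx h4, h2⟩ y hy h3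
    exact h6.1

theorem claimB (hV : QF X T V) (hD : QF X T D)
    (hs : ∀ n x y : M, n ∈ (om : M) → x ∈ X → y ∈ X → D n x y → D n y x)
    (hW : QF (cY X) (cT X V) W) :
    QF X T (EE X V W) ∧
      ∀ n x y : M, n ∈ (om : M) → x ∈ X → y ∈ X → EE X V W n x y → EE X V W n y x := by
  have hrefl : ∀ i x : M, i ∈ (om : M) → x ∈ X → gg V W (ix X V W x i) x x := fun i x hi hx =>
    gg_refl hV hW hx ((ix_facts hV hD hs hW hx).1 i hi)
  refine ⟨⟨?_, ?_, ?_, ?_, ?_, ?_⟩, ?_⟩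
  · have h4 := EE_df (X := fun _ => X) (V := fun _ => V) (W := fun _ => W) (DfF.const _)
      (Df.comp3 hV.df (DfF.var _) (DfF.var _) (DfF.var _))
      (Df.comp3 hW.df (DfF.var _) (DfF.var _) (DfF.var _))
    exact Df.comp4 (P := fun _ i x y => EE X V W i x y) h4 (DfF.const emp) (DfF.var _) (DfF.var _)
      (DfF.var _)
  · intro x y _ _
    exact Or.inl rfl
  · intro i x hi hx
    exact Or.inr ⟨x, hx, hrefl i x hi hx, hrefl i x hi hx⟩
  · intro i x y w hi hx hy hw h1 h2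
    right
    rcases h1 with h1 | ⟨z, hz, h3, h4⟩
    · exact absurd h1 (suc_ne_emp _)
    rcases h2 with h2 | ⟨z', hz', h5, h6⟩
    · exact absurd h2 (suc_ne_emp _)
    obtain ⟨f1, f2⟩ := ix_facts hV hD hs hW hz
    obtain ⟨f1', f2'⟩ := ix_facts hV hD hs hW hz'
    have g := nxt_spec hV hD hs hW hz (f1 i hi)
    have g' := nxt_spec hV hD hs hW hz' (f1' i hi)
    rw [← f2 i hi] at g
    rw [← f2' i hi] at g'
    rcases le_total' g.1 g'.1 with hle | hle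
    · -- the index of `z` is smaller
      refine ⟨z, hz, ?_, ?_⟩
      · exact gg_anti hV hz hx g.1 (Or.inl g.2.1) h3
      · refine g.2.2 z' hz' ⟨y, hy, h4, gg_anti hV hz' hy g'.1 hle h5⟩ w hw ?_
        exact gg_anti hV hz' hw g'.1 hle h6
    · refine ⟨z', hz', ?_, ?_⟩
      · refine g'.2.2 z hz ⟨y, hy, h5, gg_anti hV hz hy g.1 hle h4⟩ x hx ?_
        exact gg_anti hV hz hx g.1 hle h3
      · exact gg_anti hV hz' hw g'.1 (Or.inl g'.2.1) h6
  · intro x y hx hy h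
    refine hV.sep x y hx hy fun k hk => ?_
    obtain ⟨i, hi, h1⟩ := star_small hV hD hs hW hx hk
    exact h1 y hy (h i hi)
  · intro U
    rw [hV.top]
    refine and_congr_right fun hU => ?_
    constructor
    · intro h x hx
      obtain ⟨k, hk, h1⟩ := h x hx
      obtain ⟨i, hi, h2⟩ := star_small hV hD hs hW (hU x hx) hk
      exact ⟨i, hi, fun y hy hxy => h1 y hy (h2 y hy hxy)⟩
    · intro h x hx
      obtain ⟨i, hi, h1⟩ := h x hx
      have hxX := hU x hx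
      obtain ⟨k, hk, h2⟩ := gg_nbhd hV hW hxX _ ((ix_facts hV hD hs hW hxX).1 i hi)
      exact ⟨k, hk, fun y hy hxy => h1 y hy (Or.inr ⟨x, hxX, hrefl i x hi hxX, h2 y hy hxy⟩)⟩
  · rintro i x y _ _ _ (h | ⟨z, hz, h1, h2⟩)
    · exact Or.inl h
    · exact Or.inr ⟨z, hz, h2, h1⟩

end claimB

end Pool.Agent.H.MP_07d118_lc
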