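import Pool.Agent.H.MP_07d118_lc.Frink

/-!
CPQM implies CPM in every model of ZF.
-/

set_option linter.unusedSectionVars false

namespace Pool.Agent.H.MP_07d118_lc

universe u

variable {M : Type u} [SetStr M] [ZF M]

/-- the interior of a ball -/
noncomputable def intr (X : M) (V : M → M → M → Prop) (n x : M) : M :=
  sep X (fun y => ∃ m : M, m ∈ (om : M) ∧ ∀ z : M, z ∈ X → V m y z → V n x z)

theorem QF.intr_spec {X T : M} {V : M → M → M → Prop} (h : QF X T V) {n x : M}
    (hn : n ∈ (om : M)) (hx : x ∈ X) : intr X V n x ∈ T ∧ x ∈ intr X V n x ∧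
      ∀ y : M, y ∈ intr X V n x → V n x y := by
  have hd : Df (fun w : Fin 1 → M => ∃ m : M, m ∈ (om : M) ∧ ∀ z : M, z ∈ X → V m (w 0) z →
      V n x z) := by
    apply_rules (transparency := .reducible) (maxDepth := 1000) [Df.not, Df.all, Df.imp, Df.ex,
      Df.and, Df.mem, Df.eq, Df.comp3 h.df, DfF.var, DfF.const]
  refine ⟨?_, ?_, ?_⟩
  · rw [h.top]
    refine ⟨fun y hy => ((mem_sep hd).1 hy).1, fun y hy => ?_⟩
    obtain ⟨hyX, m, hm, hy2⟩ := (mem_sep hd).1 hy
    refine ⟨suc m, suc_mem_om hm, fun z hz hyz => ?_⟩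
    refine (mem_sep hd).2 ?_
    refine ⟨hz, suc m, suc_mem_om hm, fun w hw hzw => ?_⟩
    exact hy2 w hw (h.comp m y z w hm hyX hz hw hyz hzw)
  · exact (mem_sep hd).2 ⟨hx, n, hn, fun z _ hz => hz⟩
  · intro y hy
    obtain ⟨hyX, m, hm, hy2⟩ := (mem_sep hd).1 hy
    exact hy2 y hyX (h.refl m y hm hyX)

theorem intr_df {X F : M → M} {V : M → M → M → M → Prop}
    (hX : DfF (fun w : Fin 1 → M => X (w 0))) (hF : DfF (fun w : Fin 1 → M => F (w 0)))
    (hV : Df (fun w : Fin 4 → M => V (w 0) (w 1) (w 2) (w 3))) (n : M) :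
    DfF (fun w : Fin 1 → M => intr (X (w 0)) (V (w 0)) n (F (w 0))) := by
  refine DfF.Sep (P := fun y w => ∃ m : M, m ∈ (om : M) ∧ ∀ z : M, z ∈ X (w 0) →
    V (w 0) m y z → V (w 0) n (F (w 0)) z) hX ?_
  apply_rules (transparency := .reducible) (maxDepth := 1000) [Df.not, Df.all, Df.imp, Df.ex,
      Df.and, Df.mem, Df.eq, Df.comp4 hV, DfF.comp1 hX, DfF.comp1 hF, DfF.var, DfF.const]

/-- the product of countably many metrizable spaces with chosen sequences of relations -/
theorem prod_metr (hM : HasReals M) {J : M} (hJ : IsCtbl J) {X S : M → M}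
    (hX : DfF (fun w : Fin 1 → M => X (w 0)))
    {E : M → M → M → M → Prop}
    (hE : Df (fun w : Fin 4 → M => E (w 0) (w 1) (w 2) (w 3)))
    (hq : ∀ j : M, j ∈ J → QF (X j) (S j) (E j))
    (hs : ∀ j : M, j ∈ J → ∀ n x y : M, n ∈ (om : M) → x ∈ X j → y ∈ X j → E j n x y → E j n y x)
    {Sf T : M} (hSf : ∀ j O : M, j ∈ J → (Rel Sf j O ↔ O = S j))
    (hT : IsProdTop J Sf (pr J X) T) : Metrizable (pr J X) T := by
  obtain ⟨w, f, hw, hf, hfw, hfi⟩ := hJ
  obtain rfl := isOmega_unique hw isOmega_om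
  have hfo : ∀ j : M, j ∈ J → ap f j ∈ (om : M) := fun j hj => hfw j _ (hf.rel_ap hj)
  have hinj : ∀ i j : M, i ∈ J → j ∈ J → ap f i = ap f j → i = j := fun i j hi hj h =>
    hfi i j (ap f i) (hf.rel_ap hi) (h ▸ hf.rel_ap hj)
  let F : M → M → M → Prop := fun n x y => ∀ j : M, j ∈ J → ap f j ∈ n → E j n (ap x j) (ap y j)
  have hFd : Df (fun w : Fin 3 → M => F (w 0) (w 1) (w 2)) := by
    apply_rules (transparency := .reducible) (maxDepth := 1000) [Df.not, Df.all, Df.imp, Df.ex,
      Df.and, Df.mem, Df.eq, Df.comp4 hE, DfF.Ap, DfF.var, DfF.const]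
  have hcd : Df (fun w : Fin 1 → M => ∀ x : M, x ∈ w 0 → ∃ n : M, n ∈ (om : M) ∧
      ∀ y : M, y ∈ pr J X → F n x y → y ∈ w 0) := by
    apply_rules (transparency := .reducible) (maxDepth := 1000) [Df.not, Df.all, Df.imp, Df.ex,
      Df.and, Df.mem, Df.eq, Df.comp4 hE, DfF.Ap, DfF.var, DfF.const]
  let T' : M := sep (pow (pr J X)) (fun U => ∀ x : M, x ∈ U → ∃ n : M, n ∈ (om : M) ∧
      ∀ y : M, y ∈ pr J X → F n x y → y ∈ U)
  have hval : ∀ z j : M, z ∈ pr J X → j ∈ J → ap z j ∈ X j := fun z j hz hj =>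
    ((mem_pr hX).1 hz).2 j hj
  have hQF : QF (pr J X) T' F := by
    refine ⟨hFd, ?_, ?_, ?_, ?_, ?_⟩
    · intro x y _ _ j _ h
      exact (not_mem_emp _ h).elim
    · intro n x hn hx j hj _
      exact (hq j hj).refl n _ hn (hval x j hx hj)
    · intro n x y z hn hx hy hz h1 h2 j hj hjn
      exact (hq j hj).comp n _ _ _ hn (hval x j hx hj) (hval y j hy hj) (hval z j hz hj)
        (h1 j hj (mem_suc.2 (Or.inl hjn))) (h2 j hj (mem_suc.2 (Or.inl hjn)))
    · intro x y hx hy h
      refine ((mem_pr hX).1 hx).1.ext ((mem_pr hX).1 hy).1 fun j hj => ?_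
      refine (hq j hj).sep _ _ (hval x j hx hj) (hval y j hy hj) fun n hn => ?_
      obtain ⟨m, hm, h1, h2⟩ := exists_max hn (suc_mem_om (hfo j hj))
      exact (hq j hj).mono hm (hval x j hx hj) (hval y j hy hj) h1
        (h m hm j hj (lt_of_suc_le hm h2))
    · intro U
      show U ∈ sep _ _ ↔ _
      rw [mem_sep hcd, mem_pow]
  have hcyl : HasCyls J Sf (pr J X) T' := by
    refine ⟨hQF.isTop, ?_⟩
    intro j U V O hj hO hU hV
    obtain rfl := (hSf j O hj).1 hO
    rw [hQF.top]
    have hV' : ∀ z : M, z ∈ pr J X → (z ∈ V ↔ ap z j ∈ U) := by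
      intro z hz
      have hzf := ((mem_pr hX).1 hz).1
      rw [hV]
      constructor
      · rintro ⟨-, x, h1, h2⟩
        rw [hzf.ap_eq hj h1]
        exact h2
      · intro h
        exact ⟨hz, _, hzf.rel_ap hj, h⟩
    refine ⟨fun z hz => ((hV z).1 hz).1, fun z hz => ?_⟩
    have hzQ := ((hV z).1 hz).1
    obtain ⟨n, hn, h1⟩ := (((hq j hj).top U).1 hU).2 _ ((hV' z hzQ).1 hz)
    obtain ⟨m, hm, h2, h3⟩ := exists_max hn (suc_mem_om (hfo j hj))
    refine ⟨m, hm, fun y hy hzy => (hV' y hy).2 (h1 _ (hval y j hy hj) ?_)⟩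
    exact (hq j hj).mono hm (hval z j hzQ hj) (hval y j hy hj) h2 (hzy j hj (lt_of_suc_le hm h3))
  have hTT : T = T' := by
    refine Sub.antisymm (fun U hU => hT.2 T' hcyl U hU) fun U hU => ?_
    have hU' := (hQF.top U).1 hU
    -- `U` is a union of members of `T`
    have hSd : Df (fun w : Fin 1 → M => Sub (w 0) U) := Df.subset (DfF.var _) (DfF.const _)
    refine hT.1.1.union (sep T (fun O => Sub O U)) U (fun O hO => ((mem_sep hSd).1 hO).1) ?_
    intro x
    constructor
    · intro hx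
      obtain ⟨n, hn, h1⟩ := hU'.2 x hx
      have hxQ := hU'.1 x hx
      have hOd : DfF (fun w : Fin 1 → M => intr (X (w 0)) (E (w 0)) n (ap x (w 0))) :=
        intr_df hX (F := fun j => ap x j) (DfF.Ap (DfF.const _) (DfF.var _)) hE n
      have hO := fun (j : M) (hj : j ∈ J) => (hq j hj).intr_spec hn (hval x j hxQ hj)
      have hyd : ∀ m : M, Df (fun w : Fin 1 → M => ∀ j : M, j ∈ J → ap f j ∈ m →
          ap (w 0) j ∈ intr (X j) (E j) n (ap x j)) := by
        intro m
        apply_rules (transparency := .reducible) (maxDepth := 1000) [Df.not, Df.all, Df.imp,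
          Df.ex, Df.and, Df.mem, Df.eq, DfF.comp1 (F := fun j => intr (X j) (E j) n (ap x j)) hOd,
          DfF.Ap, DfF.var, DfF.const]
      have hB : ∀ m : M, m ∈ (om : M) → sep (pr J X) (fun y => ∀ j : M, j ∈ J → ap f j ∈ m →
          ap y j ∈ intr (X j) (E j) n (ap x j)) ∈ T := by
        refine nat_ind ?_ ?_ ?_
        · refine Df.mem (DfF.Sep (P := fun y w => ∀ j : M, j ∈ J → ap f j ∈ w 0 →
            ap y j ∈ intr (X j) (E j) n (ap x j)) (DfF.const _) ?_) (DfF.const _)
          apply_rules (transparency := .reducible) (maxDepth := 1000) [Df.not, Df.all, Df.imp,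
            Df.ex, Df.and, Df.mem, Df.eq,
            DfF.comp1 (F := fun j => intr (X j) (E j) n (ap x j)) hOd,
            DfF.Ap, DfF.var, DfF.const]
        · have e : sep (pr J X) (fun y => ∀ j : M, j ∈ J → ap f j ∈ (emp : M) →
              ap y j ∈ intr (X j) (E j) n (ap x j)) = pr J X := by
            refine ext fun y => ?_
            rw [mem_sep (hyd _)]
            exact ⟨fun h => h.1, fun h => ⟨h, fun j _ h => (not_mem_emp _ h).elim⟩⟩
          rw [e]
          exact hT.1.1.univ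
        · intro m hm ih
          by_cases hex : ∃ j : M, j ∈ J ∧ ap f j = m
          · obtain ⟨j, hj, rfl⟩ := hex
            have hcy : Df (fun w : Fin 1 → M => ap (w 0) j ∈ intr (X j) (E j) n (ap x j)) :=
              Df.mem (DfF.Ap (DfF.var _) (DfF.const _)) (DfF.const _)
            have h2 : sep (pr J X) (fun y => ap y j ∈ intr (X j) (E j) n (ap x j)) ∈ T := by
              refine hT.1.2 j _ _ (S j) hj ((hSf j _ hj).2 rfl) (hO j hj).1 ?_
              intro z
              rw [mem_sep hcy]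
              refine and_congr_right fun hz => ?_
              have hzf := ((mem_pr hX).1 hz).1
              constructor
              · intro h
                exact ⟨_, hzf.rel_ap hj, h⟩
              · rintro ⟨x, h1, h2⟩
                rw [hzf.ap_eq hj h1]
                exact h2
            refine hT.1.1.inter _ _ _ ih h2 fun y => ?_
            rw [mem_sep (hyd _), mem_sep (hyd _), mem_sep hcy]
            constructor
            · rintro ⟨h3, h4⟩
              exact ⟨⟨h3, fun i hi hi2 => h4 i hi (mem_suc.2 (Or.inl hi2))⟩, h3,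
                h4 j hj (lt_suc _)⟩
            · rintro ⟨⟨h3, h4⟩, -, h5⟩
              refine ⟨h3, fun i hi hi2 => ?_⟩
              rcases mem_suc.1 hi2 with h6 | h6
              · exact h4 i hi h6
              · rw [hinj i j hi hj h6]
                exact h5
          · have e : sep (pr J X) (fun y => ∀ j : M, j ∈ J → ap f j ∈ suc m →
                ap y j ∈ intr (X j) (E j) n (ap x j)) =
                sep (pr J X) (fun y => ∀ j : M, j ∈ J → ap f j ∈ m →
                ap y j ∈ intr (X j) (E j) n (ap x j)) := by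
              refine ext fun y => ?_
              rw [mem_sep (hyd _), mem_sep (hyd _)]
              refine and_congr_right fun _ => ?_
              constructor
              · intro h i hi hi2
                exact h i hi (mem_suc.2 (Or.inl hi2))
              · intro h i hi hi2
                rcases mem_suc.1 hi2 with h6 | h6
                · exact h i hi h6
                · exact absurd ⟨i, hi, h6⟩ hex
            rw [e]
            exact ih
      refine ⟨_, (mem_sep hSd).2 ⟨hB n hn, fun y hy => ?_⟩, (mem_sep (hyd n)).2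
        ⟨hxQ, fun j hj _ => (hO j hj).2.1⟩⟩
      rw [mem_sep (hyd n)] at hy
      exact h1 y hy.1 fun j hj hjn => (hO j hj).2.2 _ (hy.2 j hj hjn)
    · rintro ⟨O, hO, hxO⟩
      exact ((mem_sep hSd).1 hO).2 x hxO
  rw [hTT]
  refine hQF.metrizable hM ?_
  intro n x y hn hx hy h j hj hjn
  exact hs j hj n _ _ hn (hval x j hx hj) (hval y j hy hj) (h j hj hjn)

theorem main (hC : CPQM M) : CPM M := by
  intro J Xf Sf Q T hJ hXf hSf hmet hQ hT
  have hX : DfF (fun w : Fin 1 → M => ap Xf (w 0)) := DfF.Ap (DfF.const _) (DfF.var _)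
  have hS : DfF (fun w : Fin 1 → M => ap Sf (w 0)) := DfF.Ap (DfF.const _) (DfF.var _)
  have hmet' : ∀ j : M, j ∈ J → Metrizable (ap Xf j) (ap Sf j) := fun j hj =>
    hmet j _ _ hj (hXf.rel_ap hj) (hSf.rel_ap hj)
  have hQM : QMetrizable Q T :=
    hC J Xf Sf Q T hJ hXf hSf (fun j Y O hj hY hO => (hmet j Y O hj hY hO).qmetrizable) hQ hT
  have hM := hQM.hasReals
  have hQe : Q = pr J (fun j => ap Xf j) := by
    refine ext fun z => ?_
    rw [hQ, mem_pr hX]
    refine and_congr_right fun hz => ?_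
    constructor
    · intro h j hj
      exact h j _ _ (hz.rel_ap hj) (hXf.rel_ap hj)
    · intro h j x Y h1 h2
      have hj := hz.dom h1
      rw [← hz.ap_eq hj h1, ← hXf.ap_eq hj h2]
      exact h j hj
  subst hQe
  by_cases hne : ∃ x0 : M, x0 ∈ pr J (fun j => ap Xf j)
  · obtain ⟨x0, hx0⟩ := hne
    obtain ⟨V, hVd, hV⟩ := step0 hC hJ hX hS (fun j hj => (hmet' j hj).qmetrizable) hx0
    have hx0' := (mem_pr hX).1 hx0
    have hptd : DfF (fun w : Fin 1 → M => pt (ap x0 (w 0)) emp emp) :=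
      DfF.Pt (DfF.Ap (DfF.const _) (DfF.var _)) (DfF.const _) (DfF.const _)
    obtain ⟨W, hWd, hW⟩ := step0 hC hJ (Z := fun j => cY (ap Xf j))
      (S := fun j => cT (ap Xf j) (V j)) (cY_df hX) (cT_df hX hVd) (by
        intro j hj
        obtain ⟨D, hD, hDs⟩ := (hmet' j hj).qf
        exact (claimA (hV j hj) hD hDs).qmetrizable hM)
      (x0 := lam J (fun j => pt (ap x0 j) emp emp)) (by
        rw [mem_pr (cY_df hX)]
        refine ⟨isFun_lam hptd, fun j hj => ?_⟩
        rw [ap_lam hptd hj]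
        exact pt_mem.2 ⟨hx0'.2 j hj, emp_mem_om, emp_mem_om⟩)
    refine prod_metr hM hJ hX (E := fun j => EE (ap Xf j) (V j) (W j)) (EE_df hX hVd hWd)
      (S := fun j => ap Sf j) ?_ ?_ ?_ hT
    · intro j hj
      obtain ⟨D, hD, hDs⟩ := (hmet' j hj).qf
      exact (claimB (hV j hj) hD hDs (hW j hj)).1
    · intro j hj
      obtain ⟨D, hD, hDs⟩ := (hmet' j hj).qf
      exact (claimB (hV j hj) hD hDs (hW j hj)).2
    · intro j O hj
      rw [hSf.rel_iff]
      exact ⟨fun h => h.2, fun h => ⟨hj, h⟩⟩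
  · have hQF : QF (pr J (fun j => ap Xf j)) T (fun _ _ _ => True) := by
      refine ⟨Df.prop _, fun _ _ _ _ => trivial, fun _ _ _ _ => trivial,
        fun _ _ _ _ _ _ _ _ _ _ => trivial, fun x y hx _ _ => (hne ⟨x, hx⟩).elim, ?_⟩
      intro U
      constructor
      · intro hU
        refine ⟨hT.1.1.sub U hU, fun x hx => (hne ⟨x, hT.1.1.sub U hU x hx⟩).elim⟩
      · rintro ⟨h1, -⟩
        have e : U = emp := ext fun x => ⟨fun hx => (hne ⟨x, h1 x hx⟩).elim,
          fun hx => (not_mem_emp _ hx).elim⟩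
        rw [e]
        exact hT.1.1.emp
    exact hQF.metrizable hM fun _ _ _ _ _ _ _ => trivial

end Pool.Agent.H.MP_07d118_lc
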