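import Pool.Agent.H.MP_07d118_lc.Chain

/-!
From a sequence of relations to a quasi-metric.
-/

set_option linter.unusedSectionVars false

namespace Pool.Agent.H.MP_07d118_lc

universe u

variable {M : Type u} [SetStr M] [ZF M]

section

variable {X R A P L T : M} [Field (El R)] [LinearOrder (El R)] [IsStrictOrderedRing (El R)]
variable {V : M → M → M → Prop}

/-- `r` is the greatest lower bound of the lengths of the chains from `x` to `y` -/
def Glb (X R A P L : M) [Field (El R)] (V : M → M → M → Prop) (q : El R) (x y r : M) : Prop :=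
  (∀ n s : M, n ∈ (om : M) → Ch X R A P V q n x y s → Rel L r s) ∧
    ∀ c : M, c ∈ R → (∀ n s : M, n ∈ (om : M) → Ch X R A P V q n x y s → Rel L c s) → Rel L c r

theorem exists_glb (hR : IsReals R A P L) (h : QF X T V) {q : El R} (hq : 0 < q) (x y : El X) :
    ∃ r : El R, Glb X R A P L V q x.1 y.1 r.1 := by
  have hd : Df (fun w : Fin 1 → M => ∃ n : M, n ∈ (om : M) ∧ Ch X R A P V q n x.1 y.1 (w 0)) := by
    apply_rules (transparency := .reducible) (maxDepth := 1000) [Df.not, Df.all, Df.imp, Df.ex,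
      Df.and, Df.mem, Df.eq, Df.rel, Df.ltM, Df.le, Df.comp3 h.df, Df.comp4 (Ch_df h.df), DfF.Op,
      DfF.PwM, DfF.Suc, DfF.var, DfF.const]
  obtain ⟨b, hb1, hb2⟩ := hR.exists_inf
    (sep R (fun r => ∃ n : M, n ∈ (om : M) ∧ Ch X R A P V q n x.1 y.1 r))
    (fun r hr => ((mem_sep hd).1 hr).1)
    ⟨(pw hR q zN).1, (mem_sep hd).2 ⟨Subtype.property _, suc emp, suc_mem_om emp_mem_om,
      ch_one hR h.df (h.zero _ _ x.2 y.2)⟩⟩
    ⟨0, by
      intro r hr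
      obtain ⟨-, n, hn, hc⟩ := (mem_sep hd).1 hr
      exact (hR.le 0 r).1 (ch_nonneg hR h.df hq n hn _ _ _ hc).1⟩
  refine ⟨b, ?_, ?_⟩
  · intro n s hn hc
    have hs := (Ch.mem h.df hn hc).2.2
    exact (hR.le b ⟨s, hs⟩).2 (hb1 ⟨s, hs⟩ ((mem_sep hd).2 ⟨hs, n, hn, hc⟩))
  · intro c hc hc2
    refine (hR.le ⟨c, hc⟩ b).2 (hb2 ⟨c, hc⟩ ?_)
    intro s hs
    obtain ⟨-, n, hn, hc⟩ := (mem_sep hd).1 hs
    exact (hR.le ⟨c, _⟩ s).1 (hc2 n s.1 hn hc)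

theorem glb_unique (hR : IsReals R A P L) {q : El R} {x y : M} {r s : El R}
    (hr : Glb X R A P L V q x y r.1) (hs : Glb X R A P L V q x y s.1) : r = s := by
  apply le_antisymm
  · exact (hR.le _ _).1 (hs.2 _ r.2 hr.1)
  · exact (hR.le _ _).1 (hr.2 _ s.2 hs.1)

theorem R2 (hR : IsReals R A P L) (h : QF X T V) : ∃ (d : M) (ρ : El X → El X → El R),
    IsQMet R X d ρ ∧ IsTopOf R X T ρ ∧
    ((∀ n x y : M, n ∈ (om : M) → x ∈ X → y ∈ X → V n x y → V n y x) →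
      ∀ x y : El X, ρ x y = ρ y x) := by
  obtain ⟨q, hq⟩ : ∃ q : El R, q = 3 / 4 := ⟨_, rfl⟩
  have hq0 : 0 < q := by rw [hq]; positivity
  have hq1 : q < 1 := by
    rw [hq]
    norm_num
  choose ρ hρ using fun x y : El X => exists_glb hR h hq0 x y
  have hd : Df (fun w : Fin 1 → M => ∃ x y r : M, w 0 = opair (opair x y) r ∧
      Glb X R A P L V q x y r) := by
    unfold Glb
    apply_rules (transparency := .reducible) (maxDepth := 1000) [Df.not, Df.all, Df.imp, Df.ex,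
      Df.and, Df.mem, Df.eq, Df.rel, Df.ltM, Df.le, Df.comp3 h.df, Df.comp4 (Ch_df h.df), DfF.Op,
      DfF.PwM, DfF.Suc, DfF.Opair, DfF.var, DfF.const]
  let d : M := sep (prod (prod X X) R) (fun p => ∃ x y r : M, p = opair (opair x y) r ∧
      Glb X R A P L V q x y r)
  have md : ∀ x y r : M, opair (opair x y) r ∈ d ↔ (x ∈ X ∧ y ∈ X ∧ r ∈ R) ∧
      Glb X R A P L V q x y r := by
    intro x y r
    show _ ∈ sep _ _ ↔ _
    rw [mem_sep hd, opair_mem_prod, opair_mem_prod]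
    constructor
    · rintro ⟨⟨⟨h1, h2⟩, h3⟩, x', y', r', e, hg⟩
      obtain ⟨e1, rfl⟩ := opair_inj.1 e
      obtain ⟨rfl, rfl⟩ := opair_inj.1 e1
      exact ⟨⟨h1, h2, h3⟩, hg⟩
    · rintro ⟨⟨h1, h2, h3⟩, hg⟩
      exact ⟨⟨⟨h1, h2⟩, h3⟩, x, y, r, rfl, hg⟩
  -- values
  have hle : ∀ (x y : El X) (r : El R) (n : M), n ∈ (om : M) → Ch X R A P V q n x.1 y.1 r.1 →
      ρ x y ≤ r := fun x y r n hn hc => (hR.le _ _).1 ((hρ x y).1 n _ hn hc)
  have hge : ∀ (x y : El X) (c : El R), (∀ (n : M) (s : El R), n ∈ (om : M) →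
      Ch X R A P V q n x.1 y.1 s.1 → c ≤ s) → c ≤ ρ x y := by
    intro x y c hc
    refine (hR.le _ _).1 ((hρ x y).2 c.1 c.2 ?_)
    intro n s hn hs
    exact (hR.le c ⟨s, _⟩).2 (hc n ⟨s, (Ch.mem h.df hn hs).2.2⟩ hn hs)
  have hlt : ∀ (x y : El X) (c : El R), ρ x y < c → ∃ (n : M) (s : El R), n ∈ (om : M) ∧
      Ch X R A P V q n x.1 y.1 s.1 ∧ s < c := by
    intro x y c hc
    by_contra hcon
    push Not at hcon
    exact absurd (hge x y c hcon) (not_le.2 hc)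
  have hbase : ∀ (x y : El X) (k : El (om : M)), ρ x y < pw hR q (sN k) → V k.1 x.1 y.1 := by
    intro x y k hk
    obtain ⟨n, s, hn, hc, hs⟩ := hlt x y _ hk
    exact ch_main hR h hq n hn n (Le.refl n) _ _ _ _ k.2 hc ((hR.lt_iff s (pw hR q (sN k))).2 hs)
  have hone : ∀ (x y : El X) (k : El (om : M)), V k.1 x.1 y.1 → ρ x y ≤ pw hR q k := fun x y k hk =>
    hle x y _ _ (suc_mem_om emp_mem_om) (ch_one hR h.df hk)
  have hnonneg : ∀ x y : El X, 0 ≤ ρ x y := by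
    intro x y
    apply hge
    intro n s hn hc
    exact (hR.le 0 s).1 (ch_nonneg hR h.df hq0 n hn _ _ _ hc).1
  refine ⟨d, ρ, ⟨⟨?_, ?_⟩, ?_, hnonneg, ?_, ?_, ?_⟩, ?_, ?_⟩
  · intro p hp
    obtain ⟨h1, x, y, r, rfl, hg⟩ := (mem_sep hd).1 hp
    rw [opair_mem_prod, opair_mem_prod] at h1
    exact ⟨x, y, r, opair x y, h1.1.1, h1.1.2, h1.2, isOPair_iff.2 rfl, isOPair_iff.2 rfl⟩
  · intro x y hx hy
    refine ⟨(ρ ⟨x, hx⟩ ⟨y, hy⟩).1, rel3_iff.2 ((md _ _ _).2 ⟨⟨hx, hy, Subtype.property _⟩,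
      hρ ⟨x, hx⟩ ⟨y, hy⟩⟩), ?_⟩
    intro r hr
    obtain ⟨⟨_, _, hr'⟩, hg⟩ := (md _ _ _).1 (rel3_iff.1 hr)
    exact congrArg Subtype.val (glb_unique hR (r := ⟨r, hr'⟩) hg (hρ ⟨x, hx⟩ ⟨y, hy⟩))
  · intro x y
    exact rel3_iff.2 ((md _ _ _).2 ⟨⟨x.2, y.2, Subtype.property _⟩, hρ x y⟩)
  · intro x
    apply le_antisymm _ (hnonneg x x)
    exact hle x x 0 emp emp_mem_om ((Ch.zero h.df).2 ⟨rfl, rfl⟩)
  · intro x y z
    by_contra hcon
    push Not at hcon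
    obtain ⟨δ, hδ⟩ : ∃ δ : El R, δ = (ρ x y - (ρ x z + ρ z y)) / 2 := ⟨_, rfl⟩
    have hδ0 : 0 < δ := by
      rw [hδ]
      linarith
    obtain ⟨n, s, hn, hc, hs⟩ := hlt x z (ρ x z + δ) (by linarith)
    obtain ⟨m, t, hm, hc', ht⟩ := hlt z y (ρ z y + δ) (by linarith)
    obtain ⟨l, hl, hc3⟩ := ch_concat hR h.df m hm _ _ _ hc' _ _ _ hn hc
    rw [hR.op_add] at hc3
    have := hle x y _ l hl hc3
    linarith
  · intro x y hxy
    apply Subtype.ext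
    refine h.sep _ _ x.2 y.2 fun n hn => ?_
    refine hbase x y ⟨n, hn⟩ ?_
    rw [hxy]
    exact pw_pos hR hq0 _
  · intro U
    rw [h.top U]
    refine and_congr_right fun hU => ?_
    constructor
    · intro h1 x hx
      obtain ⟨n, hn, h2⟩ := h1 x.1 hx
      exact ⟨pw hR q (sN ⟨n, hn⟩), pw_pos hR hq0 _, fun y hy => h2 y.1 y.2 (hbase x y ⟨n, hn⟩ hy)⟩
    · intro h1 x hx
      obtain ⟨ε, hε, h2⟩ := h1 ⟨x, hU x hx⟩ hx
      obtain ⟨n, hn⟩ := exists_pw_lt hR hq0 hq1 hε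
      refine ⟨n.1, n.2, fun y hy hV => ?_⟩
      exact h2 ⟨y, hy⟩ ((hone ⟨x, hU x hx⟩ ⟨y, hy⟩ n hV).trans_lt hn)
  · intro hs x y
    apply le_antisymm
    · apply hge
      intro n s hn hc
      obtain ⟨l, hl, hc'⟩ := ch_symm hR h.df hs n hn _ _ _ hc
      exact hle x y s l hl hc'
    · apply hge
      intro n s hn hc
      obtain ⟨l, hl, hc'⟩ := ch_symm hR h.df hs n hn _ _ _ hc
      exact hle y x s l hl hc'

end

/-- a model of the real numbers exists in the model `M` -/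
def HasReals (M : Type u) [SetStr M] : Prop :=
  ∃ (R A P L : M) (_ : Field (El R)) (_ : LinearOrder (El R)) (_ : IsStrictOrderedRing (El R)),
    IsReals R A P L

theorem QF.qmetrizable (hM : HasReals M) {X T : M} {V : M → M → M → Prop} (h : QF X T V) :
    QMetrizable X T := by
  obtain ⟨R, A, P, L, _, _, _, hR⟩ := hM
  obtain ⟨d, ρ, h1, h2, -⟩ := R2 hR h
  exact ⟨R, A, P, L, d, _, _, _, ρ, hR, h1, h2⟩

theorem QF.metrizable (hM : HasReals M) {X T : M} {V : M → M → M → Prop} (h : QF X T V)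
    (hs : ∀ n x y : M, n ∈ (om : M) → x ∈ X → y ∈ X → V n x y → V n y x) :
    Metrizable X T := by
  obtain ⟨R, A, P, L, _, _, _, hR⟩ := hM
  obtain ⟨d, ρ, h1, h2, h3⟩ := R2 hR h
  exact ⟨R, A, P, L, d, _, _, _, ρ, hR, h1, h3 hs, h2⟩

theorem QMetrizable.qf {X T : M} (h : QMetrizable X T) : ∃ V : M → M → M → Prop, QF X T V := by
  obtain ⟨R, A, P, L, d, _, _, _, ρ, hR, h1, h2⟩ := h
  obtain ⟨V, hV, -⟩ := R1 hR h1 h2
  exact ⟨V, hV⟩

theorem Metrizable.qf {X T : M} (h : Metrizable X T) : ∃ V : M → M → M → Prop, QF X T V ∧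
    ∀ n x y : M, n ∈ (om : M) → x ∈ X → y ∈ X → V n x y → V n y x := by
  obtain ⟨R, A, P, L, d, _, _, _, ρ, hR, h1, hs, h2⟩ := h
  obtain ⟨V, hV, hV2⟩ := R1 hR h1 h2
  exact ⟨V, hV, hV2 hs⟩

theorem QMetrizable.hasReals {X T : M} (h : QMetrizable X T) : HasReals M := by
  obtain ⟨R, A, P, L, d, i1, i2, i3, ρ, hR, h1, h2⟩ := h
  exact ⟨R, A, P, L, i1, i2, i3, hR⟩

theorem Metrizable.qmetrizable {X T : M} (h : Metrizable X T) : QMetrizable X T := by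
  obtain ⟨R, A, P, L, d, i1, i2, i3, ρ, hR, h1, hs, h2⟩ := h
  exact ⟨R, A, P, L, d, i1, i2, i3, ρ, hR, h1, h2⟩

end Pool.Agent.H.MP_07d118_lc
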