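import Pool.Agent.H.MP_07d118_lc.Sets

/-!
The natural numbers of a model of ZF: induction, order, recursion.
-/

set_option linter.unusedSectionVars false

namespace Pool.Agent.H.MP_07d118_lc

universe u

variable {M : Type u} [SetStr M] [ZF M]

variable {n : ℕ}

theorem isInd_iff {w : M} : IsInd w ↔ emp ∈ w ∧ ∀ x : M, x ∈ w → suc x ∈ w := by
  unfold IsInd
  simp only [isEmp_iff, isSucc_iff]
  constructor
  · rintro ⟨h1, h2⟩
    exact ⟨h1 _ rfl, fun x hx => h2 x _ hx rfl⟩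
  · rintro ⟨h1, h2⟩
    exact ⟨fun z hz => hz ▸ h1, fun x y hx hy => hy ▸ h2 x hx⟩

theorem Df.isInd {F : (Fin n → M) → M} (hF : DfF F) : Df (fun v => IsInd (F v)) := by
  refine Df.comp1 (P := fun w => IsInd w) ?_ hF
  refine Df.congr (P := fun w : Fin 1 → M => emp ∈ w 0 ∧ ∀ x : M, x ∈ w 0 → suc x ∈ w 0) ?_
    fun w => isInd_iff
  apply_rules (transparency := .reducible) [Df.all, Df.imp, Df.ex, Df.and, Df.mem, Df.eq, DfF.var,
    DfF.const, DfF.Suc]

/-- the set of natural numbers -/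
noncomputable def om : M := iota (fun w : M => IsOmega w)

theorem isOmega_unique {w w' : M} (h : IsOmega w) (h' : IsOmega w') : w = w' :=
  ext fun x => ⟨fun hx => h.2 w' h'.1 x hx, fun hx => h'.2 w h.1 x hx⟩

theorem isOmega_om : IsOmega (om : M) := by
  apply iota_spec
  obtain ⟨a, ⟨z, hz, hza⟩, ha⟩ := ZF.infinity (M := M)
  have ha' : IsInd a := by
    rw [isInd_iff]
    refine ⟨isEmp_iff.1 hz ▸ hza, fun x hx => ?_⟩
    obtain ⟨y, hy, hya⟩ := ha x hx
    exact isSucc_iff.1 hy ▸ hya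
  have hd : Df (fun w : Fin 1 → M => ∀ w' : M, IsInd w' → w 0 ∈ w') := by
    apply_rules (transparency := .reducible) [Df.all, Df.imp, Df.isInd, Df.mem, DfF.var]
  have h : IsOmega (sep a (fun x => ∀ w' : M, IsInd w' → x ∈ w')) := by
    refine ⟨?_, ?_⟩
    · rw [isInd_iff]
      refine ⟨?_, fun x hx => ?_⟩
      · rw [mem_sep hd]
        exact ⟨(isInd_iff.1 ha').1, fun w' hw' => (isInd_iff.1 hw').1⟩
      · rw [mem_sep hd] at hx ⊢
        exact ⟨(isInd_iff.1 ha').2 _ hx.1, fun w' hw' => (isInd_iff.1 hw').2 _ (hx.2 w' hw')⟩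
    · intro w' hw' x hx
      rw [mem_sep hd] at hx
      exact hx.2 w' hw'
  exact ⟨_, h, fun w hw => isOmega_unique hw h⟩

theorem emp_mem_om : (emp : M) ∈ (om : M) := (isInd_iff.1 isOmega_om.1).1

theorem suc_mem_om {x : M} (hx : x ∈ (om : M)) : suc x ∈ (om : M) :=
  (isInd_iff.1 isOmega_om.1).2 x hx

theorem nat_ind {P : M → Prop} (hP : Df (fun w : Fin 1 → M => P (w 0))) (h0 : P emp)
    (hs : ∀ n : M, n ∈ (om : M) → P n → P (suc n)) : ∀ n : M, n ∈ (om : M) → P n := by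
  have h : IsInd (sep om P) := by
    rw [isInd_iff]
    refine ⟨(mem_sep hP).2 ⟨emp_mem_om, h0⟩, fun x hx => ?_⟩
    rw [mem_sep hP] at hx ⊢
    exact ⟨suc_mem_om hx.1, hs x hx.1 hx.2⟩
  intro n hn
  exact ((mem_sep hP).1 (isOmega_om.2 _ h n hn)).2

theorem not_mem_self (x : M) : ¬ x ∈ x := by
  intro h
  obtain ⟨y, hy, hy2⟩ := ZF.foundation (upair x x) ⟨x, mem_upair.2 (Or.inl rfl)⟩
  have : y = x := by
    rcases mem_upair.1 hy with h | h <;> exact h
  subst this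
  exact hy2 y ⟨h, hy⟩

theorem om_trans0 : ∀ n : M, n ∈ (om : M) → ∀ m : M, m ∈ n → m ∈ (om : M) ∧ Sub m n := by
  refine nat_ind ?_ ?_ ?_
  · apply_rules (transparency := .reducible) [Df.all, Df.imp, Df.and, Df.mem, Df.subset, DfF.var,
      DfF.const]
  · intro m hm
    exact (not_mem_emp _ hm).elim
  · intro n hn ih m hm
    rcases mem_suc.1 hm with h | rfl
    · exact ⟨(ih m h).1, fun x hx => mem_suc.2 (Or.inl ((ih m h).2 x hx))⟩
    · exact ⟨hn, fun x hx => mem_suc.2 (Or.inl hx)⟩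

theorem om_mem {m n : M} (hn : n ∈ (om : M)) (hm : m ∈ n) : m ∈ (om : M) :=
  (om_trans0 n hn m hm).1

theorem lt_trans' {k m n : M} (hn : n ∈ (om : M)) (hm : m ∈ n) (hk : k ∈ m) : k ∈ n :=
  (om_trans0 n hn m hm).2 k hk

theorem suc_lt0 : ∀ m : M, m ∈ (om : M) → ∀ n : M, n ∈ m → suc n ∈ m ∨ suc n = m := by
  refine nat_ind ?_ ?_ ?_
  · apply_rules (transparency := .reducible) [Df.all, Df.imp, Df.and, Df.or, Df.mem, Df.eq,
      DfF.Suc, DfF.var, DfF.const]
  · intro m hm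
    exact (not_mem_emp _ hm).elim
  · intro m hm ih n hn
    rcases mem_suc.1 hn with h | rfl
    · left
      rcases ih n h with h | h
      · exact mem_suc.2 (Or.inl h)
      · exact mem_suc.2 (Or.inr h)
    · exact Or.inr rfl

theorem zero_le0 : ∀ m : M, m ∈ (om : M) → emp ∈ m ∨ m = emp := by
  refine nat_ind ?_ ?_ ?_
  · apply_rules (transparency := .reducible) [Df.all, Df.imp, Df.and, Df.or, Df.mem, Df.eq,
      DfF.Suc, DfF.var, DfF.const]
  · exact Or.inr rfl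
  · intro m hm ih
    left
    rcases ih with h | h
    · exact mem_suc.2 (Or.inl h)
    · exact mem_suc.2 (Or.inr h.symm)

theorem trich0 : ∀ n : M, n ∈ (om : M) → ∀ m : M, m ∈ (om : M) → m ∈ n ∨ m = n ∨ n ∈ m := by
  refine nat_ind ?_ ?_ ?_
  · apply_rules (transparency := .reducible) [Df.all, Df.imp, Df.and, Df.or, Df.mem, Df.eq,
      DfF.Suc, DfF.var, DfF.const]
  · intro m hm
    rcases zero_le0 m hm with h | h
    · exact Or.inr (Or.inr h)
    · exact Or.inr (Or.inl h)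
  · intro n hn ih m hm
    rcases ih m hm with h | h | h
    · exact Or.inl (mem_suc.2 (Or.inl h))
    · exact Or.inl (mem_suc.2 (Or.inr h))
    · rcases suc_lt0 m hm n h with h | h
      · exact Or.inr (Or.inr h)
      · exact Or.inr (Or.inl h.symm)

/-- `m ≤ n` -/
def Le (m n : M) : Prop := m ∈ n ∨ m = n

theorem Df.le {F G : (Fin n → M) → M} (hF : DfF F) (hG : DfF G) : Df (fun v => Le (F v) (G v)) :=
  Df.or (Df.mem hF hG) (Df.eq hF hG)

theorem Le.refl (m : M) : Le m m := Or.inr rfl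

theorem Le.trans {k m n : M} (hn : n ∈ (om : M)) (h : Le k m) (h' : Le m n) : Le k n := by
  rcases h with h | rfl
  · rcases h' with h' | rfl
    · exact Or.inl (lt_trans' hn h' h)
    · exact Or.inl h
  · exact h'

theorem le_suc (n : M) : Le n (suc n) := Or.inl (mem_suc.2 (Or.inr rfl))

theorem lt_suc (n : M) : n ∈ suc n := mem_suc.2 (Or.inr rfl)

theorem lt_suc_iff {m n : M} : m ∈ suc n ↔ Le m n := mem_suc

theorem le_total' {m n : M} (hm : m ∈ (om : M)) (hn : n ∈ (om : M)) : Le m n ∨ Le n m := by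
  rcases trich0 n hn m hm with h | h | h
  · exact Or.inl (Or.inl h)
  · exact Or.inl (Or.inr h)
  · exact Or.inr (Or.inl h)

theorem zero_le' {m : M} (hm : m ∈ (om : M)) : Le emp m := by
  rcases zero_le0 m hm with h | h
  · exact Or.inl h
  · exact Or.inr h.symm

theorem suc_le {m n : M} (hn : n ∈ (om : M)) (h : m ∈ n) : Le (suc m) n := suc_lt0 n hn m h

theorem lt_of_suc_le {m n : M} (hn : n ∈ (om : M)) (h : Le (suc m) n) : m ∈ n := by
  rcases h with h | rfl
  · exact lt_trans' hn h (lt_suc m)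
  · exact lt_suc m

theorem not_lt_of_le {m n : M} (hn : n ∈ (om : M)) (h : Le m n) : ¬ n ∈ m := by
  intro h'
  rcases h with h | rfl
  · exact not_mem_self n (lt_trans' hn h h')
  · exact not_mem_self _ h'

theorem suc_inj {m n : M} (hm : m ∈ (om : M)) (h : suc m = suc n) : m = n := by
  have h1 : m ∈ suc n := h ▸ lt_suc m
  have h2 : n ∈ suc m := h ▸ lt_suc n
  rcases mem_suc.1 h1 with h3 | h3
  · rcases mem_suc.1 h2 with h4 | h4
    · exact absurd (lt_trans' hm h4 h3) (not_mem_self m)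
    · exact h4.symm
  · exact h3

theorem suc_ne_emp (m : M) : suc m ≠ emp := fun h => not_mem_emp m (h ▸ lt_suc m)

theorem exists_max {m n : M} (hm : m ∈ (om : M)) (hn : n ∈ (om : M)) :
    ∃ k : M, k ∈ (om : M) ∧ Le m k ∧ Le n k := by
  rcases le_total' hm hn with h | h
  · exact ⟨n, hn, h, Le.refl n⟩
  · exact ⟨m, hm, Le.refl m, h⟩

theorem nat_least {P : M → Prop} (hP : Df (fun w : Fin 1 → M => P (w 0)))
    (h : ∃ n : M, n ∈ (om : M) ∧ P n) : ∃ n : M, n ∈ (om : M) ∧ P n ∧ ∀ m : M, m ∈ n → ¬ P m := by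
  by_contra hcon
  have key : ∀ n : M, n ∈ (om : M) → ∀ m : M, m ∈ n → ¬ P m := by
    refine nat_ind ?_ ?_ ?_
    · exact Df.all (Df.imp (Df.mem (DfF.var _) (DfF.var _)) (Df.not (hP.reindex fun _ => 0)))
    · intro m hm
      exact (not_mem_emp _ hm).elim
    · intro n hn ih m hm
      rcases mem_suc.1 hm with h | rfl
      · exact ih m h
      · intro hPm
        exact hcon ⟨m, hn, hPm, ih⟩
  obtain ⟨n, hn, hPn⟩ := h
  exact key (suc n) (suc_mem_om hn) n (lt_suc n) hPn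

/-! ### recursion -/

/-- `s` is the sequence with `s 0 = a` and `s (n+1) = G (s n)` -/
def RecSeq (G : M → M) (a s : M) : Prop :=
  IsFun s om ∧ Rel s emp a ∧ ∀ n x : M, n ∈ (om : M) → Rel s n x → Rel s (suc n) (G x)

theorem recSeq_unique {G : M → M} {a s t : M}
    (hs : RecSeq G a s) (ht : RecSeq G a t) : s = t := by
  refine hs.1.ext ht.1 ?_
  refine nat_ind ?_ ?_ ?_
  · exact Df.eq (DfF.Ap (DfF.const _) (DfF.var _)) (DfF.Ap (DfF.const _) (DfF.var _))
  · rw [hs.1.ap_eq emp_mem_om hs.2.1, ht.1.ap_eq emp_mem_om ht.2.1]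
  · intro n hn ih
    rw [hs.1.ap_eq (suc_mem_om hn) (hs.2.2 n _ hn (hs.1.rel_ap hn)),
      ht.1.ap_eq (suc_mem_om hn) (ht.2.2 n _ hn (ht.1.rel_ap hn)), ih]

theorem exists_recSeq {G : M → M} (hG : DfF (fun w : Fin 1 → M => G (w 0))) {A a : M}
    (ha : a ∈ A) (hA : ∀ x : M, x ∈ A → G x ∈ A) : ∃! s : M, RecSeq G a s := by
  -- the intersection of all closed relations
  let Cl : M → Prop := fun C => opair emp a ∈ C ∧
    ∀ n x : M, n ∈ (om : M) → opair n x ∈ C → opair (suc n) (G x) ∈ C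
  have hCl : Df (fun w : Fin 1 → M => Cl (w 0)) := by
    refine Df.and (Df.mem (DfF.const _) (DfF.var _)) (Df.all (Df.all (Df.imp ?_ (Df.imp ?_ ?_))))
    · exact Df.mem (DfF.var 1) (DfF.const _)
    · exact Df.mem (DfF.Opair (DfF.var 1) (DfF.var 0)) (DfF.var 2)
    · exact Df.mem (DfF.Opair (DfF.Suc (DfF.var 1)) (hG.wk fun _ => 0)) (DfF.var 2)
  have hd : Df (fun w : Fin 1 → M => ∀ C : M, Cl C → w 0 ∈ C) :=
    Df.all (Df.imp (Df.comp1 hCl (DfF.var 0)) (Df.mem (DfF.var 1) (DfF.var 0)))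
  let s : M := sep (prod om A) (fun p => ∀ C : M, Cl C → p ∈ C)
  have ms : ∀ p : M, p ∈ s ↔ p ∈ prod om A ∧ ∀ C : M, Cl C → p ∈ C := fun p => mem_sep hd
  have hs0 : opair emp a ∈ s := (ms _).2 ⟨opair_mem_prod.2 ⟨emp_mem_om, ha⟩, fun C hC => hC.1⟩
  have hs1 : ∀ n x : M, n ∈ (om : M) → opair n x ∈ s → opair (suc n) (G x) ∈ s := by
    intro n x hn h
    rw [ms] at h ⊢
    exact ⟨opair_mem_prod.2 ⟨suc_mem_om hn, hA x (opair_mem_prod.1 h.1).2⟩,
      fun C hC => hC.2 n x hn (h.2 C hC)⟩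
  have hdq : ∀ q : M, Df (fun w : Fin 1 → M => ¬ w 0 = q) := fun q =>
    Df.not (Df.eq (DfF.var _) (DfF.const _))
  -- removing an element
  have hrem : ∀ q : M, q ∈ s → Cl (sep s (fun p => ¬ p = q)) → False := by
    intro q hq hc
    have h1 := ((ms q).1 hq).2 _ hc
    rw [mem_sep (hdq q)] at h1
    exact h1.2 rfl
  have hfun : ∀ n : M, n ∈ (om : M) → ∃ y : M, Rel s n y ∧ ∀ z : M, Rel s n z → z = y := by
    refine nat_ind ?_ ?_ ?_
    · apply_rules (transparency := .reducible) [Df.all, Df.imp, Df.and, Df.ex, Df.rel, Df.mem,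
        Df.eq, DfF.var, DfF.const]
    · refine ⟨a, rel_iff.2 hs0, fun z hz => ?_⟩
      by_contra hne
      refine hrem _ (rel_iff.1 hz) ⟨?_, ?_⟩
      · rw [mem_sep (hdq _)]
        exact ⟨hs0, fun h => hne (opair_inj.1 h).2.symm⟩
      · intro n x hn hx
        rw [mem_sep (hdq _)] at hx ⊢
        exact ⟨hs1 n x hn hx.1, fun h => suc_ne_emp n (opair_inj.1 h).1⟩
    · intro n hn ⟨y, hy, huy⟩
      refine ⟨G y, rel_iff.2 (hs1 n y hn (rel_iff.1 hy)), fun z hz => ?_⟩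
      by_contra hne
      refine hrem _ (rel_iff.1 hz) ⟨?_, ?_⟩
      · rw [mem_sep (hdq _)]
        exact ⟨hs0, fun h => suc_ne_emp n (opair_inj.1 h).1.symm⟩
      · intro m x hm hx
        rw [mem_sep (hdq _)] at hx ⊢
        refine ⟨hs1 m x hm hx.1, fun h => ?_⟩
        have e := suc_inj hm (opair_inj.1 h).1
        subst e
        rw [huy x (rel_iff.2 hx.1)] at h
        exact hne (opair_inj.1 h).2.symm
  have hs : RecSeq G a s := by
    refine ⟨⟨?_, fun n hn => ?_⟩, rel_iff.2 hs0, fun n x hn h => rel_iff.2 (hs1 n x hn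
      (rel_iff.1 h))⟩
    · intro p hp
      obtain ⟨n, hn, x, hx, rfl⟩ := mem_prod.1 ((ms p).1 hp).1
      exact ⟨n, x, hn, isOPair_iff.2 rfl⟩
    · obtain ⟨y, hy, hu⟩ := hfun n hn
      exact ⟨y, hy, hu⟩
  exact ⟨s, hs, fun t ht => recSeq_unique ht hs⟩

/-- the `n`-th iterate of `G` at `a` -/
noncomputable def iter (G : M → M) (a n : M) : M := ap (iota (fun s => RecSeq G a s)) n

theorem iter_zero {G : M → M} (hG : DfF (fun w : Fin 1 → M => G (w 0))) {A a : M}
    (ha : a ∈ A) (hA : ∀ x : M, x ∈ A → G x ∈ A) : iter G a emp = a := by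
  have h := iota_spec (exists_recSeq hG ha hA)
  exact h.1.ap_eq emp_mem_om h.2.1

theorem iter_suc {G : M → M} (hG : DfF (fun w : Fin 1 → M => G (w 0))) {A a : M}
    (ha : a ∈ A) (hA : ∀ x : M, x ∈ A → G x ∈ A) {n : M} (hn : n ∈ (om : M)) :
    iter G a (suc n) = G (iter G a n) := by
  have h := iota_spec (exists_recSeq hG ha hA)
  exact h.1.ap_eq (suc_mem_om hn) (h.2.2 n _ hn (h.1.rel_ap hn))

theorem DfF.Iter {G : M → (Fin n → M) → M}
    (hG : DfF (fun w : Fin (n + 1) → M => G (w 0) (fun i => w i.succ)))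
    {a N : (Fin n → M) → M} (ha : DfF a) (hN : DfF N) :
    DfF (fun v => iter (fun x => G x v) (a v) (N v)) := by
  refine DfF.Ap ?_ hN
  refine DfF.Iota (P := fun s v => RecSeq (fun x => G x v) (a v) s) ?_
  refine Df.and (Df.isFun (DfF.var _) (DfF.const _)) (Df.and (Df.rel (DfF.var _) (DfF.const _)
    (ha.wk _)) (Df.all (Df.all (Df.imp (Df.mem (DfF.var 1) (DfF.const _)) (Df.imp
      (Df.rel (DfF.var 2) (DfF.var 1) (DfF.var 0)) (Df.rel (DfF.var 2) (DfF.Suc (DfF.var 1)) ?_))))))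
  exact hG.wk (fun i => Fin.cases 0 (fun j => j.succ.succ.succ) i)

theorem iter_mem {G : M → M} (hG : DfF (fun w : Fin 1 → M => G (w 0))) {A a : M}
    (ha : a ∈ A) (hA : ∀ x : M, x ∈ A → G x ∈ A) : ∀ n : M, n ∈ (om : M) → iter G a n ∈ A := by
  refine nat_ind ?_ ?_ ?_
  · refine Df.mem (DfF.Iter (G := fun x _ => G x) (a := fun _ => a) (hG.wk fun _ => 0)
      (DfF.const _) (DfF.var _)) (DfF.const _)
  · rw [iter_zero hG ha hA]
    exact ha
  · intro n hn ih
    rw [iter_suc hG ha hA hn]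
    exact hA _ ih

end Pool.Agent.H.MP_07d118_lc
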