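import Pool.Agent.H.MP_07d118_lc.Metr

/-!
Products, and the simultaneous choice of quasi-metrics from CPQM.
-/

set_option linter.unusedSectionVars false

namespace Pool.Agent.H.MP_07d118_lc

universe u

variable {M : Type u} [SetStr M] [ZF M]

theorem QF.sub {X T : M} {V : M → M → M → Prop} (h : QF X T V) {U : M} (hU : U ∈ T) : Sub U X :=
  ((h.top U).1 hU).1

theorem QF.isTop {X T : M} {V : M → M → M → Prop} (h : QF X T V) : IsTop X T := by
  refine ⟨fun U hU => h.sub hU, ?_, ?_, ?_⟩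
  · exact (h.top X).2 ⟨fun x hx => hx, fun x hx => ⟨emp, emp_mem_om, fun y hy _ => hy⟩⟩
  · intro U V' W hU hV hW
    rw [h.top] at hU hV ⊢
    refine ⟨fun x hx => hU.1 x ((hW x).1 hx).1, fun x hx => ?_⟩
    obtain ⟨n, hn, h1⟩ := hU.2 x ((hW x).1 hx).1
    obtain ⟨m, hm, h2⟩ := hV.2 x ((hW x).1 hx).2
    obtain ⟨k, hk, hnk, hmk⟩ := exists_max hn hm
    have hxX := hU.1 x ((hW x).1 hx).1
    exact ⟨k, hk, fun y hy hy2 => (hW y).2 ⟨h1 y hy (h.mono hk hxX hy hnk hy2),
      h2 y hy (h.mono hk hxX hy hmk hy2)⟩⟩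
  · intro S W hS hW
    rw [h.top]
    refine ⟨fun x hx => ?_, fun x hx => ?_⟩
    · obtain ⟨U, hU, hxU⟩ := (hW x).1 hx
      exact h.sub (hS U hU) x hxU
    · obtain ⟨U, hU, hxU⟩ := (hW x).1 hx
      obtain ⟨n, hn, h1⟩ := ((h.top U).1 (hS U hU)).2 x hxU
      exact ⟨n, hn, fun y hy hy2 => (hW y).2 ⟨U, hU, h1 y hy hy2⟩⟩

theorem IsTop.emp {X T : M} (h : IsTop X T) : (MP_07d118_lc.emp : M) ∈ T :=
  h.union MP_07d118_lc.emp MP_07d118_lc.emp (fun U hU => (not_mem_emp _ hU).elim) fun x =>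
    ⟨fun hx => (not_mem_emp _ hx).elim, fun ⟨U, hU, _⟩ => (not_mem_emp _ hU).elim⟩

/-- the interior of a ball -/
theorem QF.interior {X T : M} {V : M → M → M → Prop} (h : QF X T V) {n x : M}
    (hn : n ∈ (om : M)) (hx : x ∈ X) : ∃ O : M, O ∈ T ∧ x ∈ O ∧ ∀ y : M, y ∈ O → V n x y := by
  have hd : Df (fun w : Fin 1 → M => ∃ m : M, m ∈ (om : M) ∧ ∀ z : M, z ∈ X → V m (w 0) z →
      V n x z) := by
    apply_rules (transparency := .reducible) (maxDepth := 1000) [Df.not, Df.all, Df.imp, Df.ex,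
      Df.and, Df.mem, Df.eq, Df.comp3 h.df, DfF.var, DfF.const]
  refine ⟨MP_07d118_lc.sep X (fun y => ∃ m : M, m ∈ (om : M) ∧ ∀ z : M, z ∈ X → V m y z →
      V n x z), ?_, ?_, ?_⟩
  · rw [h.top]
    refine ⟨fun y hy => ((mem_sep hd).1 hy).1, fun y hy => ?_⟩
    obtain ⟨hyX, m, hm, hy2⟩ := (mem_sep hd).1 hy
    refine ⟨suc m, suc_mem_om hm, fun z hz hyz => ?_⟩
    rw [mem_sep hd]
    refine ⟨hz, suc m, suc_mem_om hm, fun w hw hzw => ?_⟩
    exact hy2 w hw (h.comp m y z w hm hyX hz hw hyz hzw)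
  · rw [mem_sep hd]
    exact ⟨hx, n, hn, fun z _ hz => hz⟩
  · intro y hy
    obtain ⟨hyX, m, hm, hy2⟩ := (mem_sep hd).1 hy
    exact hy2 y hyX (h.refl m y hm hyX)

/-! ### products -/

theorem isTop_iff {X T : M} : IsTop X T ↔ (∀ U : M, U ∈ T → Sub U X) ∧ X ∈ T ∧
    (∀ U V W : M, U ∈ T → V ∈ T → (∀ x : M, x ∈ W ↔ x ∈ U ∧ x ∈ V) → W ∈ T) ∧
    (∀ S W : M, (∀ U : M, U ∈ S → U ∈ T) → (∀ x : M, x ∈ W ↔ ∃ U : M, U ∈ S ∧ x ∈ U) → W ∈ T) :=
  ⟨fun h => ⟨h.sub, h.univ, h.inter, h.union⟩, fun h => ⟨h.1, h.2.1, h.2.2.1, h.2.2.2⟩⟩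

theorem hasCyls_df (J S Q : M) : Df (fun w : Fin 1 → M => HasCyls J S Q (w 0)) := by
  unfold HasCyls IsCyl
  simp only [isTop_iff]
  apply_rules (transparency := .reducible) (maxDepth := 1000) [Df.not, Df.all, Df.iff, Df.imp,
    Df.ex, Df.and, Df.mem, Df.eq, Df.subset, Df.rel, DfF.var, DfF.const]

theorem exists_prodTop (J S Q : M) : ∃ T : M, IsProdTop J S Q T := by
  have hd : Df (fun w : Fin 1 → M => ∀ T' : M, HasCyls J S Q T' → w 0 ∈ T') := by
    apply_rules (transparency := .reducible) (maxDepth := 1000) [Df.comp1 (hasCyls_df J S Q),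
      Df.not, Df.all, Df.iff, Df.imp, Df.ex, Df.and, Df.mem, Df.eq, Df.subset, Df.rel, DfF.var,
      DfF.const]
  refine ⟨sep (pow Q) (fun U => ∀ T' : M, HasCyls J S Q T' → U ∈ T'), ⟨⟨?_, ?_, ?_, ?_⟩, ?_⟩, ?_⟩
  · intro U hU
    exact mem_pow.1 ((mem_sep hd).1 hU).1
  · exact (mem_sep hd).2 ⟨mem_pow.2 fun x hx => hx, fun T' hT' => hT'.1.univ⟩
  · intro U V W hU hV hW
    rw [mem_sep hd] at hU hV ⊢
    exact ⟨mem_pow.2 fun x hx => mem_pow.1 hU.1 x ((hW x).1 hx).1, fun T' hT' =>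
      hT'.1.inter U V W (hU.2 T' hT') (hV.2 T' hT') hW⟩
  · intro S' W hS' hW
    rw [mem_sep hd]
    refine ⟨mem_pow.2 fun x hx => ?_, fun T' hT' => hT'.1.union S' W (fun U hU =>
      ((mem_sep hd).1 (hS' U hU)).2 T' hT') hW⟩
    obtain ⟨U, hU, hx'⟩ := (hW x).1 hx
    exact mem_pow.1 ((mem_sep hd).1 (hS' U hU)).1 x hx'
  · intro j U V O hj hO hU hV
    rw [mem_sep hd]
    exact ⟨mem_pow.2 fun x hx => ((hV x).1 hx).1, fun T' hT' => hT'.2 j U V O hj hO hU hV⟩
  · intro T' hT' U hU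
    exact ((mem_sep hd).1 hU).2 T' hT'

/-- the product of the sets `X j`, `j ∈ J` -/
noncomputable def pr (J : M) (X : M → M) : M :=
  sep (pow (prod J (sUn (image J X)))) (fun z => IsFun z J ∧ ∀ j : M, j ∈ J → ap z j ∈ X j)

theorem mem_pr {J : M} {X : M → M} (hX : DfF (fun w : Fin 1 → M => X (w 0))) {z : M} :
    z ∈ pr J X ↔ IsFun z J ∧ ∀ j : M, j ∈ J → ap z j ∈ X j := by
  have hd : Df (fun w : Fin 1 → M => IsFun (w 0) J ∧ ∀ j : M, j ∈ J → ap (w 0) j ∈ X j) := by
    apply_rules (transparency := .reducible) (maxDepth := 1000) [Df.isFun, Df.not, Df.all, Df.imp,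
      Df.and, Df.mem, DfF.Ap, DfF.comp1 hX, DfF.var, DfF.const]
  unfold pr
  rw [mem_sep hd]
  refine ⟨fun h => h.2, fun h => ⟨?_, h⟩⟩
  rw [mem_pow]
  intro p hp
  obtain ⟨j, x, hj, hp'⟩ := h.1.1 p hp
  rw [isOPair_iff] at hp'
  subst hp'
  rw [opair_mem_prod]
  refine ⟨hj, mem_sUn.2 ⟨X j, (mem_image hX).2 ⟨j, hj, rfl⟩, ?_⟩⟩
  rw [← h.1.ap_eq hj (rel_iff.2 hp)]
  exact h.2 j hj

theorem isProd_pr {J : M} {X : M → M} (hX : DfF (fun w : Fin 1 → M => X (w 0))) :
    IsProd J (lam J X) (pr J X) := by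
  intro z
  rw [mem_pr hX]
  refine and_congr_right fun hz => ?_
  constructor
  · intro h j x Y h1 h2
    obtain ⟨hj, rfl⟩ := (rel_lam hX).1 h2
    rw [← hz.ap_eq hj h1]
    exact h j hj
  · intro h j hj
    exact h j _ _ (hz.rel_ap hj) ((rel_lam hX).2 ⟨hj, rfl⟩)

/-- `x` changed at the place `j` to `a` -/
noncomputable def upd (J x j a : M) : M :=
  lam J (fun i => iota (fun y => (i = j ∧ y = a) ∨ (¬ i = j ∧ y = ap x i)))

theorem upd_df1 (x j a : M) : DfF (fun w : Fin 1 → M =>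
    iota (fun y => (w 0 = j ∧ y = a) ∨ (¬ w 0 = j ∧ y = ap x (w 0)))) := by
  refine DfF.Iota (P := fun y w => (w 0 = j ∧ y = a) ∨ (¬ w 0 = j ∧ y = ap x (w 0))) ?_
  apply_rules (transparency := .reducible) (maxDepth := 1000) [Df.not, Df.or, Df.and, Df.eq,
    DfF.Ap, DfF.var, DfF.const]

theorem DfF.Upd {n : ℕ} (J x : M) {F G : (Fin n → M) → M} (hF : DfF F) (hG : DfF G) :
    DfF (fun v => upd J x (F v) (G v)) := by
  refine DfF.comp2 (F := fun j a => upd J x j a) ?_ hF hG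
  refine DfF.Lam (F := fun i w => iota (fun y => (i = w 0 ∧ y = w 1) ∨ (¬ i = w 0 ∧ y = ap x i)))
    (DfF.const _) ?_
  refine DfF.Iota (P := fun y w => (w 0 = w 1 ∧ y = w 2) ∨ (¬ w 0 = w 1 ∧ y = ap x (w 0))) ?_
  apply_rules (transparency := .reducible) (maxDepth := 1000) [Df.not, Df.or, Df.and, Df.eq,
    DfF.Ap, DfF.var, DfF.const]

theorem isFun_upd (J x j a : M) : IsFun (upd J x j a) J := isFun_lam (upd_df1 x j a)

theorem ap_upd_self {J x j a : M} (hj : j ∈ J) : ap (upd J x j a) j = a := by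
  unfold upd
  rw [ap_lam (upd_df1 x j a) hj]
  apply iota_eq
  · refine ⟨a, Or.inl ⟨rfl, rfl⟩, ?_⟩
    rintro y (⟨-, h⟩ | ⟨h, -⟩)
    · exact h
    · exact absurd rfl h
  · exact Or.inl ⟨rfl, rfl⟩

theorem ap_upd_ne {J x j a i : M} (hi : i ∈ J) (hij : ¬ i = j) : ap (upd J x j a) i = ap x i := by
  unfold upd
  rw [ap_lam (upd_df1 x j a) hi]
  apply iota_eq
  · refine ⟨ap x i, Or.inr ⟨hij, rfl⟩, ?_⟩
    rintro y (⟨h, -⟩ | ⟨-, h⟩)
    · exact absurd h hij
    · exact h
  · exact Or.inr ⟨hij, rfl⟩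

theorem step0 (hC : CPQM M) {J : M} (hJ : IsCtbl J) {Z S : M → M}
    (hZ : DfF (fun w : Fin 1 → M => Z (w 0))) (hS : DfF (fun w : Fin 1 → M => S (w 0)))
    (hq : ∀ j : M, j ∈ J → QMetrizable (Z j) (S j)) {x0 : M} (hx0 : x0 ∈ pr J Z) :
    ∃ V : M → M → M → M → Prop, Df (fun w : Fin 4 → M => V (w 0) (w 1) (w 2) (w 3)) ∧
      ∀ j : M, j ∈ J → QF (Z j) (S j) (V j) := by
  obtain ⟨T, hT⟩ := exists_prodTop J (lam J S) (pr J Z)
  have hQ : QMetrizable (pr J Z) T := by
    refine hC J (lam J Z) (lam J S) (pr J Z) T hJ (isFun_lam hZ) (isFun_lam hS) ?_ (isProd_pr hZ) hT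
    intro j Y O hj hY hO
    rw [((rel_lam hZ).1 hY).2, ((rel_lam hS).1 hO).2]
    exact hq j hj
  obtain ⟨W, hW⟩ := hQ.qf
  have hx0' := (mem_pr hZ).1 hx0
  have hupd : ∀ j a : M, j ∈ J → a ∈ Z j → upd J x0 j a ∈ pr J Z := by
    intro j a hj ha
    rw [mem_pr hZ]
    refine ⟨isFun_upd _ _ _ _, fun i hi => ?_⟩
    by_cases hij : i = j
    · subst hij
      rw [ap_upd_self hi]
      exact ha
    · rw [ap_upd_ne hi hij]
      exact hx0'.2 i hi
  refine ⟨fun j n a b => W n (upd J x0 j a) (upd J x0 j b), ?_, ?_⟩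
  · apply_rules (transparency := .reducible) (maxDepth := 1000) [Df.comp3 hW.df, DfF.Upd, DfF.var,
      DfF.const]
  intro j hj
  obtain ⟨V', hV'⟩ := (hq j hj).qf
  have hcyl : ∀ (i U z : M), i ∈ J → z ∈ pr J Z → ((∃ x : M, Rel z i x ∧ x ∈ U) ↔ ap z i ∈ U) := by
    intro i U z hi hz
    have hzf := ((mem_pr hZ).1 hz).1
    constructor
    · rintro ⟨x, h1, h2⟩
      rw [hzf.ap_eq hi h1]
      exact h2
    · intro h
      exact ⟨_, hzf.rel_ap hi, h⟩
  have hcyl2 : ∀ (i U : M), i ∈ J → IsCyl (pr J Z) i U (sep (pr J Z) (fun z => ap z i ∈ U)) := by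
    intro i U hi z
    rw [mem_sep (P := fun z => ap z i ∈ U)
      (Df.mem (DfF.Ap (DfF.var _) (DfF.const _)) (DfF.const _))]
    refine and_congr_right fun hz => (hcyl i U z hi hz).symm
  refine ⟨?_, ?_, ?_, ?_, ?_, ?_⟩
  · apply_rules (transparency := .reducible) (maxDepth := 1000) [Df.comp3 hW.df, DfF.Upd, DfF.var,
      DfF.const]
  · intro x y hx hy
    exact hW.zero _ _ (hupd j x hj hx) (hupd j y hj hy)
  · intro n x hn hx
    exact hW.refl _ _ hn (hupd j x hj hx)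
  · intro n x y z hn hx hy hz h1 h2
    exact hW.comp _ _ _ _ hn (hupd j x hj hx) (hupd j y hj hy) (hupd j z hj hz) h1 h2
  · intro x y hx hy h
    have h1 := hW.sep _ _ (hupd j x hj hx) (hupd j y hj hy) h
    rw [← ap_upd_self (J := J) (x := x0) (j := j) (a := x) hj, h1, ap_upd_self hj]
  · intro U
    constructor
    · intro hU
      refine ⟨hV'.sub hU, fun a ha => ?_⟩
      have h1 : sep (pr J Z) (fun z => ap z j ∈ U) ∈ T :=
        hT.1.2 j U _ (S j) hj ((rel_lam hS).2 ⟨hj, rfl⟩) hU (hcyl2 j U hj)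
      have haZ := hV'.sub hU a ha
      have hdU : Df (fun w : Fin 1 → M => ap (w 0) j ∈ U) :=
        Df.mem (DfF.Ap (DfF.var _) (DfF.const _)) (DfF.const _)
      obtain ⟨n, hn, h2⟩ := ((hW.top _).1 h1).2 (upd J x0 j a) (by
        rw [mem_sep hdU, ap_upd_self hj]
        exact ⟨hupd j a hj haZ, ha⟩)
      refine ⟨n, hn, fun b hb hab => ?_⟩
      have h3 := h2 _ (hupd j b hj hb) hab
      rw [mem_sep hdU, ap_upd_self hj] at h3
      exact h3.2
    · rintro ⟨hU, h⟩
      rw [hV'.top]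
      refine ⟨hU, fun a ha => ?_⟩
      obtain ⟨n, hn, h1⟩ := h a ha
      obtain ⟨O, hO, haO, hO2⟩ := hW.interior hn (hupd j a hj (hU a ha))
      -- continuity of `b ↦ upd b`
      have hd1 : ∀ V : M, Df (fun w : Fin 1 → M => upd J x0 j (w 0) ∈ V) := fun V =>
        Df.mem (DfF.Upd J x0 (DfF.const _) (DfF.var _)) (DfF.const _)
      have hd2 : Df (fun w : Fin 1 → M => sep (Z j) (fun b => upd J x0 j b ∈ w 0) ∈ S j) := by
        refine Df.mem (DfF.Sep (P := fun b w => upd J x0 j b ∈ w 0) (DfF.const _) ?_) (DfF.const _)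
        exact Df.mem (DfF.Upd J x0 (DfF.const _) (DfF.var _)) (DfF.var _)
      have hST := hV'.isTop
      have hcont : HasCyls J (lam J S) (pr J Z)
          (sep (pow (pr J Z)) (fun V => sep (Z j) (fun b => upd J x0 j b ∈ V) ∈ S j)) := by
        refine ⟨⟨?_, ?_, ?_, ?_⟩, ?_⟩
        · intro V hV
          exact mem_pow.1 ((mem_sep hd2).1 hV).1
        · rw [mem_sep hd2]
          refine ⟨mem_pow.2 fun x hx => hx, ?_⟩
          have e : sep (Z j) (fun b => upd J x0 j b ∈ pr J Z) = Z j := by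
            refine ext fun b => ?_
            rw [mem_sep (hd1 _)]
            exact ⟨fun h => h.1, fun h => ⟨h, hupd j b hj h⟩⟩
          rw [e]
          exact hST.univ
        · intro V1 V2 V3 h1 h2 h3
          rw [mem_sep hd2] at h1 h2 ⊢
          refine ⟨mem_pow.2 fun x hx => mem_pow.1 h1.1 x ((h3 x).1 hx).1, ?_⟩
          refine hST.inter _ _ _ h1.2 h2.2 fun b => ?_
          rw [mem_sep (hd1 _), mem_sep (hd1 _), mem_sep (hd1 _), h3]
          tauto
        · intro S' V3 h1 h3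
          rw [mem_sep hd2]
          refine ⟨mem_pow.2 fun x hx => ?_, ?_⟩
          · obtain ⟨V, hV, hx'⟩ := (h3 x).1 hx
            exact mem_pow.1 ((mem_sep hd2).1 (h1 V hV)).1 x hx'
          · have hd3 : DfF (fun w : Fin 1 → M => sep (Z j) (fun b => upd J x0 j b ∈ w 0)) := by
              refine DfF.Sep (P := fun b w => upd J x0 j b ∈ w 0) (DfF.const _) ?_
              exact Df.mem (DfF.Upd J x0 (DfF.const _) (DfF.var _)) (DfF.var _)
            refine hST.union (image S' (fun V => sep (Z j) (fun b => upd J x0 j b ∈ V))) _ ?_ ?_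
            · intro V hV
              obtain ⟨V', hV', rfl⟩ := (mem_image hd3).1 hV
              exact ((mem_sep hd2).1 (h1 V' hV')).2
            · intro b
              rw [mem_sep (hd1 _), h3]
              constructor
              · rintro ⟨hb, V, hV, hbV⟩
                exact ⟨_, (mem_image hd3).2 ⟨V, hV, rfl⟩, (mem_sep (hd1 _)).2 ⟨hb, hbV⟩⟩
              · rintro ⟨V', hV', hbV'⟩
                obtain ⟨V, hV, rfl⟩ := (mem_image hd3).1 hV'
                rw [mem_sep (hd1 _)] at hbV'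
                exact ⟨hbV'.1, V, hV, hbV'.2⟩
        · intro i U' V O' hi hO' hU' hV
          obtain ⟨-, rfl⟩ := (rel_lam hS).1 hO'
          rw [mem_sep hd2]
          refine ⟨mem_pow.2 fun x hx => ((hV x).1 hx).1, ?_⟩
          have hVm : ∀ b : M, b ∈ Z j → (upd J x0 j b ∈ V ↔ ap (upd J x0 j b) i ∈ U') := by
            intro b hb
            rw [hV, hcyl i U' _ hi (hupd j b hj hb)]
            exact ⟨fun h => h.2, fun h => ⟨hupd j b hj hb, h⟩⟩
          by_cases hij : i = j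
          · subst hij
            have e : sep (Z i) (fun b => upd J x0 i b ∈ V) = U' := by
              refine ext fun b => ?_
              rw [mem_sep (hd1 _)]
              constructor
              · rintro ⟨hb, h⟩
                rw [hVm b hb, ap_upd_self hi] at h
                exact h
              · intro hb
                have hb' := hV'.sub hU' b hb
                refine ⟨hb', ?_⟩
                rw [hVm b hb', ap_upd_self hi]
                exact hb
            rw [e]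
            exact hU'
          · by_cases hin : ap x0 i ∈ U'
            · have e : sep (Z j) (fun b => upd J x0 j b ∈ V) = Z j := by
                refine ext fun b => ?_
                rw [mem_sep (hd1 _)]
                refine ⟨fun h => h.1, fun h => ⟨h, ?_⟩⟩
                rw [hVm b h, ap_upd_ne hi hij]
                exact hin
              rw [e]
              exact hST.univ
            · have e : sep (Z j) (fun b => upd J x0 j b ∈ V) = emp := by
                refine ext fun b => ?_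
                rw [mem_sep (hd1 _)]
                refine ⟨fun h => ?_, fun h => (not_mem_emp _ h).elim⟩
                have h2 := h.2
                rw [hVm b h.1, ap_upd_ne hi hij] at h2
                exact absurd h2 hin
              rw [e]
              exact hST.emp
      have h4 := hT.2 _ hcont O hO
      rw [mem_sep hd2] at h4
      obtain ⟨n', hn', h5⟩ := ((hV'.top _).1 h4.2).2 a ((mem_sep (hd1 _)).2 ⟨hU a ha, haO⟩)
      refine ⟨n', hn', fun b hb hab => ?_⟩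
      have h6 := h5 b hb hab
      rw [mem_sep (hd1 _)] at h6
      exact h1 b hb (hO2 _ h6.2)

end Pool.Agent.H.MP_07d118_lc
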