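import Pool.Agent.H.MP_07d118_lc.Nat

/-!
The real numbers of a model of ZF; quasi-metrics and sequences of relations.
-/

set_option linter.unusedSectionVars false

namespace Pool.Agent.H.MP_07d118_lc

universe u

variable {M : Type u} [SetStr M] [ZF M]

variable {n : ℕ}

/-- the value at `(x, y)` of the function `A` of two variables -/
noncomputable def op (A x y : M) : M := iota (fun z => Rel3 A x y z)

theorem DfF.Op {F G H : (Fin n → M) → M} (hF : DfF F) (hG : DfF G) (hH : DfF H) :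
    DfF (fun v => op (F v) (G v) (H v)) := by
  refine DfF.comp3 (F := op) ?_ hF hG hH
  refine DfF.Iota (P := fun z w => Rel3 (w 0) (w 1) (w 2) z) ?_
  exact Df.rel3 (DfF.var _) (DfF.var _) (DfF.var _) (DfF.var _)

/-- strict order -/
def ltM (L x y : M) : Prop := Rel L x y ∧ ¬ x = y

theorem Df.ltM {F G H : (Fin n → M) → M} (hF : DfF F) (hG : DfF G) (hH : DfF H) :
    Df (fun v => ltM (F v) (G v) (H v)) :=
  Df.and (Df.rel hF hG hH) (Df.not (Df.eq hG hH))

section reals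

variable {R A P L : M} [Field (El R)] [LinearOrder (El R)] [IsStrictOrderedRing (El R)]

theorem IsReals.op_add (hR : IsReals R A P L) (x y : El R) : op A x.1 y.1 = (x + y).1 :=
  iota_eq (hR.addFun.2 _ _ x.2 y.2) (hR.add x y)

theorem IsReals.op_mul (hR : IsReals R A P L) (x y : El R) : op P x.1 y.1 = (x * y).1 :=
  iota_eq (hR.mulFun.2 _ _ x.2 y.2) (hR.mul x y)

theorem IsReals.lt_iff (hR : IsReals R A P L) (x y : El R) : ltM L x.1 y.1 ↔ x < y := by
  unfold ltM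
  rw [hR.le, lt_iff_le_and_ne]
  exact and_congr_right fun _ => not_congr (by rw [Subtype.ext_iff])

theorem IsReals.exists_inf (hR : IsReals R A P L) (S : M) (hS : Sub S R)
    (hne : ∃ x : M, x ∈ S) (hb : ∃ b : El R, ∀ x : El R, x.1 ∈ S → b ≤ x) :
    ∃ b : El R, (∀ x : El R, x.1 ∈ S → b ≤ x) ∧ ∀ c : El R, (∀ x : El R, x.1 ∈ S → c ≤ x) → c ≤ b := by
  have hd : Df (fun w : Fin 1 → M => ∀ s : M, s ∈ S → Rel L (w 0) s) := by
    apply_rules (transparency := .reducible) [Df.all, Df.imp, Df.rel, Df.mem, DfF.var, DfF.const]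
  have mS : ∀ c : El R, c.1 ∈ sep R (fun r => ∀ s : M, s ∈ S → Rel L r s) ↔
      ∀ x : El R, x.1 ∈ S → c ≤ x := by
    intro c
    rw [mem_sep hd]
    constructor
    · intro h x hx
      exact (hR.le c x).1 (h.2 x.1 hx)
    · intro h
      exact ⟨c.2, fun s hs => (hR.le c ⟨s, hS s hs⟩).2 (h _ hs)⟩
  obtain ⟨b, hb1, hb2⟩ := hR.sup (sep R (fun r => ∀ s : M, s ∈ S → Rel L r s))
    (fun x hx => ((mem_sep hd).1 hx).1) (by
      obtain ⟨b, hb⟩ := hb
      exact ⟨b.1, (mS b).2 hb⟩) (by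
      obtain ⟨x, hx⟩ := hne
      exact ⟨⟨x, hS x hx⟩, fun c hc => (mS c).1 hc _ hx⟩)
  refine ⟨b, fun x hx => hb2 x fun c hc => (mS c).1 hc x hx, fun c hc => hb1 c ((mS c).2 hc)⟩

/-- the powers of `q`, in the model -/
noncomputable def pwM (P q o n : M) : M := iter (fun r => op P q r) o n

theorem DfF.PwM {F G H K : (Fin n → M) → M} (hF : DfF F) (hG : DfF G) (hH : DfF H) (hK : DfF K) :
    DfF (fun v => pwM (F v) (G v) (H v) (K v)) := by
  unfold MP_07d118_lc.pwM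
  refine DfF.Iter (G := fun r v => op (F v) (G v) r) ?_ hH hK
  exact DfF.Op (hF.wk _) (hG.wk _) (DfF.var 0)

/-- successor -/
noncomputable def sN (n : El (om : M)) : El (om : M) := ⟨suc n.1, suc_mem_om n.2⟩

/-- zero -/
noncomputable def zN : El (om : M) := ⟨emp, emp_mem_om⟩

theorem op_df (P q : M) : DfF (fun w : Fin 1 → M => op P q (w 0)) :=
  DfF.Op (DfF.const _) (DfF.const _) (DfF.var _)

theorem IsReals.pw_mem (hR : IsReals R A P L) (q : El R) :
    ∀ n : M, n ∈ (om : M) → pwM P q.1 (1 : El R).1 n ∈ R := by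
  refine iter_mem (op_df P q.1) (1 : El R).2 ?_
  intro x hx
  have := hR.op_mul q ⟨x, hx⟩
  rw [this]
  exact (q * ⟨x, hx⟩).2

/-- the powers of `q` -/
noncomputable def pw (hR : IsReals R A P L) (q : El R) (n : El (om : M)) : El R :=
  ⟨pwM P q.1 (1 : El R).1 n.1, hR.pw_mem q n.1 n.2⟩

theorem pw_zero (hR : IsReals R A P L) (q : El R) : pw hR q zN = 1 := by
  apply Subtype.ext
  refine iter_zero (A := R) (op_df P q.1) (1 : El R).2 ?_
  intro x hx
  have := hR.op_mul q ⟨x, hx⟩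
  rw [this]
  exact (q * ⟨x, hx⟩).2

theorem pw_suc (hR : IsReals R A P L) (q : El R) (n : El (om : M)) :
    pw hR q (sN n) = q * pw hR q n := by
  apply Subtype.ext
  rw [← hR.op_mul]
  refine iter_suc (A := R) (op_df P q.1) (1 : El R).2 ?_ n.2
  intro x hx
  have := hR.op_mul q ⟨x, hx⟩
  rw [this]
  exact (q * ⟨x, hx⟩).2

theorem pw_pos (hR : IsReals R A P L) {q : El R} (hq : 0 < q) (n : El (om : M)) :
    0 < pw hR q n := by
  have key : ∀ n : M, n ∈ (om : M) → ltM L (0 : El R).1 (pwM P q.1 (1 : El R).1 n) := by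
    refine nat_ind ?_ ?_ ?_
    · apply_rules (transparency := .reducible) [Df.ltM, DfF.PwM, DfF.var, DfF.const]
    · have := (hR.lt_iff 0 (pw hR q zN)).2 (by rw [pw_zero]; exact one_pos)
      exact this
    · intro n hn ih
      have h1 := (hR.lt_iff 0 (pw hR q ⟨n, hn⟩)).1 ih
      exact (hR.lt_iff 0 (pw hR q (sN ⟨n, hn⟩))).2 (by rw [pw_suc]; exact mul_pos hq h1)
  exact (hR.lt_iff 0 (pw hR q n)).1 (key n.1 n.2)

theorem pw_lt_suc (hR : IsReals R A P L) {q : El R} (hq : 0 < q) (hq1 : q < 1)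
    (n : El (om : M)) : pw hR q (sN n) < pw hR q n := by
  rw [pw_suc]
  have := pw_pos hR hq n
  nlinarith

theorem pw_lt (hR : IsReals R A P L) {q : El R} (hq : 0 < q) (hq1 : q < 1)
    {m n : El (om : M)} (h : m.1 ∈ n.1) : pw hR q n < pw hR q m := by
  have key : ∀ n : M, n ∈ (om : M) → ∀ m : M, m ∈ n → ltM L (pwM P q.1 (1 : El R).1 n)
      (pwM P q.1 (1 : El R).1 m) := by
    refine nat_ind ?_ ?_ ?_
    · apply_rules (transparency := .reducible) [Df.ltM, Df.all, Df.imp, Df.mem, DfF.PwM, DfF.var,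
        DfF.const]
    · intro m hm
      exact (not_mem_emp _ hm).elim
    · intro n hn ih m hm
      have hm' : m ∈ (om : M) := om_mem (suc_mem_om hn) hm
      refine (hR.lt_iff (pw hR q (sN ⟨n, hn⟩)) (pw hR q ⟨m, hm'⟩)).2 ?_
      have h1 := pw_lt_suc hR hq hq1 ⟨n, hn⟩
      rcases mem_suc.1 hm with h | rfl
      · exact h1.trans ((hR.lt_iff (pw hR q ⟨n, hn⟩) (pw hR q ⟨m, hm'⟩)).1 (ih m h))
      · exact h1
  exact (hR.lt_iff _ _).1 (key n.1 n.2 m.1 h)

theorem pw_le (hR : IsReals R A P L) {q : El R} (hq : 0 < q) (hq1 : q < 1)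
    {m n : El (om : M)} (h : Le m.1 n.1) : pw hR q n ≤ pw hR q m := by
  rcases h with h | h
  · exact (pw_lt hR hq hq1 h).le
  · rw [Subtype.ext h]

theorem exists_pw_lt (hR : IsReals R A P L) {q : El R} (hq : 0 < q) (hq1 : q < 1) {ε : El R}
    (hε : 0 < ε) : ∃ n : El (om : M), pw hR q n < ε := by
  by_contra hcon
  push Not at hcon
  have hd : DfF (fun w : Fin 1 → M => pwM P q.1 (1 : El R).1 (w 0)) := by
    apply_rules (transparency := .reducible) [DfF.PwM, DfF.var, DfF.const]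
  have mS : ∀ r : M, r ∈ image om (fun n => pwM P q.1 (1 : El R).1 n) ↔
      ∃ n : El (om : M), r = (pw hR q n).1 := by
    intro r
    rw [mem_image hd]
    constructor
    · rintro ⟨n, hn, h⟩
      exact ⟨⟨n, hn⟩, h⟩
    · rintro ⟨n, h⟩
      exact ⟨n.1, n.2, h⟩
  obtain ⟨c, hc1, hc2⟩ := hR.exists_inf (image om (fun n => pwM P q.1 (1 : El R).1 n))
    (by
      intro x hx
      obtain ⟨n, rfl⟩ := (mS x).1 hx
      exact (pw hR q n).2)
    ⟨(pw hR q zN).1, (mS _).2 ⟨_, rfl⟩⟩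
    ⟨0, by
      intro x hx
      obtain ⟨n, h⟩ := (mS x.1).1 hx
      rw [Subtype.ext h]
      exact (pw_pos hR hq n).le⟩
  have hc : ε ≤ c := hc2 ε (by
    intro x hx
    obtain ⟨n, h⟩ := (mS x.1).1 hx
    rw [Subtype.ext h]
    exact hcon n)
  have hc0 : 0 < c := hε.trans_le hc
  have h3 : c < c / q := by
    rw [lt_div_iff₀ hq]
    nlinarith
  have h4 : ¬ ∀ x : El R, x.1 ∈ image om (fun n => pwM P q.1 (1 : El R).1 n) → c / q ≤ x := by
    intro h
    exact absurd (hc2 _ h) (not_le.2 h3)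
  push Not at h4
  obtain ⟨x, hx, hx2⟩ := h4
  obtain ⟨n, h⟩ := (mS x.1).1 hx
  rw [Subtype.ext h] at hx2
  have h5 := hc1 (pw hR q (sN n)) ((mS _).2 ⟨_, rfl⟩)
  rw [pw_suc] at h5
  rw [lt_div_iff₀ hq] at hx2
  nlinarith

end reals

/-! ### sequences of relations inducing a topology -/

/-- The relations `V n`, `n ∈ ω`, form a base of a quasi-uniformity which induces the topology
`T` on `X`. -/
structure QF (X T : M) (V : M → M → M → Prop) : Prop where
  df : Df (fun w : Fin 3 → M => V (w 0) (w 1) (w 2))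
  zero : ∀ x y : M, x ∈ X → y ∈ X → V emp x y
  refl : ∀ n x : M, n ∈ (om : M) → x ∈ X → V n x x
  comp : ∀ n x y z : M, n ∈ (om : M) → x ∈ X → y ∈ X → z ∈ X →
    V (suc n) x y → V (suc n) y z → V n x z
  sep : ∀ x y : M, x ∈ X → y ∈ X → (∀ n : M, n ∈ (om : M) → V n x y) → x = y
  top : ∀ U : M, U ∈ T ↔ Sub U X ∧ ∀ x : M, x ∈ U →
    ∃ n : M, n ∈ (om : M) ∧ ∀ y : M, y ∈ X → V n x y → y ∈ U

theorem QF.mono {X T : M} {V : M → M → M → Prop} (h : QF X T V) {m n x y : M}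
    (hn : n ∈ (om : M)) (hx : x ∈ X) (hy : y ∈ X) (hmn : Le m n) (hV : V n x y) : V m x y := by
  have key : ∀ n : M, n ∈ (om : M) → ∀ m : M, Le m n → V n x y → V m x y := by
    refine nat_ind ?_ ?_ ?_
    · apply_rules (transparency := .reducible) [Df.all, Df.imp, Df.le, Df.comp3 h.df, DfF.var,
        DfF.const]
    · intro m hm hV
      rcases hm with hm | rfl
      · exact (not_mem_emp _ hm).elim
      · exact hV
    · intro n hn ih m hm hV
      rcases hm with hm | rfl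
      · exact ih m (lt_suc_iff.1 hm) (h.comp n x y y hn hx hy hy hV (h.refl _ _ (suc_mem_om hn) hy))
      · exact hV
  exact key n hn m hmn hV

section R1

variable {R A P L : M} [Field (El R)] [LinearOrder (El R)] [IsStrictOrderedRing (El R)]

theorem R1 (hR : IsReals R A P L) {X T d : M} {ρ : El X → El X → El R} (hd : IsQMet R X d ρ)
    (hT : IsTopOf R X T ρ) : ∃ V : M → M → M → Prop, QF X T V ∧
      ((∀ x y : El X, ρ x y = ρ y x) →
        ∀ n x y : M, n ∈ (om : M) → x ∈ X → y ∈ X → V n x y → V n y x) := by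
  let q : El R := 1 / 2
  have hq : 0 < q := by positivity
  have hq1 : q < 1 := by
    show (1 / 2 : El R) < 1
    norm_num
  let V : M → M → M → Prop := fun n x y => n = emp ∨
    ltM L (op d x y) (pwM P q.1 (1 : El R).1 n)
  have hop : ∀ x y : El X, op d x.1 y.1 = (ρ x y).1 := fun x y =>
    iota_eq (hd.isFun.2 _ _ x.2 y.2) (hd.val x y)
  have hV : ∀ (n : El (om : M)) (x y : El X), V n.1 x.1 y.1 ↔ n.1 = emp ∨ ρ x y < pw hR q n := by
    intro n x y
    show (_ ∨ ltM L (op d x.1 y.1) (pw hR q n).1) ↔ _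
    rw [hop, hR.lt_iff]
  have hVs : ∀ (n : El (om : M)) (x y : El X), V (suc n.1) x.1 y.1 ↔ ρ x y < pw hR q (sN n) := by
    intro n x y
    have := hV (sN n) x y
    rw [show (sN n).1 = suc n.1 from rfl] at this
    rw [this]
    simp [suc_ne_emp]
  refine ⟨V, ⟨?_, ?_, ?_, ?_, ?_, ?_⟩, ?_⟩
  · apply_rules (transparency := .reducible) [Df.or, Df.eq, Df.ltM, DfF.Op, DfF.PwM, DfF.var,
        DfF.const]
  · intro x y hx hy
    exact Or.inl rfl
  · intro n x hn hx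
    rw [hV ⟨n, hn⟩ ⟨x, hx⟩ ⟨x, hx⟩, hd.self]
    exact Or.inr (pw_pos hR hq _)
  · intro n x y z hn hx hy hz h1 h2
    rw [hVs ⟨n, hn⟩ ⟨x, hx⟩ ⟨y, hy⟩] at h1
    rw [hVs ⟨n, hn⟩ ⟨y, hy⟩ ⟨z, hz⟩] at h2
    rw [hV ⟨n, hn⟩ ⟨x, hx⟩ ⟨z, hz⟩]
    right
    rw [pw_suc] at h1 h2
    have h3 := hd.tri ⟨x, hx⟩ ⟨z, hz⟩ ⟨y, hy⟩
    have h4 : q * pw hR q ⟨n, hn⟩ + q * pw hR q ⟨n, hn⟩ = pw hR q ⟨n, hn⟩ := by
      show (1 / 2 : El R) * _ + (1 / 2 : El R) * _ = _
      ring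
    linarith
  · intro x y hx hy h
    have h0 := hd.nonneg ⟨x, hx⟩ ⟨y, hy⟩
    rcases h0.lt_or_eq with h1 | h1
    · obtain ⟨n, hn⟩ := exists_pw_lt hR hq hq1 h1
      have h2 := (hVs n ⟨x, hx⟩ ⟨y, hy⟩).1 (h _ (suc_mem_om n.2))
      have h3 := pw_lt_suc hR hq hq1 n
      exact absurd (h2.trans (h3.trans hn)) (lt_irrefl _)
    · have := hd.eq _ _ h1.symm
      exact congrArg Subtype.val this
  · intro U
    rw [hT U]
    refine and_congr_right fun hU => ?_
    constructor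
    · intro h x hx
      obtain ⟨ε, hε, h1⟩ := h ⟨x, hU x hx⟩ hx
      obtain ⟨n, hn⟩ := exists_pw_lt hR hq hq1 hε
      refine ⟨suc n.1, suc_mem_om n.2, fun y hy hVy => ?_⟩
      have h2 := (hVs n ⟨x, hU x hx⟩ ⟨y, hy⟩).1 hVy
      exact h1 ⟨y, hy⟩ (h2.trans ((pw_lt_suc hR hq hq1 n).trans hn))
    · intro h x hx
      obtain ⟨n, hn, h1⟩ := h x.1 hx
      refine ⟨pw hR q ⟨n, hn⟩, pw_pos hR hq _, fun y hy => ?_⟩
      exact h1 y.1 y.2 ((hV ⟨n, hn⟩ x y).2 (Or.inr hy))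
  · intro hs n x y hn hx hy h
    rw [hV ⟨n, hn⟩ ⟨x, hx⟩ ⟨y, hy⟩] at h
    rw [hV ⟨n, hn⟩ ⟨y, hy⟩ ⟨x, hx⟩, hs]
    exact h

end R1

end Pool.Agent.H.MP_07d118_lc
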