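import Pool.Agent.H.MP_07d118_lc.Base

/-!
The axioms in `Base.lean` hold in Mathlib's `ZFSet`, so they are not contradictory.
-/

namespace Pool.Agent.H.MP_07d118_lc

universe u

/-- Mathlib's sets -/
def Z : Type (u + 1) := ZFSet.{u}

/-- the underlying set -/
def Z.out (x : Z.{u}) : ZFSet.{u} := x

/-- the set as an element of `Z` -/
def Z.mk (x : ZFSet.{u}) : Z.{u} := x

instance : SetStr Z.{u} := ⟨fun x a => x.out ∈ a.out⟩

theorem Z.mem (x a : Z.{u}) : x ∈ a ↔ x.out ∈ a.out := Iff.rfl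

theorem Z.sep_ex (P : Z.{u} → Prop) (a : Z.{u}) : ∃ b : Z.{u}, ∀ x : Z.{u}, x ∈ b ↔ x ∈ a ∧ P x :=
  ⟨Z.mk (ZFSet.sep (fun x => P (Z.mk x)) a.out), fun _ => ZFSet.mem_sep⟩

instance : ZF Z.{u} where
  ext a b h := ZFSet.ext h
  foundation a h := by
    obtain ⟨x, hx⟩ := h
    have hne : a.out ≠ ∅ := by
      intro e
      rw [Z.mem, e] at hx
      exact ZFSet.notMem_empty _ hx
    obtain ⟨y, hy, h2⟩ := ZFSet.regularity a.out hne
    refine ⟨Z.mk y, hy, fun z hz => ?_⟩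
    have : z.out ∈ a.out ∩ y := ZFSet.mem_inter.2 ⟨hz.2, hz.1⟩
    rw [h2] at this
    exact ZFSet.notMem_empty _ this
  pairing a b := ⟨Z.mk {a.out, b.out}, fun x => ZFSet.mem_pair⟩
  union a := ⟨Z.mk (ZFSet.sUnion a.out), fun x => ZFSet.mem_sUnion⟩
  power a := ⟨Z.mk (ZFSet.powerset a.out), fun x => ZFSet.mem_powerset⟩
  infinity := by
    refine ⟨Z.mk ZFSet.omega, ⟨Z.mk ∅, fun y hy => ZFSet.notMem_empty _ hy, ZFSet.omega_zero⟩,
      fun x hx => ⟨Z.mk (insert x.out x.out), fun z => ?_, ZFSet.omega_succ hx⟩⟩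
    exact ZFSet.mem_insert_iff.trans or_comm
  separation φ v a := Z.sep_ex _ a
  replacement φ v a h := by
    classical
    obtain ⟨b, hb⟩ : ∃ b : Z.{u}, ∀ y : Z.{u}, y ∈ b ↔ ∃ x : Z.{u}, x ∈ a ∧ Sat (cons y (cons x v)) φ := by
      choose f hf hf2 using h
      have : Small.{u} {z : ZFSet.{u} // z ∈ a.out} := ZFSet.small_coe a.out
      refine ⟨Z.mk (ZFSet.range (fun x : Shrink.{u} {z : ZFSet.{u} // z ∈ a.out} =>
        (f (Z.mk ((equivShrink _).symm x).1) ((equivShrink _).symm x).2).out)), fun y => ?_⟩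
      rw [Z.mem]
      show y.out ∈ ZFSet.range _ ↔ _
      rw [ZFSet.mem_range]
      constructor
      · rintro ⟨x, hx⟩
        refine ⟨Z.mk ((equivShrink _).symm x).1, ((equivShrink _).symm x).2, ?_⟩
        have := hf (Z.mk ((equivShrink _).symm x).1) ((equivShrink _).symm x).2
        rw [← show (f (Z.mk ((equivShrink _).symm x).1) ((equivShrink _).symm x).2) = y from hx]
        exact this
      · rintro ⟨x, hx, hy⟩
        refine ⟨equivShrink _ ⟨x.out, hx⟩, ?_⟩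
        have := hf2 x hx y hy
        rw [this]
        simp only [Equiv.symm_apply_apply]
        rfl
    exact ⟨b, hb⟩

end Pool.Agent.H.MP_07d118_lc
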