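import Pool.Agent.H.MP_07d118_lc.Df

/-!
Elementary set theory inside a model of ZF.
-/

set_option linter.unusedSectionVars false

namespace Pool.Agent.H.MP_07d118_lc

universe u

variable {M : Type u} [SetStr M] [ZF M]

instance (priority := 100) ZF.ne : Nonempty M :=
  let ⟨a, _⟩ := ZF.infinity (M := M)
  ⟨a⟩

variable {n : ℕ}

theorem ext {a b : M} (h : ∀ x : M, x ∈ a ↔ x ∈ b) : a = b := ZF.ext a b h

theorem exu {P : M → Prop} (h : ∃ b : M, ∀ x : M, x ∈ b ↔ P x) :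
    ∃! b : M, ∀ x : M, x ∈ b ↔ P x := by
  obtain ⟨b, hb⟩ := h
  exact ⟨b, hb, fun c hc => ext fun x => (hc x).trans (hb x).symm⟩

/-- subset -/
def Sub (a b : M) : Prop := ∀ x : M, x ∈ a → x ∈ b

theorem Df.subset {F G : (Fin n → M) → M} (hF : DfF F) (hG : DfF G) :
    Df (fun v => Sub (F v) (G v)) :=
  Df.comp2 (P := fun x y => Sub x y) (Df.all (Df.imp (Df.mem (DfF.var _) (DfF.var _))
    (Df.mem (DfF.var _) (DfF.var _)))) hF hG

theorem Sub.antisymm {a b : M} (h : Sub a b) (h' : Sub b a) : a = b :=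
  ext fun x => ⟨h x, h' x⟩

/-! ### separation -/

theorem exists_sep (a : M) {P : M → Prop} (h : Df (fun w : Fin 1 → M => P (w 0))) :
    ∃ b : M, ∀ x : M, x ∈ b ↔ x ∈ a ∧ P x := by
  obtain ⟨φ, p, hp⟩ := h
  obtain ⟨b, hb⟩ := ZF.separation φ p a
  refine ⟨b, fun x => ?_⟩
  rw [hb x]
  have := hp (fun _ => x)
  exact and_congr_right fun _ => this.symm

/-- `{x ∈ a | P x}` -/
noncomputable def sep (a : M) (P : M → Prop) : M := iota (fun b => ∀ x : M, x ∈ b ↔ x ∈ a ∧ P x)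

theorem mem_sep {a : M} {P : M → Prop} (h : Df (fun w : Fin 1 → M => P (w 0))) {x : M} :
    x ∈ sep a P ↔ x ∈ a ∧ P x :=
  iota_spec (exu (exists_sep a h)) x

theorem DfF.Sep {A : (Fin n → M) → M} (hA : DfF A) {P : M → (Fin n → M) → Prop}
    (hP : Df (fun w : Fin (n + 1) → M => P (w 0) (fun i => w i.succ))) :
    DfF (fun v => sep (A v) (fun x => P x v)) := by
  refine DfF.Iota (P := fun b v => ∀ x : M, x ∈ b ↔ x ∈ A v ∧ P x v) ?_
  refine Df.all (Df.iff (Df.mem (DfF.var 0) (DfF.var 1)) (Df.and (Df.mem (DfF.var 0) ?_) ?_))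
  · exact hA.wk (fun i => i.succ.succ)
  · exact hP.reindex (fun i => Fin.cases 0 (fun j => j.succ.succ) i)

/-! ### replacement -/

theorem exists_image (a : M) {F : M → M} (h : DfF (fun w : Fin 1 → M => F (w 0))) :
    ∃ b : M, ∀ y : M, y ∈ b ↔ ∃ x : M, x ∈ a ∧ y = F x := by
  obtain ⟨φ, p, hp⟩ := h.out
  have key : ∀ x y : M, Sat (cons y (cons x p)) φ ↔ y = F x := fun x y =>
    (hp (Fin.cons y (fun _ => x))).symm
  obtain ⟨b, hb⟩ := ZF.replacement φ p a (fun x _ => ⟨F x, (key x _).2 rfl, fun y hy =>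
    (key x y).1 hy⟩)
  exact ⟨b, fun y => (hb y).trans (exists_congr fun x => and_congr_right fun _ => key x y)⟩

/-- `{F x | x ∈ a}` -/
noncomputable def image (a : M) (F : M → M) : M :=
  iota (fun b => ∀ y : M, y ∈ b ↔ ∃ x : M, x ∈ a ∧ y = F x)

theorem mem_image {a : M} {F : M → M} (h : DfF (fun w : Fin 1 → M => F (w 0))) {y : M} :
    y ∈ image a F ↔ ∃ x : M, x ∈ a ∧ y = F x :=
  iota_spec (exu (exists_image a h)) y

theorem DfF.Image {A : (Fin n → M) → M} (hA : DfF A) {F : M → (Fin n → M) → M}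
    (hF : DfF (fun w : Fin (n + 1) → M => F (w 0) (fun i => w i.succ))) :
    DfF (fun v => image (A v) (fun x => F x v)) := by
  refine DfF.Iota (P := fun b v => ∀ y : M, y ∈ b ↔ ∃ x : M, x ∈ A v ∧ y = F x v) ?_
  refine Df.all (Df.iff (Df.mem (DfF.var 0) (DfF.var 1)) (Df.ex (Df.and (Df.mem (DfF.var 0) ?_)
    (Df.eq (DfF.var 1) ?_))))
  · exact hA.wk (fun i => i.succ.succ.succ)
  · exact hF.wk (fun i => Fin.cases 0 (fun j => j.succ.succ.succ) i)

/-! ### basic operations -/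

/-- the empty set -/
noncomputable def emp : M := iota (fun b : M => IsEmp b)

theorem not_mem_emp (x : M) : ¬ x ∈ (emp : M) := by
  have h1 : ∃! b : M, ∀ x : M, x ∈ b ↔ False := by
    apply exu
    obtain ⟨b, hb⟩ := exists_sep (Classical.arbitrary M) (P := fun x => ¬ x = x)
      (Df.not (Df.eq (DfF.var 0) (DfF.var 0)))
    exact ⟨b, fun x => by rw [hb]; simp⟩
  have h2 : ∃! b : M, IsEmp b := by
    obtain ⟨b, hb, hu⟩ := h1
    exact ⟨b, fun x hx => (hb x).1 hx, fun c hc => hu c fun x => ⟨hc x, False.elim⟩⟩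
  exact iota_spec h2 x

theorem isEmp_iff {x : M} : IsEmp x ↔ x = emp :=
  ⟨fun h => ext fun y => ⟨fun hy => (h y hy).elim, fun hy => (not_mem_emp y hy).elim⟩,
    fun h => h ▸ not_mem_emp⟩

/-- the unordered pair -/
noncomputable def upair (x y : M) : M := iota (fun z => IsUPair z x y)

theorem mem_upair {x y z : M} : z ∈ upair x y ↔ z = x ∨ z = y :=
  iota_spec (exu (ZF.pairing x y)) z

theorem isUPair_iff {z x y : M} : IsUPair z x y ↔ z = upair x y :=
  ⟨fun h => ext fun w => (h w).trans mem_upair.symm, fun h w => by rw [h]; exact mem_upair⟩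

theorem DfF.Upair {F G : (Fin n → M) → M} (hF : DfF F) (hG : DfF G) :
    DfF (fun v => upair (F v) (G v)) := by
  refine DfF.comp2 (F := upair) ?_ hF hG
  refine DfF.Iota (P := fun z w => ∀ x : M, x ∈ z ↔ x = w 0 ∨ x = w 1) ?_
  exact Df.all (Df.iff (Df.mem (DfF.var 0) (DfF.var 1))
    (Df.or (Df.eq (DfF.var 0) (DfF.var _)) (Df.eq (DfF.var 0) (DfF.var _))))

/-- the union of a set -/
noncomputable def sUn (a : M) : M := iota (fun b => ∀ x : M, x ∈ b ↔ ∃ y : M, y ∈ a ∧ x ∈ y)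

theorem mem_sUn {a x : M} : x ∈ sUn a ↔ ∃ y : M, y ∈ a ∧ x ∈ y :=
  iota_spec (exu (ZF.union a)) x

theorem DfF.SUn {F : (Fin n → M) → M} (hF : DfF F) : DfF (fun v => sUn (F v)) := by
  refine DfF.comp1 (F := sUn) ?_ hF
  refine DfF.Iota (P := fun z w => ∀ x : M, x ∈ z ↔ ∃ y : M, y ∈ w 0 ∧ x ∈ y) ?_
  exact Df.all (Df.iff (Df.mem (DfF.var 0) (DfF.var 1))
    (Df.ex (Df.and (Df.mem (DfF.var 0) (DfF.var _)) (Df.mem (DfF.var 1) (DfF.var 0)))))

/-- the power set -/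
noncomputable def pow (a : M) : M := iota (fun b => ∀ x : M, x ∈ b ↔ Sub x a)

theorem mem_pow {a x : M} : x ∈ pow a ↔ Sub x a :=
  iota_spec (exu (ZF.power a)) x

theorem DfF.Pow {F : (Fin n → M) → M} (hF : DfF F) : DfF (fun v => pow (F v)) := by
  refine DfF.comp1 (F := pow) ?_ hF
  refine DfF.Iota (P := fun z w => ∀ x : M, x ∈ z ↔ Sub x (w 0)) ?_
  exact Df.all (Df.iff (Df.mem (DfF.var 0) (DfF.var 1)) (Df.subset (DfF.var _) (DfF.var _)))

/-- the union of two sets -/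
noncomputable def un (a b : M) : M := sUn (upair a b)

theorem mem_un {a b x : M} : x ∈ un a b ↔ x ∈ a ∨ x ∈ b := by
  unfold un
  rw [mem_sUn]
  constructor
  · rintro ⟨y, hy, hx⟩
    rcases mem_upair.1 hy with rfl | rfl
    · exact Or.inl hx
    · exact Or.inr hx
  · rintro (h | h)
    · exact ⟨a, mem_upair.2 (Or.inl rfl), h⟩
    · exact ⟨b, mem_upair.2 (Or.inr rfl), h⟩

theorem DfF.Un {F G : (Fin n → M) → M} (hF : DfF F) (hG : DfF G) :
    DfF (fun v => un (F v) (G v)) := DfF.SUn (DfF.Upair hF hG)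

/-- `x ∪ {x}` -/
noncomputable def suc (x : M) : M := un x (upair x x)

theorem mem_suc {x y : M} : y ∈ suc x ↔ y ∈ x ∨ y = x := by
  unfold suc
  rw [mem_un, mem_upair]
  tauto

theorem isSucc_iff {y x : M} : IsSucc y x ↔ y = suc x :=
  ⟨fun h => ext fun w => (h w).trans mem_suc.symm, fun h w => by rw [h]; exact mem_suc⟩

theorem DfF.Suc {F : (Fin n → M) → M} (hF : DfF F) : DfF (fun v => suc (F v)) :=
  DfF.Un hF (DfF.Upair hF hF)

/-- the ordered pair -/
noncomputable def opair (x y : M) : M := upair (upair x x) (upair x y)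

theorem DfF.Opair {F G : (Fin n → M) → M} (hF : DfF F) (hG : DfF G) :
    DfF (fun v => opair (F v) (G v)) := DfF.Upair (DfF.Upair hF hF) (DfF.Upair hF hG)

theorem isOPair_iff {p x y : M} : IsOPair p x y ↔ p = opair x y := by
  constructor
  · rintro ⟨a, b, ha, hb, hp⟩
    rw [isUPair_iff] at ha hb hp
    rw [hp, ha, hb, opair]
  · rintro rfl
    exact ⟨_, _, isUPair_iff.2 rfl, isUPair_iff.2 rfl, isUPair_iff.2 rfl⟩

theorem upair_self_inj {x y z : M} (h : upair x y = upair z z) : x = z ∧ y = z := by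
  have h1 : x ∈ upair z z := h ▸ mem_upair.2 (Or.inl rfl)
  have h2 : y ∈ upair z z := h ▸ mem_upair.2 (Or.inr rfl)
  rw [mem_upair] at h1 h2
  tauto

theorem opair_inj {x y x' y' : M} : opair x y = opair x' y' ↔ x = x' ∧ y = y' := by
  constructor
  · intro h
    have hx : x = x' := by
      have h1 : upair x x ∈ opair x' y' := h ▸ mem_upair.2 (Or.inl rfl)
      rcases mem_upair.1 h1 with h2 | h2
      · exact (upair_self_inj h2).1
      · exact (upair_self_inj h2.symm).1.symm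
    subst hx
    refine ⟨rfl, ?_⟩
    have h1 : upair x y ∈ opair x y' := h ▸ mem_upair.2 (Or.inr rfl)
    have h2 : upair x y' ∈ opair x y := h ▸ mem_upair.2 (Or.inr rfl)
    rcases mem_upair.1 h1 with h3 | h3
    · have e := (upair_self_inj h3).2
      subst e
      rcases mem_upair.1 h2 with h4 | h4
      · exact (upair_self_inj h4).2.symm
      · exact (upair_self_inj h4).2.symm
    · have h4 : y ∈ upair x y' := h3 ▸ mem_upair.2 (Or.inr rfl)
      rcases mem_upair.1 h4 with h5 | h5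
      · subst h5
        exact (upair_self_inj h3.symm).2.symm
      · exact h5
  · rintro ⟨rfl, rfl⟩
    rfl

theorem rel_iff {f x y : M} : Rel f x y ↔ opair x y ∈ f := by
  constructor
  · rintro ⟨p, hp, h⟩
    rw [isOPair_iff] at hp
    exact hp ▸ h
  · intro h
    exact ⟨_, isOPair_iff.2 rfl, h⟩

theorem rel3_iff {f x y z : M} : Rel3 f x y z ↔ opair (opair x y) z ∈ f := by
  constructor
  · rintro ⟨p, hp, h⟩
    rw [isOPair_iff] at hp
    exact hp ▸ rel_iff.1 h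
  · intro h
    exact ⟨_, isOPair_iff.2 rfl, rel_iff.2 h⟩

theorem Df.rel {F G H : (Fin n → M) → M} (hF : DfF F) (hG : DfF G) (hH : DfF H) :
    Df (fun v => Rel (F v) (G v) (H v)) :=
  (Df.mem (DfF.Opair hG hH) hF).congr fun _ => rel_iff

theorem Df.rel3 {F G H K : (Fin n → M) → M} (hF : DfF F) (hG : DfF G) (hH : DfF H)
    (hK : DfF K) : Df (fun v => Rel3 (F v) (G v) (H v) (K v)) :=
  (Df.mem (DfF.Opair (DfF.Opair hG hH) hK) hF).congr fun _ => rel3_iff

/-- the cartesian product -/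
noncomputable def prod (A B : M) : M :=
  sep (pow (pow (un A B))) (fun p => ∃ x : M, x ∈ A ∧ ∃ y : M, y ∈ B ∧ p = opair x y)

theorem mem_prod {A B p : M} : p ∈ prod A B ↔ ∃ x : M, x ∈ A ∧ ∃ y : M, y ∈ B ∧ p = opair x y := by
  unfold prod
  rw [mem_sep (by
    apply_rules [Df.ex, Df.and, Df.mem, Df.eq, DfF.var, DfF.const, DfF.Opair])]
  refine ⟨fun h => h.2, fun h => ⟨?_, h⟩⟩
  obtain ⟨x, hx, y, hy, rfl⟩ := h
  rw [mem_pow]
  intro z hz
  rw [mem_pow]
  intro w hw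
  rw [mem_un]
  rcases mem_upair.1 hz with rfl | rfl
  · rcases mem_upair.1 hw with rfl | rfl
    · exact Or.inl hx
    · exact Or.inl hx
  · rcases mem_upair.1 hw with rfl | rfl
    · exact Or.inl hx
    · exact Or.inr hy

theorem opair_mem_prod {A B x y : M} : opair x y ∈ prod A B ↔ x ∈ A ∧ y ∈ B := by
  rw [mem_prod]
  constructor
  · rintro ⟨x', hx, y', hy, h⟩
    obtain ⟨rfl, rfl⟩ := opair_inj.1 h
    exact ⟨hx, hy⟩
  · rintro ⟨hx, hy⟩
    exact ⟨x, hx, y, hy, rfl⟩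

theorem DfF.Prod {F G : (Fin n → M) → M} (hF : DfF F) (hG : DfF G) :
    DfF (fun v => prod (F v) (G v)) := by
  refine DfF.comp2 (F := prod) ?_ hF hG
  refine DfF.Sep (P := fun p w => ∃ x : M, x ∈ w 0 ∧ ∃ y : M, y ∈ w 1 ∧ p = opair x y)
    ?_ ?_
  · apply_rules [DfF.Pow, DfF.Un, DfF.var]
  · apply_rules [Df.ex, Df.and, Df.mem, Df.eq, DfF.var, DfF.const, DfF.Opair]

/-! ### functions -/

/-- the value of the function `f` at `x` -/
noncomputable def ap (f x : M) : M := iota (fun y => Rel f x y)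

theorem DfF.Ap {F G : (Fin n → M) → M} (hF : DfF F) (hG : DfF G) :
    DfF (fun v => ap (F v) (G v)) := by
  refine DfF.comp2 (F := ap) ?_ hF hG
  refine DfF.Iota (P := fun y w => Rel (w 0) (w 1) y) ?_
  exact Df.rel (DfF.var _) (DfF.var _) (DfF.var _)

theorem IsFun.rel_ap {f A x : M} (h : IsFun f A) (hx : x ∈ A) : Rel f x (ap f x) :=
  iota_spec (h.2 x hx)

theorem IsFun.ap_eq {f A x y : M} (h : IsFun f A) (hx : x ∈ A) (hy : Rel f x y) : ap f x = y :=
  iota_eq (h.2 x hx) hy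

theorem IsFun.dom {f A x y : M} (h : IsFun f A) (hr : Rel f x y) : x ∈ A := by
  obtain ⟨p, hp, hpf⟩ := hr
  obtain ⟨x', y', hx', hp'⟩ := h.1 p hpf
  rw [isOPair_iff] at hp hp'
  rw [hp] at hp'
  rw [(opair_inj.1 hp').1]
  exact hx'

theorem IsFun.rel_iff {f A x y : M} (h : IsFun f A) : Rel f x y ↔ x ∈ A ∧ y = ap f x :=
  ⟨fun hr => ⟨h.dom hr, (h.ap_eq (h.dom hr) hr).symm⟩, fun hr => hr.2 ▸ h.rel_ap hr.1⟩

theorem IsFun.ext {f g A : M} (hf : IsFun f A) (hg : IsFun g A)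
    (h : ∀ x : M, x ∈ A → ap f x = ap g x) : f = g := by
  refine MP_07d118_lc.ext fun p => ?_
  constructor
  · intro hp
    obtain ⟨x, y, hx, hp'⟩ := hf.1 p hp
    have e := isOPair_iff.1 hp'
    rw [e, ← MP_07d118_lc.rel_iff, hg.rel_iff]
    rw [e, ← MP_07d118_lc.rel_iff, hf.rel_iff] at hp
    exact ⟨hx, hp.2.trans (h x hx)⟩
  · intro hp
    obtain ⟨x, y, hx, hp'⟩ := hg.1 p hp
    have e := isOPair_iff.1 hp'
    rw [e, ← MP_07d118_lc.rel_iff, hf.rel_iff]
    rw [e, ← MP_07d118_lc.rel_iff, hg.rel_iff] at hp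
    exact ⟨hx, hp.2.trans (h x hx).symm⟩

theorem Df.isFun {F G : (Fin n → M) → M} (hF : DfF F) (hG : DfF G) :
    Df (fun v => IsFun (F v) (G v)) := by
  refine Df.comp2 (P := fun f A => IsFun f A) ?_ hF hG
  refine Df.congr (P := fun w : Fin 2 → M =>
    (∀ p : M, p ∈ w 0 → ∃ x y : M, x ∈ w 1 ∧ p = opair x y) ∧
      ∀ x : M, x ∈ w 1 → ∃ y : M, Rel (w 0) x y ∧ ∀ z : M, Rel (w 0) x z → z = y) ?_ ?_
  · apply_rules (transparency := .reducible) [Df.all, Df.imp, Df.ex, Df.and, Df.mem, Df.eq, Df.rel, DfF.var, DfF.const,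
      DfF.Opair]
  · intro w
    unfold IsFun
    simp only [isOPair_iff]
    rfl

/-- the function `x ↦ F x` with domain `A` -/
noncomputable def lam (A : M) (F : M → M) : M := image A (fun x => opair x (F x))

theorem rel_lam {A : M} {F : M → M} (hF : DfF (fun w : Fin 1 → M => F (w 0))) {x y : M} :
    Rel (lam A F) x y ↔ x ∈ A ∧ y = F x := by
  rw [rel_iff]
  unfold lam
  rw [mem_image (F := fun x => opair x (F x)) (DfF.Opair (DfF.var _) hF)]
  constructor
  · rintro ⟨x', hx', h⟩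
    obtain ⟨rfl, rfl⟩ := opair_inj.1 h
    exact ⟨hx', rfl⟩
  · rintro ⟨hx, rfl⟩
    exact ⟨x, hx, rfl⟩

theorem isFun_lam {A : M} {F : M → M} (hF : DfF (fun w : Fin 1 → M => F (w 0))) :
    IsFun (lam A F) A := by
  constructor
  · intro p hp
    unfold lam at hp
    rw [mem_image (F := fun x => opair x (F x)) (DfF.Opair (DfF.var _) hF)] at hp
    obtain ⟨x, hx, rfl⟩ := hp
    exact ⟨x, F x, hx, isOPair_iff.2 rfl⟩
  · intro x hx
    exact ⟨F x, (rel_lam hF).2 ⟨hx, rfl⟩, fun y hy => ((rel_lam hF).1 hy).2⟩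

theorem ap_lam {A : M} {F : M → M} (hF : DfF (fun w : Fin 1 → M => F (w 0))) {x : M}
    (hx : x ∈ A) : ap (lam A F) x = F x :=
  (isFun_lam hF).ap_eq hx ((rel_lam hF).2 ⟨hx, rfl⟩)

theorem DfF.Lam {A : (Fin n → M) → M} (hA : DfF A) {F : M → (Fin n → M) → M}
    (hF : DfF (fun w : Fin (n + 1) → M => F (w 0) (fun i => w i.succ))) :
    DfF (fun v => lam (A v) (fun x => F x v)) :=
  DfF.Image hA (F := fun x v => opair x (F x v)) (DfF.Opair (DfF.var _) hF)

end Pool.Agent.H.MP_07d118_lc
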